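import Pool.Agent.Spider.State

namespace Spider
open Finset

variable {V : Type} [Fintype V] [DecidableEq V]

/-- completed structures of size `t` -/
def Done (sc : SC V) (t : ℕ) : Prop :=
  ∃ (S : Finset V) (T : Finset (V × V)), PS sc S T ∧ S.card = t ∧ unc S T = ∅

/-! ### star gadgets -/

/-- star gadget for the pair `(e,s)` -/
def IsG2 (sc : SC V) (Vg : Finset V) (e s : V) (G : Finset (V × V)) : Prop :=
  ∃ w1 w2 l1 l2 l3, w1 ∈ Vg ∧ w2 ∈ Vg ∧ w1 ≠ w2 ∧ w1 ≠ l1 ∧ w1 ≠ l2 ∧ w1 ≠ l3 ∧ w2 ≠ l1 ∧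
    w2 ≠ l2 ∧ w2 ≠ l3 ∧ l1 ≠ l2 ∧ l1 ≠ l3 ∧ l2 ≠ l3 ∧
    sc.col e l1 = (w1, w1) ∧ sc.col w1 l2 = (w2, w2) ∧ sc.col w2 l3 = (s, s) ∧
    G = {(w1, w1), (w2, w2), (l1, l1), (l2, l2), (l3, l3)}

structure PS2 (sc : SC V) (Vg S : Finset V) (T : Finset (V × V)) : Prop where
  ps : PS sc S T
  vg : S ⊆ Vg
  st : ∀ p ∈ T, ∃ z, sc.col p.1 p.2 = (z, z)

omit [Fintype V] in
lemma fresh_iff {sc : SC V} {S : Finset V} {T : Finset (V × V)} {w : V}
    (h : (w, w) ∉ Occ sc S T) : w ∉ S ∧ (∀ p ∈ T, p.2 ≠ w) ∧ (∀ p ∈ T, sc.col p.1 p.2 ≠ (w, w)) := by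
  rw [mem_Occ] at h
  push Not at h
  refine ⟨fun hw => h.1 w hw rfl, fun p hp he => h.2.1 p hp (by rw [he]), fun p hp he => h.2.2 p hp he⟩

omit [Fintype V] in
lemma exists_free_symbol {sc : SC V} {Vg S : Finset V} {T : Finset (V × V)}
    (h : PS2 sc Vg S T) (hu : (unc S T).Nonempty) :
    ∃ s ∈ S, ∀ p ∈ T, sc.col p.1 p.2 ≠ (s, s) := by
  classical
  by_contra hcon
  push Not at hcon
  have h1 : (S.image fun x => ((x, x) : V × V)) ⊆ cols sc T := by
    intro y hy
    obtain ⟨s, hs, rfl⟩ := Finset.mem_image.1 hy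
    obtain ⟨p, hp, he⟩ := hcon s hs
    exact mem_cols.2 ⟨p, hp, he⟩
  have h2 : S.card ≤ T.card := by
    have e1 : (S.image fun x => ((x, x) : V × V)).card = S.card := by
      apply Finset.card_image_of_injective
      intro a b hab; exact (Prod.ext_iff.1 hab).1
    calc S.card = _ := e1.symm
      _ ≤ (cols sc T).card := Finset.card_le_card h1
      _ ≤ T.card := Finset.card_image_le
  have h3 : (T.image Prod.fst).card = T.card :=
    Finset.card_image_of_injOn fun p hp p' hp' he => h.ps.i1 p hp p' hp' he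
  have h4 : T.image Prod.fst ⊆ S := by
    intro x hx
    obtain ⟨p, hp, rfl⟩ := Finset.mem_image.1 hx
    exact h.ps.row p hp
  have h5 : 0 < (S \ T.image Prod.fst).card := Finset.card_pos.2 hu
  rw [Finset.card_sdiff_of_subset h4, h3] at h5
  omega

section two
variable {h : ℕ} {sc : SC V} {χ : V × V → ZMod (2 * h + 1)} {Vg : Finset V} {x : ℕ}

/-- hypothesis on the families of star gadgets -/
def Fam2 (sc : SC V) (χ : V × V → ZMod (2 * h + 1)) (Vg : Finset V) (x : ℕ) : Prop :=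
  ∀ e ∈ Vg, ∀ s ∈ Vg, ∃ 𝒢 : Finset (Finset (V × V)),
    (𝒢 : Set (Finset (V × V))).PairwiseDisjoint id ∧ (∀ G ∈ 𝒢, IsG2 sc Vg e s G) ∧
    x ≤ numW 𝒢 χ

lemma get2 (hF : Fam2 sc χ Vg x) {S : Finset V} {T : Finset (V × V)} (hx : occW sc χ S T < x)
    {e s : V} (he : e ∈ Vg) (hs : s ∈ Vg) :
    ∃ G, IsG2 sc Vg e s G ∧ ∀ i ∈ G, i ∉ Occ sc S T := by
  obtain ⟨𝒢, h1, h2, h3⟩ := hF e he s hs
  obtain ⟨G, hG, _, hfr⟩ := exists_fresh χ 𝒢 h1 (Occ sc S T) (lt_of_lt_of_le hx h3)
  exact ⟨G, h2 G hG, hfr⟩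

lemma close2 (hF : Fam2 sc χ Vg x) {S : Finset V} {T : Finset (V × V)}
    (hPS : PS2 sc Vg S T) (hu : (unc S T).Nonempty) (hx : occW sc χ S T < x) :
    ∃ S' T', PS2 sc Vg S' T' ∧ S'.card = S.card + 2 ∧ (unc S' T').card + 1 = (unc S T).card ∧
      occW sc χ S' T' ≤ occW sc χ S T + 8 := by
  obtain ⟨s, hsS, hs⟩ := exists_free_symbol hPS hu
  obtain ⟨e, heu⟩ := hu
  have heu' := mem_unc.1 heu
  obtain ⟨G, ⟨w1, w2, l1, l2, l3, hw1, hw2, n1, n2, n3, n4, n5, n6, n7, n8, n9, n10, c1, c2, c3,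
    hG⟩, hfr⟩ := get2 hF hx (hPS.vg heu'.1) (hPS.vg hsS)
  subst hG
  obtain ⟨a1, a2, a3⟩ := fresh_iff (hfr (w1, w1) (by simp))
  obtain ⟨b1, b2, b3⟩ := fresh_iff (hfr (w2, w2) (by simp))
  obtain ⟨d1, d2, d3⟩ := fresh_iff (hfr (l1, l1) (by simp))
  obtain ⟨f1, f2, f3⟩ := fresh_iff (hfr (l2, l2) (by simp))
  obtain ⟨g1, g2, g3⟩ := fresh_iff (hfr (l3, l3) (by simp))
  have hew1 : e ≠ w1 := fun he => a1 (he ▸ heu'.1)
  have hew2 : e ≠ w2 := fun he => b1 (he ▸ heu'.1)
  have hsw1 : s ≠ w1 := fun he => a1 (he ▸ hsS)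
  have hsw2 : s ≠ w2 := fun he => b1 (he ▸ hsS)
  set S1 := insert w1 S with hS1
  set S2 := insert w2 S1 with hS2
  have hmem2 : ∀ y, y ∈ S2 ↔ y = w2 ∨ y = w1 ∨ y ∈ S := by
    intro y; rw [hS2, hS1, Finset.mem_insert, Finset.mem_insert]
  have P1 : PS sc S1 T := hPS.ps.add_row a2
  have P2 : PS sc S2 T := P1.add_row b2
  have P3 : PS sc S2 (insert (e, l1) T) := by
    apply P2.cover
    · rw [hmem2]; exact Or.inr (Or.inr heu'.1)
    · exact heu'.2
    · rw [hmem2]; rintro (h | h | h)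
      · exact n5 h.symm
      · exact n2 h.symm
      · exact d1 h
    · exact d2
    · intro p hp; rw [c1]; exact a3 p hp
    · intro z hz; rw [c1] at hz
      rw [hmem2]; exact Or.inr (Or.inl (Prod.ext_iff.1 hz).1.symm)
  have P4 : PS sc S2 (insert (w1, l2) (insert (e, l1) T)) := by
    apply P3.cover
    · rw [hmem2]; exact Or.inr (Or.inl rfl)
    · intro p hp
      rcases Finset.mem_insert.1 hp with rfl | hp
      · exact hew1
      · intro he; exact a1 (he ▸ hPS.ps.row p hp)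
    · rw [hmem2]; rintro (h | h | h)
      · exact n6 h.symm
      · exact n3 h.symm
      · exact f1 h
    · intro p hp
      rcases Finset.mem_insert.1 hp with rfl | hp
      · exact n8
      · exact f2 p hp
    · intro p hp
      rw [c2]
      rcases Finset.mem_insert.1 hp with rfl | hp
      · show sc.col e l1 ≠ _
        rw [c1]; intro he; exact n1 (Prod.ext_iff.1 he).1
      · exact b3 p hp
    · intro z hz; rw [c2] at hz
      rw [hmem2]; exact Or.inl (Prod.ext_iff.1 hz).1.symm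
  have P5 : PS sc S2 (insert (w2, l3) (insert (w1, l2) (insert (e, l1) T))) := by
    apply P4.cover
    · rw [hmem2]; exact Or.inl rfl
    · intro p hp
      rcases Finset.mem_insert.1 hp with rfl | hp
      · exact n1
      · rcases Finset.mem_insert.1 hp with rfl | hp
        · exact hew2
        · intro he; exact b1 (he ▸ hPS.ps.row p hp)
    · rw [hmem2]; rintro (h | h | h)
      · exact n7 h.symm
      · exact n4 h.symm
      · exact g1 h
    · intro p hp
      rcases Finset.mem_insert.1 hp with rfl | hp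
      · exact n10
      · rcases Finset.mem_insert.1 hp with rfl | hp
        · exact n9
        · exact g2 p hp
    · intro p hp
      rw [c3]
      rcases Finset.mem_insert.1 hp with rfl | hp
      · show sc.col w1 l2 ≠ _
        rw [c2]; intro he; exact hsw2 (Prod.ext_iff.1 he).1.symm
      · rcases Finset.mem_insert.1 hp with rfl | hp
        · show sc.col e l1 ≠ _
          rw [c1]; intro he; exact hsw1 (Prod.ext_iff.1 he).1.symm
        · exact hs p hp
    · intro z hz; rw [c3] at hz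
      have hz' : s = z := (Prod.ext_iff.1 hz).1
      rw [hmem2, ← hz']; exact Or.inr (Or.inr hsS)
  refine ⟨S2, _, ⟨P5, ?_, ?_⟩, ?_, ?_, ?_⟩
  · intro y hy
    rcases (hmem2 y).1 hy with rfl | rfl | hy
    · exact hw2
    · exact hw1
    · exact hPS.vg hy
  · intro p hp
    rcases Finset.mem_insert.1 hp with rfl | hp
    · exact ⟨s, c3⟩
    · rcases Finset.mem_insert.1 hp with rfl | hp
      · exact ⟨w2, c2⟩
      · rcases Finset.mem_insert.1 hp with rfl | hp
        · exact ⟨w1, c1⟩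
        · exact hPS.st p hp
  · rw [hS2, Finset.card_insert_of_notMem, hS1, Finset.card_insert_of_notMem a1]
    rw [hS1, Finset.mem_insert]
    rintro (h | h)
    · exact n1 h.symm
    · exact b1 h
  · have e1 : unc S2 (insert (w2, l3) (insert (w1, l2) (insert (e, l1) T)))
        = (unc S T).erase e := by
      rw [unc_cover, unc_cover, unc_cover, hS2,
        unc_add_row P1.row (by
          rw [hS1, Finset.mem_insert]
          rintro (h | h)
          · exact n1 h.symm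
          · exact b1 h), hS1, unc_add_row hPS.ps.row a1]
      have hw1u : w1 ∉ unc S T := fun hh => a1 (mem_unc.1 hh).1
      have hw2u : w2 ∉ unc S T := fun hh => b1 (mem_unc.1 hh).1
      ext y
      simp only [Finset.mem_erase, Finset.mem_insert]
      constructor
      · rintro ⟨h1, h2, h3, h4 | h4 | h4⟩
        · exact absurd h4 h1
        · exact absurd h4 h2
        · exact ⟨h3, h4⟩
      · rintro ⟨h3, h4⟩
        refine ⟨?_, ?_, h3, Or.inr (Or.inr h4)⟩
        · rintro rfl; exact hw2u h4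
        · rintro rfl; exact hw1u h4
    rw [e1, Finset.card_erase_of_mem heu]
    have : 0 < (unc S T).card := Finset.card_pos.2 ⟨e, heu⟩
    omega
  · have o1 := occW_cover sc χ S2 (insert (w1, l2) (insert (e, l1) T)) w2 l3
    have o2 := occW_cover sc χ S2 (insert (e, l1) T) w1 l2
    have o3 := occW_cover sc χ S2 T e l1
    have o4 : occW sc χ S2 T ≤ occW sc χ S1 T + 1 := occW_add_row sc χ S1 T w2
    have o5 : occW sc χ S1 T ≤ occW sc χ S T + 1 := occW_add_row sc χ S T w1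
    omega

lemma ext2 (hF : Fam2 sc χ Vg x) {S : Finset V} {T : Finset (V × V)}
    (hPS : PS2 sc Vg S T) (hu : (unc S T).Nonempty) (hx : occW sc χ S T < x) :
    ∃ S' T', PS2 sc Vg S' T' ∧ S'.card = S.card + 1 ∧ (unc S' T').card = (unc S T).card ∧
      occW sc χ S' T' ≤ occW sc χ S T + 3 := by
  obtain ⟨e, heu⟩ := hu
  have heu' := mem_unc.1 heu
  obtain ⟨G, ⟨w1, w2, l1, l2, l3, hw1, hw2, n1, n2, n3, n4, n5, n6, n7, n8, n9, n10, c1, c2, c3,
    hG⟩, hfr⟩ := get2 hF hx (hPS.vg heu'.1) (hPS.vg heu'.1)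
  subst hG
  obtain ⟨a1, a2, a3⟩ := fresh_iff (hfr (w1, w1) (by simp))
  obtain ⟨d1, d2, d3⟩ := fresh_iff (hfr (l1, l1) (by simp))
  have hew1 : e ≠ w1 := fun he => a1 (he ▸ heu'.1)
  have P1 : PS sc (insert w1 S) T := hPS.ps.add_row a2
  have P3 : PS sc (insert w1 S) (insert (e, l1) T) := by
    apply P1.cover
    · exact Finset.mem_insert_of_mem heu'.1
    · exact heu'.2
    · rw [Finset.mem_insert]; rintro (h | h)
      · exact n2 h.symm
      · exact d1 h
    · exact d2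
    · intro p hp; rw [c1]; exact a3 p hp
    · intro z hz; rw [c1] at hz
      have hz' : w1 = z := (Prod.ext_iff.1 hz).1
      rw [← hz']; exact Finset.mem_insert_self _ _
  refine ⟨insert w1 S, insert (e, l1) T, ⟨P3, ?_, ?_⟩, ?_, ?_, ?_⟩
  · intro y hy
    rcases Finset.mem_insert.1 hy with rfl | hy
    · exact hw1
    · exact hPS.vg hy
  · intro p hp
    rcases Finset.mem_insert.1 hp with rfl | hp
    · exact ⟨w1, c1⟩
    · exact hPS.st p hp
  · rw [Finset.card_insert_of_notMem a1]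
  · rw [unc_cover, unc_add_row hPS.ps.row a1]
    rw [Finset.card_erase_of_mem (Finset.mem_insert_of_mem heu), Finset.card_insert_of_notMem]
    · omega
    · exact fun hh => a1 (mem_unc.1 hh).1
  · have o3 := occW_cover sc χ (insert w1 S) T e l1
    have o5 := occW_add_row sc χ S T w1
    omega

lemma add2 (hF : Fam2 sc χ Vg x) {S : Finset V} {T : Finset (V × V)}
    (hPS : PS2 sc Vg S T) {v0 : V} (hv0 : v0 ∈ Vg) (hx : occW sc χ S T < x) :
    ∃ S' T', PS2 sc Vg S' T' ∧ S'.card = S.card + 1 ∧ (unc S' T').card = (unc S T).card + 1 ∧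
      occW sc χ S' T' ≤ occW sc χ S T + 1 := by
  obtain ⟨G, ⟨w1, w2, l1, l2, l3, hw1, hw2, n1, n2, n3, n4, n5, n6, n7, n8, n9, n10, c1, c2, c3,
    hG⟩, hfr⟩ := get2 hF hx hv0 hv0
  subst hG
  obtain ⟨a1, a2, a3⟩ := fresh_iff (hfr (w1, w1) (by simp))
  refine ⟨insert w1 S, T, ⟨hPS.ps.add_row a2, ?_, hPS.st⟩, ?_, ?_, occW_add_row sc χ S T w1⟩
  · intro y hy
    rcases Finset.mem_insert.1 hy with rfl | hy
    · exact hw1
    · exact hPS.vg hy
  · rw [Finset.card_insert_of_notMem a1]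
  · rw [unc_add_row hPS.ps.row a1, Finset.card_insert_of_notMem]
    exact fun hh => a1 (mem_unc.1 hh).1

lemma ext2_iter (hF : Fam2 sc χ Vg x) : ∀ (r : ℕ) (S : Finset V) (T : Finset (V × V)),
    PS2 sc Vg S T → (unc S T).Nonempty → occW sc χ S T + 3 * r ≤ x →
    ∃ S' T', PS2 sc Vg S' T' ∧ S'.card = S.card + r ∧ (unc S' T').card = (unc S T).card ∧
      occW sc χ S' T' ≤ occW sc χ S T + 3 * r := by
  intro r
  induction r with
  | zero => intro S T h1 _ _; exact ⟨S, T, h1, rfl, rfl, le_rfl⟩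
  | succ r ih =>
    intro S T h1 h2 h3
    obtain ⟨S', T', p1, p2, p3, p4⟩ := ext2 hF h1 h2 (by omega)
    have hne : (unc S' T').Nonempty := by
      rw [← Finset.card_pos, p3]; exact Finset.card_pos.2 h2
    obtain ⟨S'', T'', q1, q2, q3, q4⟩ := ih S' T' p1 hne (by omega)
    exact ⟨S'', T'', q1, by omega, by omega, by omega⟩

lemma close2_iter (hF : Fam2 sc χ Vg x) : ∀ (u : ℕ) (S : Finset V) (T : Finset (V × V)),
    PS2 sc Vg S T → (unc S T).card = u → occW sc χ S T + 8 * u ≤ x →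
    ∃ S' T', PS2 sc Vg S' T' ∧ S'.card = S.card + 2 * u ∧ unc S' T' = ∅ := by
  intro u
  induction u with
  | zero =>
    intro S T h1 h2 _
    exact ⟨S, T, h1, rfl, Finset.card_eq_zero.1 h2⟩
  | succ u ih =>
    intro S T h1 h2 h3
    have hne : (unc S T).Nonempty := by rw [← Finset.card_pos]; omega
    obtain ⟨S', T', p1, p2, p3, p4⟩ := close2 hF h1 hne (by omega)
    obtain ⟨S'', T'', q1, q2, q3⟩ := ih S' T' p1 (by omega) (by omega)
    exact ⟨S'', T'', q1, by omega, q3⟩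

theorem asm2 (hF : Fam2 sc χ Vg x) {v0 : V} (hv0 : v0 ∈ Vg) {S : Finset V}
    {T : Finset (V × V)} (hPS : PS2 sc Vg S T) (t : ℕ)
    (ht : S.card + 2 * (unc S T).card + 3 ≤ t)
    (hx : occW sc χ S T + 3 * (t - S.card) + 8 * ((unc S T).card + 1) + 1 ≤ x) : Done sc t := by
  obtain ⟨S1, T1, p1, p2, p3, p4⟩ := add2 hF hPS hv0 (by omega)
  have hne : (unc S1 T1).Nonempty := by rw [← Finset.card_pos]; omega
  set r := t - (S.card + 2 * (unc S T).card + 3) with hr
  obtain ⟨S2, T2, q1, q2, q3, q4⟩ := ext2_iter hF r S1 T1 p1 hne (by omega)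
  obtain ⟨S3, T3, r1, r2, r3⟩ := close2_iter hF ((unc S T).card + 1) S2 T2 q1 (by omega)
    (by omega)
  exact ⟨S3, T3, r1.ps, by omega, r3⟩

end two

/-! ### gadgets with colours absent at the centre -/

def IsG1 (sc : SC V) (e : V) (G : Finset (V × V)) : Prop :=
  (∃ l, (∀ z, sc.col e l ≠ (z, z)) ∧ G = {(l, l), sc.col e l}) ∨
  (∃ w l1 l2, w ≠ l1 ∧ w ≠ l2 ∧ l1 ≠ l2 ∧ sc.col e l1 = (w, w) ∧ (∀ z, sc.col w l2 ≠ (z, z)) ∧
    G = {(w, w), (l1, l1), (l2, l2), sc.col w l2})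

def IsU (sc : SC V) (G : Finset (V × V)) : Prop :=
  ∃ w l, w ≠ l ∧ (∀ z, sc.col w l ≠ (z, z)) ∧ G = {(w, w), (l, l), sc.col w l}

section one
variable {h : ℕ} {sc : SC V} {χ : V × V → ZMod (2 * h + 1)} {x : ℕ}

def Fam1 (sc : SC V) (χ : V × V → ZMod (2 * h + 1)) (x : ℕ) : Prop :=
  (∀ e, ∃ 𝒢 : Finset (Finset (V × V)),
    (𝒢 : Set (Finset (V × V))).PairwiseDisjoint id ∧ (∀ G ∈ 𝒢, IsG1 sc e G) ∧
    x ≤ numW 𝒢 χ) ∧
  (∃ 𝒢 : Finset (Finset (V × V)),
    (𝒢 : Set (Finset (V × V))).PairwiseDisjoint id ∧ (∀ G ∈ 𝒢, IsU sc G) ∧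
    x ≤ numW 𝒢 χ)

omit [Fintype V] in
lemma fresh_col {sc : SC V} {S : Finset V} {T : Finset (V × V)} {y : V × V}
    (h : y ∉ Occ sc S T) : ∀ p ∈ T, sc.col p.1 p.2 ≠ y := by
  rw [mem_Occ] at h
  push Not at h
  exact h.2.2

lemma close1 (hF : Fam1 sc χ x) {S : Finset V} {T : Finset (V × V)}
    (hPS : PS sc S T) (hu : (unc S T).Nonempty) (hx : occW sc χ S T < x) :
    ∃ S' T', PS sc S' T' ∧ S.card ≤ S'.card ∧ S'.card ≤ S.card + 1 ∧
      (unc S' T').card + 1 = (unc S T).card ∧ occW sc χ S' T' ≤ occW sc χ S T + 5 := by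
  obtain ⟨e, heu⟩ := hu
  have heu' := mem_unc.1 heu
  have hpos : 0 < (unc S T).card := Finset.card_pos.2 ⟨e, heu⟩
  obtain ⟨𝒢, h1, h2, h3⟩ := hF.1 e
  obtain ⟨G, hG, _, hfr⟩ := exists_fresh χ 𝒢 h1 (Occ sc S T) (lt_of_lt_of_le hx h3)
  rcases h2 G hG with ⟨l, hl, rfl⟩ | ⟨w, l1, l2, n1, n2, n3, c1, c2, rfl⟩
  · obtain ⟨a1, a2, a3⟩ := fresh_iff (hfr (l, l) (by simp))
    have a4 := fresh_col (hfr (sc.col e l) (by simp))
    refine ⟨S, insert (e, l) T, ?_, le_rfl, Nat.le_succ _, ?_, ?_⟩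
    · exact hPS.cover heu'.1 heu'.2 a1 a2 a4 (fun z hz => absurd hz (hl z))
    · rw [unc_cover, Finset.card_erase_of_mem heu]; omega
    · have := occW_cover sc χ S T e l
      omega
  · obtain ⟨a1, a2, a3⟩ := fresh_iff (hfr (w, w) (by simp))
    obtain ⟨b1, b2, b3⟩ := fresh_iff (hfr (l1, l1) (by simp))
    obtain ⟨d1, d2, d3⟩ := fresh_iff (hfr (l2, l2) (by simp))
    have a4 := fresh_col (hfr (sc.col w l2) (by simp))
    have hew : e ≠ w := fun he => a1 (he ▸ heu'.1)
    have P1 : PS sc (insert w S) T := hPS.add_row a2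
    have P2 : PS sc (insert w S) (insert (e, l1) T) := by
      apply P1.cover
      · exact Finset.mem_insert_of_mem heu'.1
      · exact heu'.2
      · rw [Finset.mem_insert]; rintro (h | h)
        · exact n1 h.symm
        · exact b1 h
      · exact b2
      · intro p hp; rw [c1]; exact a3 p hp
      · intro z hz; rw [c1] at hz
        have hz' : w = z := (Prod.ext_iff.1 hz).1
        rw [← hz']; exact Finset.mem_insert_self _ _
    have P3 : PS sc (insert w S) (insert (w, l2) (insert (e, l1) T)) := by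
      apply P2.cover
      · exact Finset.mem_insert_self _ _
      · intro p hp
        rcases Finset.mem_insert.1 hp with rfl | hp
        · exact hew
        · intro he; exact a1 (he ▸ hPS.row p hp)
      · rw [Finset.mem_insert]; rintro (h | h)
        · exact n2 h.symm
        · exact d1 h
      · intro p hp
        rcases Finset.mem_insert.1 hp with rfl | hp
        · exact n3
        · exact d2 p hp
      · intro p hp
        rcases Finset.mem_insert.1 hp with rfl | hp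
        · show sc.col e l1 ≠ _
          rw [c1]; exact fun he => c2 w he.symm
        · exact a4 p hp
      · intro z hz; exact absurd hz (c2 z)
    refine ⟨insert w S, _, P3, ?_, ?_, ?_, ?_⟩
    · rw [Finset.card_insert_of_notMem a1]; omega
    · rw [Finset.card_insert_of_notMem a1]
    · have hwu : w ∉ unc S T := fun hh => a1 (mem_unc.1 hh).1
      have e1 : unc (insert w S) (insert (w, l2) (insert (e, l1) T)) = (unc S T).erase e := by
        rw [unc_cover, unc_cover, unc_add_row hPS.row a1]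
        ext y
        simp only [Finset.mem_erase, Finset.mem_insert]
        constructor
        · rintro ⟨h1, h2, h4 | h4⟩
          · exact absurd h4 h1
          · exact ⟨h2, h4⟩
        · rintro ⟨h3, h4⟩
          refine ⟨?_, h3, Or.inr h4⟩
          rintro rfl; exact hwu h4
      rw [e1, Finset.card_erase_of_mem heu]; omega
    · have o2 := occW_cover sc χ (insert w S) (insert (e, l1) T) w l2
      have o3 := occW_cover sc χ (insert w S) T e l1
      have o5 := occW_add_row sc χ S T w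
      omega

lemma unit1 (hF : Fam1 sc χ x) {S : Finset V} {T : Finset (V × V)}
    (hPS : PS sc S T) (hx : occW sc χ S T < x) :
    ∃ S' T', PS sc S' T' ∧ S'.card = S.card + 1 ∧
      (unc S' T').card = (unc S T).card ∧ occW sc χ S' T' ≤ occW sc χ S T + 3 := by
  obtain ⟨𝒢, h1, h2, h3⟩ := hF.2
  obtain ⟨G, hG, _, hfr⟩ := exists_fresh χ 𝒢 h1 (Occ sc S T) (lt_of_lt_of_le hx h3)
  obtain ⟨w, l, n1, c1, rfl⟩ := h2 G hG
  obtain ⟨a1, a2, a3⟩ := fresh_iff (hfr (w, w) (by simp))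
  obtain ⟨b1, b2, b3⟩ := fresh_iff (hfr (l, l) (by simp))
  have a4 := fresh_col (hfr (sc.col w l) (by simp))
  have P1 : PS sc (insert w S) T := hPS.add_row a2
  have P2 : PS sc (insert w S) (insert (w, l) T) := by
    apply P1.cover
    · exact Finset.mem_insert_self _ _
    · intro p hp he; exact a1 (he ▸ hPS.row p hp)
    · rw [Finset.mem_insert]; rintro (h | h)
      · exact n1 h.symm
      · exact b1 h
    · exact b2
    · exact a4
    · intro z hz; exact absurd hz (c1 z)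
  refine ⟨insert w S, _, P2, ?_, ?_, ?_⟩
  · rw [Finset.card_insert_of_notMem a1]
  · have hwu : w ∉ unc S T := fun hh => a1 (mem_unc.1 hh).1
    rw [unc_cover, unc_add_row hPS.row a1, Finset.erase_insert hwu]
  · have o3 := occW_cover sc χ (insert w S) T w l
    have o5 := occW_add_row sc χ S T w
    omega

lemma close1_iter (hF : Fam1 sc χ x) : ∀ (u : ℕ) (S : Finset V) (T : Finset (V × V)),
    PS sc S T → (unc S T).card = u → occW sc χ S T + 5 * u ≤ x →
    ∃ S' T', PS sc S' T' ∧ S.card ≤ S'.card ∧ S'.card ≤ S.card + u ∧ unc S' T' = ∅ ∧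
      occW sc χ S' T' ≤ occW sc χ S T + 5 * u := by
  intro u
  induction u with
  | zero =>
    intro S T h1 h2 _
    exact ⟨S, T, h1, le_rfl, le_rfl, Finset.card_eq_zero.1 h2, le_rfl⟩
  | succ u ih =>
    intro S T h1 h2 h3
    have hne : (unc S T).Nonempty := by rw [← Finset.card_pos]; omega
    obtain ⟨S', T', p1, p2, p2', p3, p4⟩ := close1 hF h1 hne (by omega)
    obtain ⟨S'', T'', q1, q2, q2', q3, q4⟩ := ih S' T' p1 (by omega) (by omega)
    exact ⟨S'', T'', q1, by omega, by omega, q3, by omega⟩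

lemma unit1_iter (hF : Fam1 sc χ x) : ∀ (r : ℕ) (S : Finset V) (T : Finset (V × V)),
    PS sc S T → unc S T = ∅ → occW sc χ S T + 3 * r ≤ x →
    ∃ S' T', PS sc S' T' ∧ S'.card = S.card + r ∧ unc S' T' = ∅ := by
  intro r
  induction r with
  | zero => intro S T h1 h2 _; exact ⟨S, T, h1, rfl, h2⟩
  | succ r ih =>
    intro S T h1 h2 h3
    obtain ⟨S', T', p1, p2, p3, p4⟩ := unit1 hF h1 (by omega)
    have he : unc S' T' = ∅ := by
      rw [← Finset.card_eq_zero, p3, h2]; rfl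
    obtain ⟨S'', T'', q1, q2, q3⟩ := ih S' T' p1 he (by omega)
    exact ⟨S'', T'', q1, by omega, q3⟩

theorem asm1 (hF : Fam1 sc χ x) {S : Finset V}
    {T : Finset (V × V)} (hPS : PS sc S T) (t : ℕ)
    (ht : S.card + (unc S T).card ≤ t)
    (hx : occW sc χ S T + 5 * (unc S T).card + 3 * (t - S.card) ≤ x) : Done sc t := by
  obtain ⟨S1, T1, p1, p2, p3, p4, p5⟩ := close1_iter hF (unc S T).card S T hPS rfl (by omega)
  obtain ⟨S2, T2, q1, q2, q3⟩ := unit1_iter hF (t - S1.card) S1 T1 p1 p4 (by omega)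
  exact ⟨S2, T2, q1, by omega, q3⟩

end one

end Spider
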