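import Mathlib

namespace Spider
open Finset

variable {I : Type*} [Fintype I] [DecidableEq I] {K : ℕ} [NeZero K]

/-- `F` does not depend on coordinate `i`. -/
def Indep (F : (I → ZMod K) → ℝ) (i : I) : Prop :=
  ∀ (χ : I → ZMod K) (j : ZMod K), F (Function.update χ i j) = F χ

lemma sum_mul_indep (h : ZMod K → ℝ) (F : (I → ZMod K) → ℝ) (i : I) (hF : Indep F i) :
    (K : ℝ) * ∑ χ : I → ZMod K, h (χ i) * F χ = (∑ j, h j) * ∑ χ, F χ := by
  have key : ∀ j : ZMod K, ∑ χ : I → ZMod K, h (χ i + j) * F χ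
      = ∑ χ : I → ZMod K, h (χ i) * F χ := by
    intro j
    rw [← Equiv.sum_comp (Equiv.addRight (Pi.single i j : I → ZMod K)) (fun χ => h (χ i) * F χ)]
    refine Finset.sum_congr rfl fun χ _ => ?_
    have h1 : (Equiv.addRight (Pi.single i j : I → ZMod K)) χ = Function.update χ i (χ i + j) := by
      funext x
      by_cases hx : x = i
      · subst hx; simp
      · simp [Function.update_of_ne hx, Pi.single_eq_of_ne hx]
    rw [h1, hF]
    simp
  have h2 : ∑ j : ZMod K, ∑ χ : I → ZMod K, h (χ i + j) * F χ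
      = (K : ℝ) * ∑ χ : I → ZMod K, h (χ i) * F χ := by
    rw [Finset.sum_congr rfl fun j _ => key j]
    simp [ZMod.card]
  rw [← h2, Finset.sum_comm]
  rw [Finset.mul_sum]
  refine Finset.sum_congr rfl fun χ _ => ?_
  rw [← Finset.sum_mul]
  congr 1
  exact Equiv.sum_comp (Equiv.addLeft (χ i)) h

lemma sum_zero_mul_indep (g : ZMod K → ℝ) (hg : ∑ j, g j = 0) (F : (I → ZMod K) → ℝ) (i : I)
    (hF : Indep F i) : ∑ χ : I → ZMod K, g (χ i) * F χ = 0 := by
  have := sum_mul_indep g F i hF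
  rw [hg, zero_mul] at this
  have hK : (K : ℝ) ≠ 0 := by exact_mod_cast NeZero.ne K
  rcases mul_eq_zero.1 this with h | h
  · exact absurd h hK
  · exact h

lemma four_zero (g : ZMod K → ℝ) (hg : ∑ j, g j = 0) (i₁ i₂ i₃ i₄ : I)
    (h2 : i₂ ≠ i₁) (h3 : i₃ ≠ i₁) (h4 : i₄ ≠ i₁) :
    ∑ χ : I → ZMod K, g (χ i₁) * (g (χ i₂) * (g (χ i₃) * g (χ i₄))) = 0 := by
  refine sum_zero_mul_indep g hg (fun χ => g (χ i₂) * (g (χ i₃) * g (χ i₄))) i₁ ?_
  intro χ j
  simp [Function.update_of_ne h2, Function.update_of_ne h3, Function.update_of_ne h4]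

lemma two_zero (g : ZMod K → ℝ) (hg : ∑ j, g j = 0) (i₁ i₂ : I) (h2 : i₂ ≠ i₁) :
    ∑ χ : I → ZMod K, g (χ i₁) * g (χ i₂) = 0 := by
  refine sum_zero_mul_indep g hg (fun χ => g (χ i₂)) i₁ ?_
  intro χ j
  simp [Function.update_of_ne h2]

/-- second moment -/
lemma second_moment (g : ZMod K → ℝ) (hg : ∑ j, g j = 0) (hb : ∀ j, |g j| ≤ 1)
    {V : Type*} [Fintype V] [DecidableEq V] (ι : V → I) (hι : Function.Injective ι) :
    ∑ χ : I → ZMod K, (∑ z : V, g (χ (ι z))) ^ 2
      ≤ (Fintype.card V : ℝ) * Fintype.card (I → ZMod K) := by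
  have h1 : ∀ χ : I → ZMod K, (∑ z : V, g (χ (ι z))) ^ 2
      = ∑ z : V, ∑ w : V, g (χ (ι z)) * g (χ (ι w)) := by
    intro χ
    rw [sq, Finset.sum_mul_sum]
  rw [Finset.sum_congr rfl fun χ _ => h1 χ, Finset.sum_comm]
  have h2 : ∀ z : V, ∑ χ : I → ZMod K, ∑ w : V, g (χ (ι z)) * g (χ (ι w))
      ≤ Fintype.card (I → ZMod K) := by
    intro z
    rw [Finset.sum_comm]
    rw [Finset.sum_eq_single z]
    · calc ∑ χ : I → ZMod K, g (χ (ι z)) * g (χ (ι z)) ≤ ∑ χ : I → ZMod K, (1 : ℝ) := by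
            refine Finset.sum_le_sum fun χ _ => ?_
            have := hb (χ (ι z))
            rw [abs_le] at this
            nlinarith
        _ = Fintype.card (I → ZMod K) := by simp
    · intro w _ hw
      exact two_zero g hg _ _ (fun h => hw (hι h))
    · intro h; exact absurd (Finset.mem_univ z) h
  calc ∑ z : V, ∑ χ : I → ZMod K, ∑ w : V, g (χ (ι z)) * g (χ (ι w))
      ≤ ∑ z : V, (Fintype.card (I → ZMod K) : ℝ) := Finset.sum_le_sum fun z _ => h2 z
    _ = _ := by simp

/-- probability that a set of coordinates is all zero -/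
lemma sum_zeroset (G : Finset I) (F : (I → ZMod K) → ℝ) (hF : ∀ i ∈ G, Indep F i) :
    (K : ℝ) ^ G.card * ∑ χ : I → ZMod K, (if ∀ i ∈ G, χ i = 0 then F χ else 0) = ∑ χ, F χ := by
  classical
  induction G using Finset.induction_on with
  | empty => simp
  | insert i G hi ih =>
    have ih' := ih (fun j hj => hF j (Finset.mem_insert_of_mem hj))
    rw [Finset.card_insert_of_notMem hi, pow_succ, mul_assoc]
    have h1 : (K : ℝ) * ∑ χ : I → ZMod K, (if ∀ j ∈ insert i G, χ j = 0 then F χ else 0)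
        = ∑ χ : I → ZMod K, (if ∀ j ∈ G, χ j = 0 then F χ else 0) := by
      have h2 := sum_mul_indep (K := K) (fun j => if j = 0 then (1 : ℝ) else 0)
        (fun χ : I → ZMod K => if ∀ j ∈ G, χ j = 0 then F χ else 0) i ?_
      · simp only [Finset.sum_ite_eq', Finset.mem_univ, if_true, one_mul] at h2
        rw [← h2]
        congr 1
        refine Finset.sum_congr rfl fun χ _ => ?_
        by_cases h : χ i = 0
        · simp [h]
        · simp [h]
      · intro χ j
        have h3 : ∀ k ∈ G, Function.update χ i j k = χ k := by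
          intro k hk
          exact Function.update_of_ne (fun h => hi (by rw [← h]; exact hk)) _ _
        have h4 : (∀ k ∈ G, Function.update χ i j k = 0) ↔ (∀ k ∈ G, χ k = 0) := by
          constructor
          · intro h k hk; rw [← h3 k hk]; exact h k hk
          · intro h k hk; rw [h3 k hk]; exact h k hk
        simp only [h4, hF i (Finset.mem_insert_self _ _) χ j]
    rw [h1, ih']

/-- Number of members of the family that are contained in the zero class. -/
noncomputable def numW (𝒢 : Finset (Finset I)) (χ : I → ZMod K) : ℕ :=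
  (𝒢.filter fun G => ∀ i ∈ G, χ i = 0).card

lemma numW_indep (𝒢 : Finset (Finset I)) (i : I) (hi : ∀ G ∈ 𝒢, i ∉ G) :
    ∀ (χ : I → ZMod K) (j : ZMod K), numW 𝒢 (Function.update χ i j) = numW 𝒢 χ := by
  intro χ j
  unfold numW
  congr 1
  refine Finset.filter_congr fun G hG => ?_
  have h3 : ∀ k ∈ G, Function.update χ i j k = χ k := by
    intro k hk
    exact Function.update_of_ne (fun h => hi G hG (by rw [← h]; exact hk)) _ _
  constructor
  · intro h k hk; rw [← h3 k hk]; exact h k hk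
  · intro h k hk; rw [h3 k hk]; exact h k hk

lemma exp_moment (𝒢 : Finset (Finset I)) (hdis : (𝒢 : Set (Finset I)).PairwiseDisjoint id)
    (hcard : ∀ G ∈ 𝒢, G.card ≤ 5) :
    ∑ χ : I → ZMod K, ((1 : ℝ) / 2) ^ numW 𝒢 χ
      ≤ (1 - 1 / (2 * (K : ℝ) ^ 5)) ^ 𝒢.card * Fintype.card (I → ZMod K) := by
  classical
  have hK1 : (1 : ℝ) ≤ K := by exact_mod_cast NeZero.one_le
  have hKpos : (0 : ℝ) < K := by linarith
  have hK5 : (1 : ℝ) ≤ (K : ℝ) ^ 5 := one_le_pow₀ hK1
  have hq : (0 : ℝ) ≤ 1 - 1 / (2 * (K : ℝ) ^ 5) := by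
    have : 1 / (2 * (K : ℝ) ^ 5) ≤ 1 := by
      rw [div_le_one (by positivity)]; linarith
    linarith
  induction 𝒢 using Finset.induction_on with
  | empty => simp [numW]
  | insert G 𝒢 hG ih =>
    have ih' := ih (fun a ha b hb hab => hdis (by simp [ha]) (by simp [hb]) hab)
      (fun G' hG' => hcard G' (Finset.mem_insert_of_mem hG'))
    have hdG : ∀ G' ∈ 𝒢, Disjoint G G' := by
      intro G' hG'
      have := hdis (show G ∈ ((insert G 𝒢 : Finset (Finset I)) : Set (Finset I)) by simp)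
        (show G' ∈ ((insert G 𝒢 : Finset (Finset I)) : Set (Finset I)) by simp [hG'])
        (fun h => hG (h ▸ hG'))
      exact this
    set F : (I → ZMod K) → ℝ := fun χ => ((1 : ℝ) / 2) ^ numW 𝒢 χ with hFdef
    have hF : ∀ i ∈ G, Indep F i := by
      intro i hi χ j
      simp only [hFdef]
      rw [numW_indep 𝒢 i ?_ χ j]
      intro G' hG' hiG'
      exact (Finset.disjoint_left.1 (hdG G' hG')) hi hiG'
    have hz := sum_zeroset G F hF
    have h1 : ∀ χ : I → ZMod K, ((1 : ℝ) / 2) ^ numW (insert G 𝒢) χ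
        = F χ - (1 / 2) * (if ∀ i ∈ G, χ i = 0 then F χ else 0) := by
      intro χ
      by_cases h : ∀ i ∈ G, χ i = 0
      · have : numW (insert G 𝒢) χ = numW 𝒢 χ + 1 := by
          unfold numW
          rw [Finset.filter_insert, if_pos h, Finset.card_insert_of_notMem]
          simp [hG]
        rw [this, if_pos h, pow_succ]
        simp only [hFdef]
        ring
      · have : numW (insert G 𝒢) χ = numW 𝒢 χ := by
          unfold numW
          rw [Finset.filter_insert, if_neg h]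
        rw [this, if_neg h]
        simp [hFdef]
    rw [Finset.sum_congr rfl fun χ _ => h1 χ, Finset.sum_sub_distrib, ← Finset.mul_sum,
      Finset.card_insert_of_notMem hG]
    have hSpos : 0 ≤ ∑ χ : I → ZMod K, F χ :=
      Finset.sum_nonneg fun χ _ => by simp only [hFdef]; positivity
    have hz2 : ∑ χ : I → ZMod K, (if ∀ i ∈ G, χ i = 0 then F χ else 0)
        ≥ (1 / (K : ℝ) ^ 5) * ∑ χ : I → ZMod K, F χ := by
      have hp : (0 : ℝ) < (K : ℝ) ^ G.card := by positivity
      have e1 : ∑ χ : I → ZMod K, (if ∀ i ∈ G, χ i = 0 then F χ else 0)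
          = (1 / (K : ℝ) ^ G.card) * ∑ χ : I → ZMod K, F χ := by
        rw [← hz]; field_simp
      rw [e1]
      apply mul_le_mul_of_nonneg_right _ hSpos
      apply one_div_le_one_div_of_le hp
      exact pow_le_pow_right₀ hK1 (hcard G (Finset.mem_insert_self _ _))
    calc ∑ χ : I → ZMod K, F χ - 1 / 2 * ∑ χ : I → ZMod K, (if ∀ i ∈ G, χ i = 0 then F χ else 0)
        ≤ ∑ χ : I → ZMod K, F χ - 1 / 2 * ((1 / (K : ℝ) ^ 5) * ∑ χ : I → ZMod K, F χ) := by
          linarith
      _ = (1 - 1 / (2 * (K : ℝ) ^ 5)) * ∑ χ : I → ZMod K, F χ := by ring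
      _ ≤ (1 - 1 / (2 * (K : ℝ) ^ 5)) *
          ((1 - 1 / (2 * (K : ℝ) ^ 5)) ^ 𝒢.card * Fintype.card (I → ZMod K)) :=
          mul_le_mul_of_nonneg_left ih' hq
      _ = _ := by rw [pow_succ]; ring

end Spider
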