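import Mathlib

namespace Spider

/-- A colouring `c` of the edges (unordered pairs) of the complete graph on `Fin n` is proper:
two different edges with a common vertex have different colours. The set of colours `C` is
arbitrary. -/
def ProperColouring {n : ℕ} {C : Type} (c : Sym2 (Fin n) → C) : Prop :=
  ∀ x y z : Fin n, x ≠ y → x ≠ z → y ≠ z → c s(x, y) ≠ c s(x, z)

/-- The edges of the spanning spider with centre `v` and the `t` legs `v, a i, b i` of length two:
the centre `v` is joined to every other vertex except the ends `b i`, and `a i` is joined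
to `b i`. -/
def spiderEdges {n t : ℕ} (v : Fin n) (a b : Fin t → Fin n) : Set (Sym2 (Fin n)) :=
  {e | ∃ x, x ≠ v ∧ x ∉ Set.range b ∧ e = s(v, x)} ∪ {e | ∃ i, e = s(a i, b i)}

/-- The pair `(n,t)` is good: every proper edge-colouring of the complete graph on `n` vertices
contains a spanning rainbow `t`-spider. -/
def Good (n t : ℕ) : Prop :=
  ∀ (C : Type) (c : Sym2 (Fin n) → C), ProperColouring c →
    ∃ (v : Fin n) (a b : Fin t → Fin n), Function.Injective (Sum.elim a b) ∧
      (∀ i, a i ≠ v) ∧ (∀ i, b i ≠ v) ∧ Set.InjOn c (spiderEdges v a b)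

end Spider
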