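import Pool.Agent.Spider.Part

namespace Spider
open Finset

variable {V : Type} [Fintype V] [DecidableEq V]

/-- valid (rainbow) matchings between `Rw` and `A` with colours in `Λ` -/
structure VM (sc : SC V) (Rw A : Finset V) (Λ : Finset (V × V)) (T : Finset (V × V)) : Prop where
  mem : ∀ p ∈ T, p.1 ∈ Rw ∧ p.2 ∈ A ∧ sc.col p.1 p.2 ∈ Λ
  i1 : ∀ p ∈ T, ∀ p' ∈ T, p.1 = p'.1 → p = p'
  i2 : ∀ p ∈ T, ∀ p' ∈ T, p.2 = p'.2 → p = p'
  i3 : ∀ p ∈ T, ∀ p' ∈ T, sc.col p.1 p.2 = sc.col p'.1 p'.2 → p = p'

omit [Fintype V] [DecidableEq V] in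
lemma VM.subset {sc : SC V} {Rw A : Finset V} {Λ T T' : Finset (V × V)} (h : VM sc Rw A Λ T)
    (hs : T' ⊆ T) : VM sc Rw A Λ T' where
  mem := fun p hp => h.mem p (hs hp)
  i1 := fun p hp p' hp' => h.i1 p (hs hp) p' (hs hp')
  i2 := fun p hp p' hp' => h.i2 p (hs hp) p' (hs hp')
  i3 := fun p hp p' hp' => h.i3 p (hs hp) p' (hs hp')

omit [Fintype V] in
lemma VM.insert {sc : SC V} {Rw A : Finset V} {Λ T : Finset (V × V)} (h : VM sc Rw A Λ T)
    {b a : V} (hb : b ∈ Rw) (ha : a ∈ A) (hy : sc.col b a ∈ Λ) (h1 : ∀ p ∈ T, p.1 ≠ b)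
    (h2 : ∀ p ∈ T, p.2 ≠ a) (h3 : ∀ p ∈ T, sc.col p.1 p.2 ≠ sc.col b a) :
    VM sc Rw A Λ (insert (b, a) T) where
  mem := by
    intro p hp
    rcases Finset.mem_insert.1 hp with rfl | hp
    · exact ⟨hb, ha, hy⟩
    · exact h.mem p hp
  i1 := by
    intro p hp p' hp' he
    rcases Finset.mem_insert.1 hp with rfl | hp <;> rcases Finset.mem_insert.1 hp' with rfl | hp'
    · rfl
    · exact absurd he.symm (h1 p' hp')
    · exact absurd he (h1 p hp)
    · exact h.i1 p hp p' hp' he
  i2 := by
    intro p hp p' hp' he
    rcases Finset.mem_insert.1 hp with rfl | hp <;> rcases Finset.mem_insert.1 hp' with rfl | hp'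
    · rfl
    · exact absurd he.symm (h2 p' hp')
    · exact absurd he (h2 p hp)
    · exact h.i2 p hp p' hp' he
  i3 := by
    intro p hp p' hp' he
    rcases Finset.mem_insert.1 hp with rfl | hp <;> rcases Finset.mem_insert.1 hp' with rfl | hp'
    · rfl
    · exact absurd he.symm (h3 p' hp')
    · exact absurd he (h3 p hp)
    · exact h.i3 p hp p' hp' he

/-- colours of a set of cells -/
def cols (sc : SC V) (T : Finset (V × V)) : Finset (V × V) := T.image fun p => sc.col p.1 p.2

omit [Fintype V] in
lemma mem_cols {sc : SC V} {T : Finset (V × V)} {y : V × V} :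
    y ∈ cols sc T ↔ ∃ p ∈ T, sc.col p.1 p.2 = y := by
  unfold cols; rw [Finset.mem_image]

omit [Fintype V] in
theorem exchange (sc : SC V) (Rw A : Finset V) (Λ T : Finset (V × V)) (hT : VM sc Rw A Λ T)
    (hmax : ∀ T', VM sc Rw A Λ T' → T'.card ≤ T.card) (β η q : ℕ)
    (growth : ∀ B ⊆ Rw, ∀ Kk ⊆ A, β ≤ B.card →
      Kk.card ≤ (cols sc (B ×ˢ Kk) ∩ Λ).card + η)
    (hq : q * β ≤ (Rw \ T.image Prod.fst).card) :
    (q + 1) * (A \ T.image Prod.snd).card ≤ A.card + q * η := by
  classical
  set A0 := A \ T.image Prod.snd with hA0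
  have main : ∀ i : ℕ, i ≤ q → ∃ R ⊆ Rw \ T.image Prod.fst, (q - i) * β ≤ R.card ∧
      ∃ Ki ⊆ A, A0 ⊆ Ki ∧ (i + 1) * A0.card ≤ Ki.card + i * η ∧
      ∀ a ∈ Ki, ∃ T', VM sc Rw A Λ T' ∧ T'.card = T.card ∧ cols sc T' = cols sc T ∧
        (∀ p ∈ T', p.2 ≠ a) ∧ (∀ p ∈ T', p.1 ∉ R) ∧ (∀ p ∈ T, p.2 ∉ Ki → p ∈ T') := by
    intro i
    induction i with
    | zero =>
      intro _
      refine ⟨Rw \ T.image Prod.fst, Finset.Subset.refl _, by simpa using hq, A0,
        Finset.sdiff_subset, Finset.Subset.refl _, by simp, ?_⟩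
      intro a ha
      refine ⟨T, hT, rfl, rfl, ?_, ?_, fun p hp _ => hp⟩
      · intro p hp he
        rw [hA0, Finset.mem_sdiff] at ha
        exact ha.2 (Finset.mem_image.2 ⟨p, hp, he⟩)
      · intro p hp hR
        rw [Finset.mem_sdiff] at hR
        exact hR.2 (Finset.mem_image.2 ⟨p, hp, rfl⟩)
    | succ i ih =>
      intro hi
      obtain ⟨R, hR, hRc, Ki, hKi, hA0K, hKc, hQ⟩ := ih (by omega)
      have hβ : β ≤ R.card := by
        refine le_trans ?_ hRc
        have : 1 ≤ q - i := by omega
        calc β = 1 * β := (one_mul β).symm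
          _ ≤ (q - i) * β := Nat.mul_le_mul_right β this
      obtain ⟨B, hB, hBc⟩ := Finset.exists_subset_card_eq hβ
      have hBRw : B ⊆ Rw := fun x hx => (Finset.mem_sdiff.1 (hR (hB hx))).1
      set Z := cols sc (B ×ˢ Ki) ∩ Λ with hZ
      have hgr : Ki.card ≤ Z.card + η := growth B hBRw Ki hKi (by omega)
      -- every colour in Z is used by T
      have hZT : ∀ y ∈ Z, y ∈ cols sc T := by
        intro y hy
        rw [hZ, Finset.mem_inter, mem_cols] at hy
        obtain ⟨⟨p, hp, hpy⟩, hyΛ⟩ := hy
        rw [Finset.mem_product] at hp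
        obtain ⟨T', hT', hc, hcols, hlab, hrow, _⟩ := hQ p.2 hp.2
        by_contra hcon
        have hins : VM sc Rw A Λ (insert (p.1, p.2) T') := by
          apply hT'.insert (hBRw hp.1) (hKi hp.2) (by rw [hpy]; exact hyΛ)
          · intro p' hp' he
            exact hrow p' hp' (by rw [he]; exact hB hp.1)
          · exact hlab
          · intro p' hp' he
            apply hcon
            rw [← hcols, mem_cols]
            exact ⟨p', hp', by rw [he, hpy]⟩
        have hnot : (p.1, p.2) ∉ T' := by
          intro hmem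
          exact hlab _ hmem rfl
        have := hmax _ hins
        rw [Finset.card_insert_of_notMem hnot] at this
        omega
      set L := (T.filter fun p => sc.col p.1 p.2 ∈ Z).image Prod.snd with hL
      have hLc : Z.card ≤ L.card := by
        have e1 : L.card = (T.filter fun p => sc.col p.1 p.2 ∈ Z).card := by
          rw [hL]
          apply Finset.card_image_of_injOn
          intro p hp p' hp' he
          exact hT.i2 p (Finset.mem_filter.1 hp).1 p' (Finset.mem_filter.1 hp').1 he
        rw [e1]
        have : Z ⊆ (T.filter fun p => sc.col p.1 p.2 ∈ Z).image (fun p => sc.col p.1 p.2) := by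
          intro y hy
          obtain ⟨p, hp, hpy⟩ := mem_cols.1 (hZT y hy)
          exact Finset.mem_image.2 ⟨p, Finset.mem_filter.2 ⟨hp, by rw [hpy]; exact hy⟩, hpy⟩
        exact (Finset.card_le_card this).trans Finset.card_image_le
      refine ⟨R \ B, fun x hx => hR (Finset.mem_sdiff.1 hx).1, ?_, Ki ∪ L, ?_, ?_, ?_, ?_⟩
      · rw [Finset.card_sdiff_of_subset hB, hBc]
        have : (q - i) * β = (q - (i + 1)) * β + β := by
          have : q - i = (q - (i + 1)) + 1 := by omega
          rw [this]; ring
        omega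
      · apply Finset.union_subset hKi
        intro a ha
        rw [hL, Finset.mem_image] at ha
        obtain ⟨p, hp, rfl⟩ := ha
        exact (hT.mem p (Finset.mem_filter.1 hp).1).2.1
      · exact hA0K.trans Finset.subset_union_left
      · have hdisj : Disjoint A0 L := by
          rw [Finset.disjoint_left]
          intro a ha hb
          rw [hA0, Finset.mem_sdiff] at ha
          rw [hL, Finset.mem_image] at hb
          obtain ⟨p, hp, he⟩ := hb
          exact ha.2 (Finset.mem_image.2 ⟨p, (Finset.mem_filter.1 hp).1, he⟩)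
        have hc1 : A0.card + L.card ≤ (Ki ∪ L).card := by
          rw [← Finset.card_union_of_disjoint hdisj]
          exact Finset.card_le_card (Finset.union_subset_union hA0K (Finset.Subset.refl _))
        calc (i + 1 + 1) * A0.card = (i + 1) * A0.card + A0.card := by ring
          _ ≤ (Ki.card + i * η) + A0.card := by omega
          _ ≤ (Z.card + η + i * η) + A0.card := by omega
          _ ≤ (L.card + η + i * η) + A0.card := by omega
          _ = (A0.card + L.card) + (i + 1) * η := by ring
          _ ≤ (Ki ∪ L).card + (i + 1) * η := by omega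
      · intro a'' ha''
        by_cases hk : a'' ∈ Ki
        · obtain ⟨T', h1, h2, h3, h4, h5, h6⟩ := hQ a'' hk
          refine ⟨T', h1, h2, h3, h4, fun p hp hmem => h5 p hp (Finset.mem_sdiff.1 hmem).1, ?_⟩
          intro p hp hnot
          exact h6 p hp (fun h => hnot (Finset.mem_union_left _ h))
        · have haL : a'' ∈ L := by
            rcases Finset.mem_union.1 ha'' with h | h
            · exact absurd h hk
            · exact h
          rw [hL, Finset.mem_image] at haL
          obtain ⟨p, hp, hpa⟩ := haL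
          rw [Finset.mem_filter] at hp
          obtain ⟨hpT, hpZ⟩ := hp
          have hpZ' := hpZ
          rw [hZ, Finset.mem_inter, mem_cols] at hpZ
          obtain ⟨⟨r, hr, hry⟩, hyΛ⟩ := hpZ
          rw [Finset.mem_product] at hr
          obtain ⟨T', hT', hc, hcols, hlab, hrow, hkeep⟩ := hQ r.2 hr.2
          have hpT' : p ∈ T' := hkeep p hpT (by rw [hpa]; exact hk)
          have her : VM sc Rw A Λ (T'.erase p) := hT'.subset (Finset.erase_subset _ _)
          have hne : r.2 ≠ a'' := fun h => hk (h ▸ hr.2)
          have hnotmem : (r.1, r.2) ∉ T'.erase p := by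
            intro hmem
            exact hlab _ (Finset.mem_of_mem_erase hmem) rfl
          refine ⟨insert (r.1, r.2) (T'.erase p), ?_, ?_, ?_, ?_, ?_, ?_⟩
          · apply her.insert (hBRw hr.1) (hKi hr.2) (by rw [hry]; exact hyΛ)
            · intro p' hp' he
              exact hrow p' (Finset.mem_of_mem_erase hp') (by rw [he]; exact hB hr.1)
            · intro p' hp'
              exact hlab p' (Finset.mem_of_mem_erase hp')
            · intro p' hp' he
              rw [hry] at he
              have := hT'.i3 p' (Finset.mem_of_mem_erase hp') p hpT' he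
              exact (Finset.mem_erase.1 hp').1 this
          · rw [Finset.card_insert_of_notMem hnotmem, Finset.card_erase_of_mem hpT', hc]
            have : 0 < T.card := Finset.card_pos.2 ⟨p, hpT⟩
            omega
          · rw [← hcols]
            ext y
            rw [mem_cols, mem_cols]
            constructor
            · rintro ⟨s, hs, hsy⟩
              rcases Finset.mem_insert.1 hs with rfl | hs
              · exact ⟨p, hpT', by rw [← hsy]; simp only; rw [hry]⟩
              · exact ⟨s, Finset.mem_of_mem_erase hs, hsy⟩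
            · rintro ⟨s, hs, hsy⟩
              by_cases hsp : s = p
              · subst hsp
                exact ⟨(r.1, r.2), Finset.mem_insert_self _ _, by
                  show sc.col r.1 r.2 = y
                  rw [hry]; exact hsy⟩
              · exact ⟨s, Finset.mem_insert_of_mem (Finset.mem_erase.2 ⟨hsp, hs⟩), hsy⟩
          · intro p' hp' he
            rcases Finset.mem_insert.1 hp' with rfl | hp'
            · exact hne he
            · have := hT'.i2 p' (Finset.mem_of_mem_erase hp') p hpT' (by rw [he, hpa])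
              exact (Finset.mem_erase.1 hp').1 this
          · intro p' hp' hmem
            rcases Finset.mem_insert.1 hp' with rfl | hp'
            · exact (Finset.mem_sdiff.1 hmem).2 hr.1
            · exact hrow p' (Finset.mem_of_mem_erase hp') (Finset.mem_sdiff.1 hmem).1
          · intro p' hp' hnot
            have h7 : p' ∈ T' := hkeep p' hp' (fun h => hnot (Finset.mem_union_left _ h))
            apply Finset.mem_insert_of_mem
            refine Finset.mem_erase.2 ⟨?_, h7⟩
            rintro rfl
            apply hnot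
            rw [hpa]; exact ha''
  obtain ⟨_, _, _, Ki, hKi, _, hKc, _⟩ := main q le_rfl
  have := Finset.card_le_card hKi
  omega

end Spider
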