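import Pool.Agent.Spider.Avg

namespace Spider
open Finset

variable {I : Type*} [Fintype I] [DecidableEq I] {K : ℕ} [NeZero K]
variable {V : Type*} [Fintype V] [DecidableEq V] {Y : Type*} [Fintype Y] [DecidableEq Y]

/-- the matrix entries -/
noncomputable def mEnt (κ : V → V → Y) (ι : V → V → I) (g : ZMod K → ℝ) (χ : I → ZMod K)
    (b : V) (y : Y) : ℝ :=
  ∑ p : V, if p ≠ b ∧ κ b p = y then g (χ (ι b p)) else 0

/-- Gram matrix of rows -/
noncomputable def gram (κ : V → V → Y) (ι : V → V → I) (g : ZMod K → ℝ) (χ : I → ZMod K)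
    (b b' : V) : ℝ :=
  ∑ y : Y, mEnt κ ι g χ b y * mEnt κ ι g χ b' y

noncomputable def Qf (κ : V → V → Y) (ι : V → V → I) (g : ZMod K → ℝ) (χ : I → ZMod K) : ℝ :=
  ∑ b : V, ∑ b' : V, (gram κ ι g χ b b') ^ 2

/-- pairs of entries in the same column -/
def Pr (κ : V → V → Y) (b b' : V) : Finset (V × V) :=
  univ.filter fun x => x.1 ≠ b ∧ x.2 ≠ b' ∧ κ b x.1 = κ b' x.2

omit [Fintype I] [DecidableEq I] [NeZero K] in
lemma gram_eq (κ : V → V → Y) (ι : V → V → I) (g : ZMod K → ℝ) (χ : I → ZMod K) (b b' : V) :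
    gram κ ι g χ b b' = ∑ x ∈ Pr κ b b', g (χ (ι b x.1)) * g (χ (ι b' x.2)) := by
  classical
  unfold gram mEnt Pr
  rw [Finset.sum_filter, Fintype.sum_prod_type]
  have h1 : ∀ y : Y, (∑ p : V, if p ≠ b ∧ κ b p = y then g (χ (ι b p)) else 0) *
      (∑ p : V, if p ≠ b' ∧ κ b' p = y then g (χ (ι b' p)) else 0)
      = ∑ p : V, ∑ q : V, (if p ≠ b ∧ κ b p = y then g (χ (ι b p)) else 0) *
        (if q ≠ b' ∧ κ b' q = y then g (χ (ι b' q)) else 0) := by
    intro y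
    rw [Finset.sum_mul_sum]
  rw [Finset.sum_congr rfl fun y _ => h1 y, Finset.sum_comm]
  refine Finset.sum_congr rfl fun p _ => ?_
  rw [Finset.sum_comm]
  refine Finset.sum_congr rfl fun q _ => ?_
  rw [Finset.sum_eq_single (κ b p)]
  · by_cases h1 : p ≠ b
    · by_cases h2 : q ≠ b' ∧ κ b' q = κ b p
      · rw [if_pos ⟨h1, rfl⟩, if_pos h2, if_pos ⟨h1, h2.1, h2.2.symm⟩]
      · rw [if_neg h2, mul_zero, if_neg (fun h => h2 ⟨h.2.1, h.2.2.symm⟩)]
    · rw [if_neg (fun h => h1 h.1), zero_mul, if_neg (fun h => h1 h.1)]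
  · intro y _ hy
    rw [if_neg (fun h => hy h.2.symm), zero_mul]
  · intro h; exact absurd (Finset.mem_univ _) h

structure Conf (κ : V → V → Y) (ι : V → V → I) : Prop where
  h1 : ∀ b p p', p ≠ b → p' ≠ b → κ b p = κ b p' → p = p'
  h2 : ∀ b p p', p ≠ b → p' ≠ b → ι b p = ι b p' → p = p'
  h3 : ∀ b b' p p', b ≠ b' → p ≠ b → p' ≠ b' → κ b p = κ b' p' → ι b p ≠ ι b' p'

omit [Fintype I] [DecidableEq I] in
lemma card_Pr_le {κ : V → V → Y} {ι : V → V → I} (hc : Conf κ ι) (b b' : V) :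
    (Pr κ b b').card ≤ Fintype.card V := by
  classical
  have : (Pr κ b b').card ≤ (univ : Finset V).card := by
    apply Finset.card_le_card_of_injOn Prod.fst (fun x _ => Finset.mem_coe.2 (Finset.mem_univ _))
    intro x hx y hy hxy
    simp only [Pr, Finset.coe_filter, Finset.mem_univ, true_and, Set.mem_ofPred_eq] at hx hy
    ext
    · exact hxy
    · apply hc.h1 b' x.2 y.2 hx.2.1 hy.2.1
      rw [← hx.2.2, ← hy.2.2, hxy]
  simpa using this

lemma gram_offdiag {κ : V → V → Y} {ι : V → V → I} (hc : Conf κ ι) (g : ZMod K → ℝ)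
    (hg : ∑ j, g j = 0) (hb : ∀ j, |g j| ≤ 1) (b b' : V) (hbb : b ≠ b') :
    ∑ χ : I → ZMod K, (gram κ ι g χ b b') ^ 2
      ≤ 2 * (Fintype.card V : ℝ) * Fintype.card (I → ZMod K) := by
  classical
  have e1 : ∀ χ : I → ZMod K, (gram κ ι g χ b b') ^ 2
      = ∑ x ∈ Pr κ b b', ∑ y ∈ Pr κ b b',
        g (χ (ι b x.1)) * (g (χ (ι b' x.2)) * (g (χ (ι b y.1)) * g (χ (ι b' y.2)))) := by
    intro χ
    rw [gram_eq, sq, Finset.sum_mul_sum]
    refine Finset.sum_congr rfl fun x _ => Finset.sum_congr rfl fun y _ => ?_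
    ring
  rw [Finset.sum_congr rfl fun χ _ => e1 χ, Finset.sum_comm]
  have e2 : ∀ x ∈ Pr κ b b', ∑ χ : I → ZMod K, ∑ y ∈ Pr κ b b',
        g (χ (ι b x.1)) * (g (χ (ι b' x.2)) * (g (χ (ι b y.1)) * g (χ (ι b' y.2))))
        ≤ 2 * (Fintype.card (I → ZMod K) : ℝ) := by
    intro x hx
    have hx' := hx
    simp only [Pr, Finset.mem_filter, Finset.mem_univ, true_and] at hx'
    rw [Finset.sum_comm]
    -- bad set
    set S := (Pr κ b b').filter (fun y => y = x ∨ ι b' y.2 = ι b x.1) with hS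
    have hSc : S.card ≤ 2 := by
      have : S ⊆ {x} ∪ (Pr κ b b').filter (fun y => ι b' y.2 = ι b x.1) := by
        intro y hy
        rw [hS, Finset.mem_filter] at hy
        rcases hy.2 with h | h
        · simp [h]
        · simp [hy.1, h]
      refine (Finset.card_le_card this).trans ((Finset.card_union_le _ _).trans ?_)
      have h2 : ((Pr κ b b').filter (fun y => ι b' y.2 = ι b x.1)).card ≤ 1 := by
        rw [Finset.card_le_one]
        intro y hy z hz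
        simp only [Pr, Finset.mem_filter, Finset.mem_univ, true_and] at hy hz
        have h22 : y.2 = z.2 := hc.h2 b' _ _ hy.1.2.1 hz.1.2.1 (by rw [hy.2, hz.2])
        have h11 : y.1 = z.1 := hc.h1 b _ _ hy.1.1 hz.1.1 (by rw [hy.1.2.2, hz.1.2.2, h22])
        exact Prod.ext h11 h22
      simp only [Finset.card_singleton]
      omega
    have e3 : ∑ y ∈ Pr κ b b', ∑ χ : I → ZMod K,
        g (χ (ι b x.1)) * (g (χ (ι b' x.2)) * (g (χ (ι b y.1)) * g (χ (ι b' y.2))))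
        = ∑ y ∈ S, ∑ χ : I → ZMod K,
        g (χ (ι b x.1)) * (g (χ (ι b' x.2)) * (g (χ (ι b y.1)) * g (χ (ι b' y.2)))) := by
      symm
      apply Finset.sum_subset (Finset.filter_subset _ _)
      intro y hy hyS
      have hy' := hy
      simp only [Pr, Finset.mem_filter, Finset.mem_univ, true_and] at hy'
      have hyS' : ¬ (y = x ∨ ι b' y.2 = ι b x.1) := fun h => hyS (Finset.mem_filter.2 ⟨hy, h⟩)
      push Not at hyS'
      apply four_zero g hg
      · exact (hc.h3 b b' x.1 x.2 hbb hx'.1 hx'.2.1 hx'.2.2).symm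
      · intro h
        have h11 : y.1 = x.1 := hc.h2 b _ _ hy'.1 hx'.1 h
        have h22 : y.2 = x.2 := hc.h1 b' _ _ hy'.2.1 hx'.2.1 (by
          rw [← hy'.2.2, ← hx'.2.2, h11])
        exact hyS'.1 (Prod.ext h11 h22)
      · exact hyS'.2
    rw [e3]
    calc ∑ y ∈ S, ∑ χ : I → ZMod K,
        g (χ (ι b x.1)) * (g (χ (ι b' x.2)) * (g (χ (ι b y.1)) * g (χ (ι b' y.2))))
        ≤ ∑ y ∈ S, ∑ χ : I → ZMod K, (1 : ℝ) := by
          refine Finset.sum_le_sum fun y _ => Finset.sum_le_sum fun χ _ => ?_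
          have a1 := hb (χ (ι b x.1))
          have a2 := hb (χ (ι b' x.2))
          have a3 := hb (χ (ι b y.1))
          have a4 := hb (χ (ι b' y.2))
          refine (le_abs_self _).trans ?_
          rw [abs_mul, abs_mul, abs_mul]
          have b34 : |g (χ (ι b y.1))| * |g (χ (ι b' y.2))| ≤ 1 :=
            mul_le_one₀ a3 (abs_nonneg _) a4
          have b234 : |g (χ (ι b' x.2))| * (|g (χ (ι b y.1))| * |g (χ (ι b' y.2))|) ≤ 1 :=
            mul_le_one₀ a2 (by positivity) b34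
          exact mul_le_one₀ a1 (by positivity) b234
      _ = (S.card : ℝ) * Fintype.card (I → ZMod K) := by simp
      _ ≤ 2 * (Fintype.card (I → ZMod K) : ℝ) := by
          apply mul_le_mul_of_nonneg_right _ (by positivity)
          exact_mod_cast hSc
  calc _ ≤ ∑ x ∈ Pr κ b b', 2 * (Fintype.card (I → ZMod K) : ℝ) := Finset.sum_le_sum e2
    _ = ((Pr κ b b').card : ℝ) * (2 * (Fintype.card (I → ZMod K) : ℝ)) := by simp
    _ ≤ (Fintype.card V : ℝ) * (2 * (Fintype.card (I → ZMod K) : ℝ)) := by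
        apply mul_le_mul_of_nonneg_right _ (by positivity)
        exact_mod_cast card_Pr_le hc b b'
    _ = _ := by ring

omit [Fintype I] [DecidableEq I] [NeZero K] in
lemma gram_diag {κ : V → V → Y} {ι : V → V → I} (hc : Conf κ ι) (g : ZMod K → ℝ)
    (hb : ∀ j, |g j| ≤ 1) (χ : I → ZMod K) (b b' : V) :
    (gram κ ι g χ b b') ^ 2 ≤ (Fintype.card V : ℝ) ^ 2 := by
  rw [sq_le_sq, abs_of_nonneg (by positivity : (0:ℝ) ≤ Fintype.card V)]
  rw [gram_eq]
  calc |∑ x ∈ Pr κ b b', g (χ (ι b x.1)) * g (χ (ι b' x.2))|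
      ≤ ∑ x ∈ Pr κ b b', |g (χ (ι b x.1)) * g (χ (ι b' x.2))| := Finset.abs_sum_le_sum_abs _ _
    _ ≤ ∑ x ∈ Pr κ b b', (1 : ℝ) := by
        refine Finset.sum_le_sum fun x _ => ?_
        rw [abs_mul]
        exact mul_le_one₀ (hb _) (abs_nonneg _) (hb _)
    _ = ((Pr κ b b').card : ℝ) := by simp
    _ ≤ _ := by exact_mod_cast card_Pr_le hc b b'

lemma sum_Qf {κ : V → V → Y} {ι : V → V → I} (hc : Conf κ ι) (g : ZMod K → ℝ)
    (hg : ∑ j, g j = 0) (hb : ∀ j, |g j| ≤ 1) :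
    ∑ χ : I → ZMod K, Qf κ ι g χ
      ≤ 3 * (Fintype.card V : ℝ) ^ 3 * Fintype.card (I → ZMod K) := by
  classical
  set N : ℝ := (Fintype.card V : ℝ) with hN
  set M : ℝ := (Fintype.card (I → ZMod K) : ℝ) with hM
  have hN0 : 0 ≤ N := by positivity
  have hM0 : 0 ≤ M := by positivity
  unfold Qf
  rw [Finset.sum_comm]
  have e1 : ∀ b : V, ∑ χ : I → ZMod K, ∑ b' : V, (gram κ ι g χ b b') ^ 2
      ≤ N * (2 * N * M) + N ^ 2 * M := by
    intro b
    rw [Finset.sum_comm]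
    have e2 : ∀ b' : V, ∑ χ : I → ZMod K, (gram κ ι g χ b b') ^ 2
        ≤ 2 * N * M + (if b' = b then N ^ 2 * M else 0) := by
      intro b'
      by_cases h : b' = b
      · rw [if_pos h]
        calc ∑ χ : I → ZMod K, (gram κ ι g χ b b') ^ 2 ≤ ∑ χ : I → ZMod K, N ^ 2 :=
              Finset.sum_le_sum fun χ _ => gram_diag hc g hb χ b b'
          _ = N ^ 2 * M := by simp [hM, mul_comm]
          _ ≤ _ := by have : 0 ≤ 2 * N * M := by positivity
                      linarith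
      · rw [if_neg h, add_zero]
        exact gram_offdiag hc g hg hb b b' (fun h' => h h'.symm)
    calc ∑ b' : V, ∑ χ : I → ZMod K, (gram κ ι g χ b b') ^ 2
        ≤ ∑ b' : V, (2 * N * M + (if b' = b then N ^ 2 * M else 0)) :=
          Finset.sum_le_sum fun b' _ => e2 b'
      _ = N * (2 * N * M) + N ^ 2 * M := by
          rw [Finset.sum_add_distrib]
          simp [hN]
  calc ∑ b : V, ∑ χ : I → ZMod K, ∑ b' : V, (gram κ ι g χ b b') ^ 2
      ≤ ∑ b : V, (N * (2 * N * M) + N ^ 2 * M) := Finset.sum_le_sum fun b _ => e1 b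
    _ = 3 * N ^ 3 * M := by
        rw [Finset.sum_const, Finset.card_univ, nsmul_eq_mul, ← hN]; ring

omit [Fintype I] [DecidableEq I] [NeZero K] in
/-- bilinear estimate -/
lemma bilinear (κ : V → V → Y) (ι : V → V → I) (g : ZMod K → ℝ) (χ : I → ZMod K)
    (B : Finset V) (Z : Finset Y) :
    (∑ b ∈ B, ∑ p : V, if p ≠ b ∧ κ b p ∈ Z then g (χ (ι b p)) else 0) ^ 4
      ≤ ((B.card : ℝ) * Z.card) ^ 2 * Qf κ ι g χ := by
  classical
  have e0 : ∑ b ∈ B, ∑ p : V, (if p ≠ b ∧ κ b p ∈ Z then g (χ (ι b p)) else 0)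
      = ∑ y ∈ Z, ∑ b ∈ B, mEnt κ ι g χ b y := by
    rw [Finset.sum_comm (s := Z)]
    refine Finset.sum_congr rfl fun b _ => ?_
    unfold mEnt
    rw [Finset.sum_comm (s := Z)]
    refine Finset.sum_congr rfl fun p _ => ?_
    by_cases h : p ≠ b
    · simp only [h, ne_eq, not_false_eq_true, true_and]
      rw [Finset.sum_ite_eq]
    · simp [h]
  rw [e0]
  have c1 : (∑ y ∈ Z, ∑ b ∈ B, mEnt κ ι g χ b y) ^ 2
      ≤ Z.card * ∑ y ∈ Z, (∑ b ∈ B, mEnt κ ι g χ b y) ^ 2 := sq_sum_le_card_mul_sum_sq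
  have c2 : ∑ y ∈ Z, (∑ b ∈ B, mEnt κ ι g χ b y) ^ 2
      ≤ ∑ b ∈ B, ∑ b' ∈ B, gram κ ι g χ b b' := by
    calc ∑ y ∈ Z, (∑ b ∈ B, mEnt κ ι g χ b y) ^ 2
        ≤ ∑ y : Y, (∑ b ∈ B, mEnt κ ι g χ b y) ^ 2 :=
          Finset.sum_le_sum_of_subset_of_nonneg (Finset.subset_univ _)
            (fun _ _ _ => sq_nonneg _)
      _ = ∑ y : Y, ∑ b ∈ B, ∑ b' ∈ B, mEnt κ ι g χ b y * mEnt κ ι g χ b' y := by
          refine Finset.sum_congr rfl fun y _ => ?_
          rw [sq, Finset.sum_mul_sum]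
      _ = _ := by
          rw [Finset.sum_comm]
          refine Finset.sum_congr rfl fun b _ => ?_
          rw [Finset.sum_comm]
          rfl
  have c3 : (∑ b ∈ B, ∑ b' ∈ B, gram κ ι g χ b b') ^ 2 ≤ (B.card : ℝ) ^ 2 * Qf κ ι g χ := by
    calc (∑ b ∈ B, ∑ b' ∈ B, gram κ ι g χ b b') ^ 2
        ≤ B.card * ∑ b ∈ B, (∑ b' ∈ B, gram κ ι g χ b b') ^ 2 := sq_sum_le_card_mul_sum_sq
      _ ≤ B.card * ∑ b ∈ B, (B.card * ∑ b' ∈ B, (gram κ ι g χ b b') ^ 2) := by
          apply mul_le_mul_of_nonneg_left _ (by positivity)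
          exact Finset.sum_le_sum fun b _ => sq_sum_le_card_mul_sum_sq
      _ = (B.card : ℝ) ^ 2 * ∑ b ∈ B, ∑ b' ∈ B, (gram κ ι g χ b b') ^ 2 := by
          rw [← Finset.mul_sum]; ring
      _ ≤ (B.card : ℝ) ^ 2 * Qf κ ι g χ := by
          apply mul_le_mul_of_nonneg_left _ (by positivity)
          unfold Qf
          calc ∑ b ∈ B, ∑ b' ∈ B, (gram κ ι g χ b b') ^ 2
              ≤ ∑ b ∈ B, ∑ b' : V, (gram κ ι g χ b b') ^ 2 :=
                Finset.sum_le_sum fun b _ =>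
                  Finset.sum_le_sum_of_subset_of_nonneg (Finset.subset_univ _)
                    (fun _ _ _ => sq_nonneg _)
            _ ≤ _ := Finset.sum_le_sum_of_subset_of_nonneg (Finset.subset_univ _)
                    (fun _ _ _ => Finset.sum_nonneg fun _ _ => sq_nonneg _)
  set X := ∑ y ∈ Z, ∑ b ∈ B, mEnt κ ι g χ b y with hX
  set D := ∑ b ∈ B, ∑ b' ∈ B, gram κ ι g χ b b' with hD
  have hXD : X ^ 2 ≤ Z.card * D := c1.trans (mul_le_mul_of_nonneg_left c2 (by positivity))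
  calc X ^ 4 = (X ^ 2) ^ 2 := by ring
    _ ≤ ((Z.card : ℝ) * D) ^ 2 := by
        apply pow_le_pow_left₀ (sq_nonneg X) hXD
    _ = (Z.card : ℝ) ^ 2 * D ^ 2 := by ring
    _ ≤ (Z.card : ℝ) ^ 2 * ((B.card : ℝ) ^ 2 * Qf κ ι g χ) :=
        mul_le_mul_of_nonneg_left c3 (by positivity)
    _ = _ := by ring

end Spider
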