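import Pool.Agent.Spider.Asm

namespace Spider
open Finset

/-- greedy disjoint subfamily -/
lemma exists_disjoint_family {τ I : Type} [DecidableEq τ] [DecidableEq I] (P : Finset τ)
    (G : τ → Finset I) (r D : ℕ) (hne : ∀ a ∈ P, (G a).Nonempty)
    (hr : ∀ a ∈ P, (G a).card ≤ r) (hD : ∀ i, (P.filter fun a => i ∈ G a).card ≤ D) :
    ∃ 𝒢 : Finset (Finset I), (𝒢 : Set (Finset I)).PairwiseDisjoint id ∧
      (∀ g ∈ 𝒢, ∃ a ∈ P, g = G a) ∧ P.card ≤ r * D * 𝒢.card := by
  classical
  set F : Finset (Finset τ) := P.powerset.filter fun Q =>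
    ∀ a ∈ Q, ∀ b ∈ Q, a ≠ b → Disjoint (G a) (G b) with hF
  have hFne : F.Nonempty := ⟨∅, by rw [hF, Finset.mem_filter]; simp⟩
  obtain ⟨Q, hQ, hmax⟩ := Finset.exists_max_image F Finset.card hFne
  rw [hF, Finset.mem_filter, Finset.mem_powerset] at hQ
  obtain ⟨hQP, hQd⟩ := hQ
  have hinj : Set.InjOn G (Q : Set τ) := by
    intro a ha b hb he
    by_contra hne'
    have hd := hQd a ha b hb hne'
    rw [← he, disjoint_self] at hd
    exact (hne a (hQP ha)).ne_empty hd
  refine ⟨Q.image G, ?_, ?_, ?_⟩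
  · intro g hg g' hg' hgg
    rw [Finset.mem_coe, Finset.mem_image] at hg hg'
    obtain ⟨a, ha, rfl⟩ := hg
    obtain ⟨b, hb, rfl⟩ := hg'
    exact hQd a ha b hb (fun h => hgg (by rw [h]))
  · intro g hg
    obtain ⟨a, ha, rfl⟩ := Finset.mem_image.1 hg
    exact ⟨a, hQP ha, rfl⟩
  · rw [Finset.card_image_of_injOn hinj]
    have hcov : P ⊆ (Q.biUnion G).biUnion fun i => P.filter fun a => i ∈ G a := by
      intro a ha
      rw [Finset.mem_biUnion]
      by_cases haQ : a ∈ Q
      · obtain ⟨i, hi⟩ := hne a ha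
        exact ⟨i, Finset.mem_biUnion.2 ⟨a, haQ, hi⟩, Finset.mem_filter.2 ⟨ha, hi⟩⟩
      · by_contra hcon
        push Not at hcon
        have hins : insert a Q ∈ F := by
          rw [hF, Finset.mem_filter, Finset.mem_powerset]
          refine ⟨Finset.insert_subset ha hQP, ?_⟩
          have hdis : ∀ b ∈ Q, Disjoint (G a) (G b) := by
            intro b hb
            rw [Finset.disjoint_left]
            intro i hi hi'
            exact hcon i (Finset.mem_biUnion.2 ⟨b, hb, hi'⟩) (Finset.mem_filter.2 ⟨ha, hi⟩)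
          intro b hb c hc hbc
          rcases Finset.mem_insert.1 hb with hb' | hb'
          · rcases Finset.mem_insert.1 hc with hc' | hc'
            · exact absurd (hb'.trans hc'.symm) hbc
            · rw [hb']; exact hdis c hc'
          · rcases Finset.mem_insert.1 hc with hc' | hc'
            · rw [hc']; exact (hdis b hb').symm
            · exact hQd b hb' c hc' hbc
        have := hmax _ hins
        rw [Finset.card_insert_of_notMem haQ] at this
        omega
    calc P.card ≤ _ := Finset.card_le_card hcov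
      _ ≤ ∑ i ∈ Q.biUnion G, (P.filter fun a => i ∈ G a).card := Finset.card_biUnion_le
      _ ≤ ∑ i ∈ Q.biUnion G, D := Finset.sum_le_sum fun i _ => hD i
      _ = (Q.biUnion G).card * D := by rw [Finset.sum_const, smul_eq_mul]
      _ ≤ (∑ a ∈ Q, (G a).card) * D := Nat.mul_le_mul_right D Finset.card_biUnion_le
      _ ≤ (∑ a ∈ Q, r) * D := Nat.mul_le_mul_right D
          (Finset.sum_le_sum fun a ha => hr a (hQP ha))
      _ = r * D * Q.card := by rw [Finset.sum_const, smul_eq_mul]; ring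

variable {V : Type} [Fintype V] [DecidableEq V]

lemma card_filter_prod (q : V → V → Prop) [∀ x y, Decidable (q x y)] :
    (univ.filter fun p : V × V => q p.1 p.2).card = ∑ x, (univ.filter fun y => q x y).card := by
  simp only [Finset.card_filter, Fintype.sum_prod_type]

lemma cardL (q : V → V → Prop) [∀ x y, Decidable (q x y)] (k : ℕ)
    (h : ∀ x, (univ.filter fun y => q x y).card ≤ k) :
    (univ.filter fun p : V × V => q p.1 p.2).card ≤ Fintype.card V * k := by
  rw [card_filter_prod]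
  calc ∑ x, (univ.filter fun y => q x y).card ≤ ∑ x : V, k := Finset.sum_le_sum fun x _ => h x
    _ = _ := by simp

lemma cardR (q : V → V → Prop) [∀ x y, Decidable (q x y)] (k : ℕ)
    (h : ∀ y, (univ.filter fun x => q x y).card ≤ k) :
    (univ.filter fun p : V × V => q p.1 p.2).card ≤ Fintype.card V * k := by
  have e : (univ.filter fun p : V × V => q p.1 p.2).card
      = (univ.filter fun p : V × V => q p.2 p.1).card := by
    apply Finset.card_nbij' Prod.swap Prod.swap
    · intro p hp; simpa using hp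
    · intro p hp; simpa using hp
    · intro p _; rfl
    · intro p _; rfl
  rw [e]
  exact cardL (fun x y => q y x) k h

/-- free edges at `x` -/
noncomputable def Fr (sc : SC V) (x : V) : Finset V :=
  open Classical in univ.filter fun a => a ≠ x ∧ ∀ z, sc.col x a ≠ (z, z)

/-- star colours missing at `x` -/
noncomputable def Ms (sc : SC V) (x : V) : Finset V :=
  open Classical in univ.filter fun z => z ≠ x ∧ ∀ l, l ≠ x → sc.col x l ≠ (z, z)

lemma mem_Fr {sc : SC V} {x a : V} : a ∈ Fr sc x ↔ a ≠ x ∧ ∀ z, sc.col x a ≠ (z, z) := by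
  classical
  unfold Fr; simp

lemma mem_Ms {sc : SC V} {x z : V} : z ∈ Ms sc x ↔ z ≠ x ∧ ∀ l, l ≠ x → sc.col x l ≠ (z, z) := by
  classical
  unfold Ms; simp

lemma inj_col (sc : SC V) {x a a' : V} (h : a ≠ x) (h' : a' ≠ x)
    (he : sc.col x a = sc.col x a') : a = a' := by
  by_contra hne
  exact sc.proper x a a' h.symm h'.symm hne he

lemma ne_star (sc : SC V) {x a z : V} (h : a ≠ x) (he : sc.col x a = (z, z)) : z ≠ x ∧ z ≠ a := by
  constructor
  · rintro rfl
    exact sc.star_ne z a h.symm he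
  · rintro rfl
    rw [sc.symm] at he
    exact sc.star_ne z x h he

lemma card_Ms_le (sc : SC V) (x : V) : (Ms sc x).card ≤ (Fr sc x).card := by
  classical
  set L := (univ : Finset V).erase x with hL
  set Ls := L.filter (fun a => ∃ z, sc.col x a = (z, z)) with hLs
  set NM := L.filter (fun z => ∃ l, l ≠ x ∧ sc.col x l = (z, z)) with hNM
  have h1 : Ls.card ≤ NM.card := by
    apply Finset.card_le_card_of_injOn (fun a => (sc.col x a).1)
    · intro a ha
      rw [Finset.mem_coe, hLs, Finset.mem_filter, hL, Finset.mem_erase] at ha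
      obtain ⟨⟨hax, _⟩, z, hz⟩ := ha
      rw [Finset.mem_coe, hNM, Finset.mem_filter, hL, Finset.mem_erase]
      simp only [hz]
      exact ⟨⟨(ne_star sc hax hz).1, Finset.mem_univ _⟩, a, hax, hz⟩
    · intro a ha b hb he
      rw [Finset.mem_coe, hLs, Finset.mem_filter, hL, Finset.mem_erase] at ha hb
      obtain ⟨⟨hax, _⟩, z, hz⟩ := ha
      obtain ⟨⟨hbx, _⟩, z', hz'⟩ := hb
      apply inj_col sc hax hbx
      simp only [hz, hz'] at he
      rw [hz, hz', he]
  have h2 : Ms sc x = L \ NM := by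
    ext z
    rw [mem_Ms, Finset.mem_sdiff, hNM, Finset.mem_filter, hL, Finset.mem_erase]
    constructor
    · rintro ⟨hz, hl⟩
      refine ⟨⟨hz, Finset.mem_univ _⟩, ?_⟩
      rintro ⟨_, l, hlx, hc⟩
      exact hl l hlx hc
    · rintro ⟨⟨hz, _⟩, hl⟩
      refine ⟨hz, fun l hlx hc => hl ⟨⟨hz, Finset.mem_univ _⟩, l, hlx, hc⟩⟩
  have h3 : Fr sc x = L \ Ls := by
    ext a
    rw [mem_Fr, Finset.mem_sdiff, hLs, Finset.mem_filter, hL, Finset.mem_erase]
    constructor
    · rintro ⟨ha, hz⟩
      refine ⟨⟨ha, Finset.mem_univ _⟩, ?_⟩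
      rintro ⟨_, z, hc⟩
      exact hz z hc
    · rintro ⟨⟨ha, _⟩, hz⟩
      exact ⟨ha, fun z hc => hz ⟨⟨ha, Finset.mem_univ _⟩, z, hc⟩⟩
  have hs1 : NM ⊆ L := Finset.filter_subset _ _
  have hs2 : Ls ⊆ L := Finset.filter_subset _ _
  have e1 : (L \ NM).card = L.card - NM.card := Finset.card_sdiff_of_subset hs1
  have e2 : (L \ Ls).card = L.card - Ls.card := Finset.card_sdiff_of_subset hs2
  rw [h2, h3, e1, e2]
  omega

/-- the other end of the edge at `x` of star colour `z` -/
noncomputable def oth (sc : SC V) (x z : V) : V :=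
  open Classical in
  if h : ∃ l, l ≠ x ∧ sc.col x l = (z, z) then h.choose else x

lemma oth_spec {sc : SC V} {x z : V} (h1 : z ≠ x) (h2 : z ∉ Ms sc x) :
    oth sc x z ≠ x ∧ sc.col x (oth sc x z) = (z, z) := by
  classical
  rw [mem_Ms] at h2
  push Not at h2
  obtain ⟨l, hl, hc⟩ := h2 h1
  have h : ∃ l, l ≠ x ∧ sc.col x l = (z, z) := ⟨l, hl, hc⟩
  unfold oth
  rw [dif_pos h]
  exact h.choose_spec

/-! ### families of free gadgets -/

lemma fam_unit (sc : SC V) (Ri : Finset V) (m : ℕ) (hRi : ∀ w ∈ Ri, m ≤ (Fr sc w).card) :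
    ∃ 𝒢 : Finset (Finset (V × V)), (𝒢 : Set (Finset (V × V))).PairwiseDisjoint id ∧
      (∀ G ∈ 𝒢, IsU sc G) ∧ (∀ G ∈ 𝒢, G.card ≤ 5) ∧
      Ri.card * m ≤ 9 * Fintype.card V * 𝒢.card := by
  classical
  set P : Finset (V × V) := univ.filter fun p => p.1 ∈ Ri ∧ p.2 ∈ Fr sc p.1 with hP
  set G : V × V → Finset (V × V) := fun p => {(p.1, p.1), (p.2, p.2), sc.col p.1 p.2} with hG
  have hc3 : ∀ p, (G p).card ≤ 3 := fun p => Finset.card_le_three
  obtain ⟨𝒢, h1, h2, h3⟩ := exists_disjoint_family P G 3 (3 * Fintype.card V)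
    (fun p _ => ⟨(p.1, p.1), by simp [hG]⟩) (fun p _ => hc3 p) (by
      intro i
      have hsub : (P.filter fun p => i ∈ G p) ⊆
          ((P.filter fun p => i = (p.1, p.1)) ∪ (P.filter fun p => i = (p.2, p.2))) ∪
            (P.filter fun p => i = sc.col p.1 p.2) := by
        intro p hp
        obtain ⟨hp, hp2⟩ := Finset.mem_filter.1 hp
        simp only [hG, Finset.mem_insert, Finset.mem_singleton] at hp2
        rcases hp2 with h | h | h
        · exact Finset.mem_union_left _ (Finset.mem_union_left _ (Finset.mem_filter.2 ⟨hp, h⟩))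
        · exact Finset.mem_union_left _ (Finset.mem_union_right _ (Finset.mem_filter.2 ⟨hp, h⟩))
        · exact Finset.mem_union_right _ (Finset.mem_filter.2 ⟨hp, h⟩)
      have b1 : (P.filter fun p => i = (p.1, p.1)).card ≤ Fintype.card V := by
        apply Finset.card_le_card_of_injOn Prod.snd (fun _ _ => Finset.mem_coe.2 (Finset.mem_univ _))
        intro p hp p' hp' he
        rw [Finset.mem_coe, Finset.mem_filter] at hp hp'
        have := hp.2.symm.trans hp'.2
        exact Prod.ext (Prod.ext_iff.1 this).1 he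
      have b2 : (P.filter fun p => i = (p.2, p.2)).card ≤ Fintype.card V := by
        apply Finset.card_le_card_of_injOn Prod.fst (fun _ _ => Finset.mem_coe.2 (Finset.mem_univ _))
        intro p hp p' hp' he
        rw [Finset.mem_coe, Finset.mem_filter] at hp hp'
        have := hp.2.symm.trans hp'.2
        exact Prod.ext he (Prod.ext_iff.1 this).1
      have b3 : (P.filter fun p => i = sc.col p.1 p.2).card ≤ Fintype.card V := by
        apply Finset.card_le_card_of_injOn Prod.fst (fun _ _ => Finset.mem_coe.2 (Finset.mem_univ _))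
        intro p hp p' hp' he
        rw [Finset.mem_coe, Finset.mem_filter, hP, Finset.mem_filter, mem_Fr] at hp hp'
        have h4 := hp.2.symm.trans hp'.2
        have h5 : p.1 = p'.1 := he
        refine Prod.ext h5 ?_
        rw [← h5] at h4
        exact inj_col sc hp.1.2.2.1 (by rw [h5]; exact hp'.1.2.2.1) h4
      have := (Finset.card_le_card hsub).trans ((Finset.card_union_le _ _).trans
        (Nat.add_le_add_right (Finset.card_union_le _ _) _))
      omega)
  refine ⟨𝒢, h1, ?_, ?_, ?_⟩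
  · intro g hg
    obtain ⟨p, hp, rfl⟩ := h2 g hg
    rw [hP, Finset.mem_filter, mem_Fr] at hp
    exact ⟨p.1, p.2, hp.2.2.1.symm, hp.2.2.2, rfl⟩
  · intro g hg
    obtain ⟨p, hp, rfl⟩ := h2 g hg
    have := hc3 p; omega
  · have hPc : Ri.card * m ≤ P.card := by
      rw [hP, card_filter_prod (fun x y => x ∈ Ri ∧ y ∈ Fr sc x)]
      calc Ri.card * m = ∑ w ∈ Ri, m := by rw [Finset.sum_const, smul_eq_mul]
        _ ≤ ∑ w ∈ Ri, (univ.filter fun y => w ∈ Ri ∧ y ∈ Fr sc w).card := by
            refine Finset.sum_le_sum fun w hw => ?_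
            have : (univ.filter fun y => w ∈ Ri ∧ y ∈ Fr sc w) = Fr sc w := by
              ext y; simp [hw]
            rw [this]; exact hRi w hw
        _ ≤ _ := Finset.sum_le_sum_of_subset (Finset.subset_univ _)
    calc Ri.card * m ≤ P.card := hPc
      _ ≤ _ := h3
      _ = _ := by ring

lemma fam_F1 (sc : SC V) (e : V) :
    ∃ 𝒢 : Finset (Finset (V × V)), (𝒢 : Set (Finset (V × V))).PairwiseDisjoint id ∧
      (∀ G ∈ 𝒢, IsG1 sc e G) ∧ (∀ G ∈ 𝒢, G.card ≤ 5) ∧
      (Fr sc e).card ≤ 4 * 𝒢.card := by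
  classical
  set G : V → Finset (V × V) := fun l => {(l, l), sc.col e l} with hG
  have hc2 : ∀ p, (G p).card ≤ 2 := fun p => Finset.card_le_two
  obtain ⟨𝒢, h1, h2, h3⟩ := exists_disjoint_family (Fr sc e) G 2 2
    (fun p _ => ⟨(p, p), by simp [hG]⟩) (fun p _ => hc2 p) (by
      intro i
      have hsub : ((Fr sc e).filter fun p => i ∈ G p) ⊆
          ((Fr sc e).filter fun p => i = (p, p)) ∪ ((Fr sc e).filter fun p => i = sc.col e p) := by
        intro p hp
        obtain ⟨hp, hp2⟩ := Finset.mem_filter.1 hp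
        simp only [hG, Finset.mem_insert, Finset.mem_singleton] at hp2
        rcases hp2 with h | h
        · exact Finset.mem_union_left _ (Finset.mem_filter.2 ⟨hp, h⟩)
        · exact Finset.mem_union_right _ (Finset.mem_filter.2 ⟨hp, h⟩)
      have b1 : ((Fr sc e).filter fun p => i = (p, p)).card ≤ 1 := by
        rw [Finset.card_le_one]
        intro p hp p' hp'
        rw [Finset.mem_filter] at hp hp'
        exact (Prod.ext_iff.1 (hp.2.symm.trans hp'.2)).1
      have b2 : ((Fr sc e).filter fun p => i = sc.col e p).card ≤ 1 := by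
        rw [Finset.card_le_one]
        intro p hp p' hp'
        rw [Finset.mem_filter, mem_Fr] at hp hp'
        exact inj_col sc hp.1.1 hp'.1.1 (hp.2.symm.trans hp'.2)
      have := (Finset.card_le_card hsub).trans (Finset.card_union_le _ _)
      omega)
  refine ⟨𝒢, h1, ?_, ?_, by omega⟩
  · intro g hg
    obtain ⟨p, hp, rfl⟩ := h2 g hg
    rw [mem_Fr] at hp
    exact Or.inl ⟨p, hp.2, rfl⟩
  · intro g hg
    obtain ⟨p, hp, rfl⟩ := h2 g hg
    have := hc2 p; omega

lemma fam_F2 (sc : SC V) (e : V) (Ri : Finset V) (m : ℕ)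
    (hRi : ∀ w ∈ Ri, m + 1 ≤ (Fr sc w).card) :
    ∃ 𝒢 : Finset (Finset (V × V)), (𝒢 : Set (Finset (V × V))).PairwiseDisjoint id ∧
      (∀ G ∈ 𝒢, IsG1 sc e G) ∧ (∀ G ∈ 𝒢, G.card ≤ 5) ∧
      (Ri.card - ((Fr sc e).card + 1)) * m ≤ 16 * Fintype.card V * 𝒢.card := by
  classical
  set Mw := Ri \ insert e (Ms sc e) with hMw
  have hMwc : Ri.card - ((Fr sc e).card + 1) ≤ Mw.card := by
    have h1 : Ri.card - (insert e (Ms sc e)).card ≤ Mw.card := Finset.le_card_sdiff _ _
    have h2 := Finset.card_insert_le e (Ms sc e)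
    have h3 := card_Ms_le sc e
    omega
  have hoth : ∀ w ∈ Mw, oth sc e w ≠ e ∧ sc.col e (oth sc e w) = (w, w) := by
    intro w hw
    rw [hMw, Finset.mem_sdiff, Finset.mem_insert] at hw
    push Not at hw
    exact oth_spec hw.2.1 hw.2.2
  set P : Finset (V × V) := univ.filter fun p => p.1 ∈ Mw ∧ (p.2 ∈ Fr sc p.1 ∧ p.2 ≠ oth sc e p.1)
    with hP
  set G : V × V → Finset (V × V) := fun p =>
    {(p.1, p.1), (oth sc e p.1, oth sc e p.1), (p.2, p.2), sc.col p.1 p.2} with hG
  have hc4 : ∀ p, (G p).card ≤ 4 := fun p => Finset.card_le_four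
  obtain ⟨𝒢, h1, h2, h3⟩ := exists_disjoint_family P G 4 (4 * Fintype.card V)
    (fun p _ => ⟨(p.1, p.1), by simp [hG]⟩) (fun p _ => hc4 p) (by
      intro i
      have hsub : (P.filter fun p => i ∈ G p) ⊆
          (((P.filter fun p => i = (p.1, p.1)) ∪ (P.filter fun p => i = (p.2, p.2))) ∪
            (P.filter fun p => i = sc.col p.1 p.2)) ∪
            (P.filter fun p => i = (oth sc e p.1, oth sc e p.1)) := by
        intro p hp
        obtain ⟨hp, hp2⟩ := Finset.mem_filter.1 hp
        simp only [hG, Finset.mem_insert, Finset.mem_singleton] at hp2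
        rcases hp2 with h | h | h | h
        · exact Finset.mem_union_left _ (Finset.mem_union_left _ (Finset.mem_union_left _
            (Finset.mem_filter.2 ⟨hp, h⟩)))
        · exact Finset.mem_union_right _ (Finset.mem_filter.2 ⟨hp, h⟩)
        · exact Finset.mem_union_left _ (Finset.mem_union_left _ (Finset.mem_union_right _
            (Finset.mem_filter.2 ⟨hp, h⟩)))
        · exact Finset.mem_union_left _ (Finset.mem_union_right _ (Finset.mem_filter.2 ⟨hp, h⟩))
      have b1 : (P.filter fun p => i = (p.1, p.1)).card ≤ Fintype.card V := by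
        apply Finset.card_le_card_of_injOn Prod.snd (fun _ _ => Finset.mem_coe.2 (Finset.mem_univ _))
        intro p hp p' hp' he
        rw [Finset.mem_coe, Finset.mem_filter] at hp hp'
        have := hp.2.symm.trans hp'.2
        exact Prod.ext (Prod.ext_iff.1 this).1 he
      have b2 : (P.filter fun p => i = (p.2, p.2)).card ≤ Fintype.card V := by
        apply Finset.card_le_card_of_injOn Prod.fst (fun _ _ => Finset.mem_coe.2 (Finset.mem_univ _))
        intro p hp p' hp' he
        rw [Finset.mem_coe, Finset.mem_filter] at hp hp'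
        have := hp.2.symm.trans hp'.2
        exact Prod.ext he (Prod.ext_iff.1 this).1
      have b3 : (P.filter fun p => i = sc.col p.1 p.2).card ≤ Fintype.card V := by
        apply Finset.card_le_card_of_injOn Prod.fst (fun _ _ => Finset.mem_coe.2 (Finset.mem_univ _))
        intro p hp p' hp' he
        rw [Finset.mem_coe, Finset.mem_filter, hP, Finset.mem_filter, mem_Fr] at hp hp'
        have h4 := hp.2.symm.trans hp'.2
        have h5 : p.1 = p'.1 := he
        refine Prod.ext h5 ?_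
        rw [← h5] at h4
        exact inj_col sc hp.1.2.2.1.1 (by rw [h5]; exact hp'.1.2.2.1.1) h4
      have b4 : (P.filter fun p => i = (oth sc e p.1, oth sc e p.1)).card ≤ Fintype.card V := by
        apply Finset.card_le_card_of_injOn Prod.snd (fun _ _ => Finset.mem_coe.2 (Finset.mem_univ _))
        intro p hp p' hp' he
        rw [Finset.mem_coe, Finset.mem_filter, hP, Finset.mem_filter] at hp hp'
        have h4 := (Prod.ext_iff.1 (hp.2.symm.trans hp'.2)).1
        have h5 := (hoth p.1 hp.1.2.1).2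
        have h6 := (hoth p'.1 hp'.1.2.1).2
        have h4' : oth sc e p.1 = oth sc e p'.1 := h4
        rw [h4', h6] at h5
        exact Prod.ext (Prod.ext_iff.1 h5).1.symm he
      have := (Finset.card_le_card hsub).trans ((Finset.card_union_le _ _).trans
        (Nat.add_le_add_right ((Finset.card_union_le _ _).trans
        (Nat.add_le_add_right (Finset.card_union_le _ _) _)) _))
      omega)
  refine ⟨𝒢, h1, ?_, ?_, ?_⟩
  · intro g hg
    obtain ⟨p, hp, rfl⟩ := h2 g hg
    rw [hP, Finset.mem_filter, mem_Fr] at hp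
    obtain ⟨_, hw, ⟨h4, h5⟩, h6⟩ := hp
    obtain ⟨h7, h8⟩ := hoth p.1 hw
    exact Or.inr ⟨p.1, oth sc e p.1, p.2, (ne_star sc h7 h8).2, h4.symm, h6.symm, h8, h5, rfl⟩
  · intro g hg
    obtain ⟨p, hp, rfl⟩ := h2 g hg
    have := hc4 p; omega
  · have hPc : Mw.card * m ≤ P.card := by
      rw [hP, card_filter_prod (fun x y => x ∈ Mw ∧ (y ∈ Fr sc x ∧ y ≠ oth sc e x))]
      calc Mw.card * m = ∑ w ∈ Mw, m := by rw [Finset.sum_const, smul_eq_mul]
        _ ≤ ∑ w ∈ Mw, (univ.filter fun y => w ∈ Mw ∧ (y ∈ Fr sc w ∧ y ≠ oth sc e w)).card := by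
            refine Finset.sum_le_sum fun w hw => ?_
            have : (univ.filter fun y => w ∈ Mw ∧ (y ∈ Fr sc w ∧ y ≠ oth sc e w))
                = (Fr sc w).erase (oth sc e w) := by
              ext y; simp [hw, and_comm]
            rw [this]
            have h5 := Finset.pred_card_le_card_erase (s := Fr sc w) (a := oth sc e w)
            have h6 := hRi w (by
              rw [hMw, Finset.mem_sdiff] at hw; exact hw.1)
            omega
        _ ≤ _ := Finset.sum_le_sum_of_subset (Finset.subset_univ _)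
    calc (Ri.card - ((Fr sc e).card + 1)) * m ≤ Mw.card * m := Nat.mul_le_mul_right m hMwc
      _ ≤ P.card := hPc
      _ ≤ _ := h3
      _ = _ := by ring

/-! ### family of star gadgets -/

/-- vertices where star colour `s` is missing -/
noncomputable def Rr (sc : SC V) (s : V) : Finset V :=
  open Classical in univ.filter fun x => s ∈ Ms sc x

lemma mem_Rr {sc : SC V} {s x : V} : x ∈ Rr sc s ↔ s ∈ Ms sc x := by
  classical
  unfold Rr; simp

lemma fam_star (sc : SC V) (Vg : Finset V) (d m : ℕ) (hd : (univ \ Vg).card ≤ d)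
    (hF : ∀ x ∈ Vg, (Fr sc x).card ≤ m) (hR : ∀ x ∈ Vg, (Rr sc x).card ≤ m)
    (e s : V) (he : e ∈ Vg) (hs : s ∈ Vg) :
    ∃ 𝒢 : Finset (Finset (V × V)), (𝒢 : Set (Finset (V × V))).PairwiseDisjoint id ∧
      (∀ G ∈ 𝒢, IsG2 sc Vg e s G) ∧ (∀ G ∈ 𝒢, G.card ≤ 5) ∧
      Fintype.card V * Fintype.card V ≤ 25 * Fintype.card V * 𝒢.card
        + Fintype.card V * (2 * d + 3 * m + 8) := by
  classical
  set N := Fintype.card V with hN
  set L1 : V → V := fun w => oth sc e w with hL1
  set L2 : V → V → V := fun w y => oth sc w y with hL2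
  set L3 : V → V := fun y => oth sc y s with hL3
  -- bad sets
  set B1 : Finset (V × V) := univ.filter fun p => p.1 ∉ Vg with hB1
  set B2 : Finset (V × V) := univ.filter fun p => p.1 ∈ insert e (Ms sc e) with hB2
  set B3 : Finset (V × V) := univ.filter fun p => p.2 ∉ Vg with hB3
  set B4 : Finset (V × V) := univ.filter fun p => p.1 ∈ Vg ∧ p.2 ∈ insert p.1 (Ms sc p.1) with hB4
  set B5 : Finset (V × V) := univ.filter fun p => p.2 ∈ insert s (Rr sc s) with hB5
  set B6 : Finset (V × V) := univ.filter fun p => p.1 = L3 p.2 with hB6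
  set B7 : Finset (V × V) := univ.filter fun p => p.2 = L1 p.1 with hB7
  set B8 : Finset (V × V) := univ.filter fun p => sc.col p.1 (L1 p.1) = (p.2, p.2) with hB8
  set B9 : Finset (V × V) := univ.filter fun p =>
    p.2 ≠ L1 p.1 ∧ sc.col p.2 (L1 p.1) = (s, s) with hB9
  set B10 : Finset (V × V) := univ.filter fun p =>
    p.1 ≠ L3 p.2 ∧ sc.col p.1 (L3 p.2) = (p.2, p.2) with hB10
  have c1 : B1.card ≤ N * d := by
    apply cardR (fun x _ => x ∉ Vg) d
    intro y
    have : (univ.filter fun x => x ∉ Vg) = univ \ Vg := by ext; simp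
    rw [this]; exact hd
  have c2 : B2.card ≤ N * (m + 1) := by
    apply cardR (fun x _ => x ∈ insert e (Ms sc e)) (m + 1)
    intro y
    have : (univ.filter fun x => x ∈ insert e (Ms sc e)) = insert e (Ms sc e) := by ext; simp
    rw [this]
    have h1 := Finset.card_insert_le e (Ms sc e)
    have h2 := card_Ms_le sc e
    have h3 := hF e he
    omega
  have c3 : B3.card ≤ N * d := by
    apply cardL (fun _ y => y ∉ Vg) d
    intro x
    have : (univ.filter fun x => x ∉ Vg) = univ \ Vg := by ext; simp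
    rw [this]; exact hd
  have c4 : B4.card ≤ N * (m + 1) := by
    apply cardL (fun x y => x ∈ Vg ∧ y ∈ insert x (Ms sc x)) (m + 1)
    intro x
    by_cases hx : x ∈ Vg
    · have : (univ.filter fun y => x ∈ Vg ∧ y ∈ insert x (Ms sc x)) = insert x (Ms sc x) := by
        ext; simp [hx]
      rw [this]
      have h1 := Finset.card_insert_le x (Ms sc x)
      have h2 := card_Ms_le sc x
      have h3 := hF x hx
      omega
    · have : (univ.filter fun y => x ∈ Vg ∧ y ∈ insert x (Ms sc x)) = ∅ := by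
        ext; simp [hx]
      rw [this]; simp
  have c5 : B5.card ≤ N * (m + 1) := by
    apply cardL (fun _ y => y ∈ insert s (Rr sc s)) (m + 1)
    intro x
    have : (univ.filter fun y => y ∈ insert s (Rr sc s)) = insert s (Rr sc s) := by ext; simp
    rw [this]
    have h1 := Finset.card_insert_le s (Rr sc s)
    have h3 := hR s hs
    omega
  have c6 : B6.card ≤ N * 1 := by
    apply cardR (fun x y => x = L3 y) 1
    intro y
    rw [Finset.card_le_one]
    intro a ha b hb
    simp only [Finset.mem_filter, Finset.mem_univ, true_and] at ha hb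
    rw [ha, hb]
  have c7 : B7.card ≤ N * 1 := by
    apply cardL (fun x y => y = L1 x) 1
    intro x
    rw [Finset.card_le_one]
    intro a ha b hb
    simp only [Finset.mem_filter, Finset.mem_univ, true_and] at ha hb
    rw [ha, hb]
  have c8 : B8.card ≤ N * 1 := by
    apply cardL (fun x y => sc.col x (L1 x) = (y, y)) 1
    intro x
    rw [Finset.card_le_one]
    intro a ha b hb
    simp only [Finset.mem_filter, Finset.mem_univ, true_and] at ha hb
    exact (Prod.ext_iff.1 (ha.symm.trans hb)).1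
  have c9 : B9.card ≤ N * 1 := by
    apply cardL (fun x y => y ≠ L1 x ∧ sc.col y (L1 x) = (s, s)) 1
    intro x
    rw [Finset.card_le_one]
    intro a ha b hb
    simp only [Finset.mem_filter, Finset.mem_univ, true_and] at ha hb
    apply inj_col sc ha.1 hb.1
    rw [sc.symm, ha.2, sc.symm, hb.2]
  have c10 : B10.card ≤ N * 1 := by
    apply cardR (fun x y => x ≠ L3 y ∧ sc.col x (L3 y) = (y, y)) 1
    intro y
    rw [Finset.card_le_one]
    intro a ha b hb
    simp only [Finset.mem_filter, Finset.mem_univ, true_and] at ha hb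
    apply inj_col sc ha.1 hb.1
    rw [sc.symm, ha.2, sc.symm, hb.2]
  set Bad := B1 ∪ B2 ∪ B3 ∪ B4 ∪ B5 ∪ B6 ∪ B7 ∪ B8 ∪ B9 ∪ B10 with hBad
  have cBad : Bad.card ≤ N * (2 * d + 3 * m + 8) := by
    clear_value B1 B2 B3 B4 B5 B6 B7 B8 B9 B10
    have u1 := Finset.card_union_le B1 B2
    have u2 := Finset.card_union_le (B1 ∪ B2) B3
    have u3 := Finset.card_union_le (B1 ∪ B2 ∪ B3) B4
    have u4 := Finset.card_union_le (B1 ∪ B2 ∪ B3 ∪ B4) B5
    have u5 := Finset.card_union_le (B1 ∪ B2 ∪ B3 ∪ B4 ∪ B5) B6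
    have u6 := Finset.card_union_le (B1 ∪ B2 ∪ B3 ∪ B4 ∪ B5 ∪ B6) B7
    have u7 := Finset.card_union_le (B1 ∪ B2 ∪ B3 ∪ B4 ∪ B5 ∪ B6 ∪ B7) B8
    have u8 := Finset.card_union_le (B1 ∪ B2 ∪ B3 ∪ B4 ∪ B5 ∪ B6 ∪ B7 ∪ B8) B9
    have u9 := Finset.card_union_le (B1 ∪ B2 ∪ B3 ∪ B4 ∪ B5 ∪ B6 ∪ B7 ∪ B8 ∪ B9) B10
    have e : N * (2 * d + 3 * m + 8) = N * d + N * (m + 1) + N * d + N * (m + 1) + N * (m + 1)
        + N * 1 + N * 1 + N * 1 + N * 1 + N * 1 := by ring
    rw [e, hBad]
    clear hBad
    generalize N * d = nd at *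
    generalize N * (m + 1) = nm at *
    generalize N * 1 = n1 at *
    omega
  set P : Finset (V × V) := univ \ Bad with hP
  set G : V × V → Finset (V × V) := fun p =>
    {(p.1, p.1), (p.2, p.2), (L1 p.1, L1 p.1), (L2 p.1 p.2, L2 p.1 p.2), (L3 p.2, L3 p.2)} with hG
  have hgood : ∀ p ∈ P, p.1 ∈ Vg ∧ p.2 ∈ Vg ∧ p.1 ≠ p.2 ∧ p.1 ≠ L1 p.1 ∧ p.1 ≠ L2 p.1 p.2 ∧
      p.1 ≠ L3 p.2 ∧ p.2 ≠ L1 p.1 ∧ p.2 ≠ L2 p.1 p.2 ∧ p.2 ≠ L3 p.2 ∧ L1 p.1 ≠ L2 p.1 p.2 ∧
      L1 p.1 ≠ L3 p.2 ∧ L2 p.1 p.2 ≠ L3 p.2 ∧ L1 p.1 ≠ e ∧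
      sc.col e (L1 p.1) = (p.1, p.1) ∧ sc.col p.1 (L2 p.1 p.2) = (p.2, p.2) ∧
      sc.col p.2 (L3 p.2) = (s, s) := by
    intro p hp
    rw [hP, Finset.mem_sdiff, hBad] at hp
    simp only [Finset.mem_union, not_or] at hp
    obtain ⟨_, ⟨⟨⟨⟨⟨⟨⟨⟨⟨n1, n2⟩, n3⟩, n4⟩, n5⟩, n6⟩, n7⟩, n8⟩, n9⟩, n10⟩⟩ := hp
    rw [hB1, Finset.mem_filter] at n1
    rw [hB2, Finset.mem_filter] at n2
    rw [hB3, Finset.mem_filter] at n3
    rw [hB4, Finset.mem_filter] at n4
    rw [hB5, Finset.mem_filter] at n5
    rw [hB6, Finset.mem_filter] at n6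
    rw [hB7, Finset.mem_filter] at n7
    rw [hB8, Finset.mem_filter] at n8
    rw [hB9, Finset.mem_filter] at n9
    rw [hB10, Finset.mem_filter] at n10
    simp only [Finset.mem_univ, true_and, not_not] at n1 n2 n3 n4 n5 n6 n7 n8 n9 n10
    rw [Finset.mem_insert, not_or] at n2 n5
    have n4' : ¬ (p.2 ∈ insert p.1 (Ms sc p.1)) := fun h => n4 ⟨n1, h⟩
    rw [Finset.mem_insert, not_or] at n4'
    rw [mem_Rr] at n5
    obtain ⟨h11, h12⟩ := oth_spec n2.1 n2.2
    obtain ⟨h21, h22⟩ := oth_spec n4'.1 n4'.2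
    obtain ⟨h31, h32⟩ := oth_spec (Ne.symm n5.1) n5.2
    have h12' : sc.col e (L1 p.1) = (p.1, p.1) := h12
    have h22' : sc.col p.1 (L2 p.1 p.2) = (p.2, p.2) := h22
    have h32' : sc.col p.2 (L3 p.2) = (s, s) := h32
    refine ⟨n1, n3, Ne.symm n4'.1, (ne_star sc h11 h12).2, Ne.symm h21, n6, n7,
      (ne_star sc h21 h22).2, Ne.symm h31, ?_, ?_, ?_, h11, h12', h22', h32'⟩
    · intro hh
      apply n8
      rw [hh]; exact h22'
    · intro hh
      apply n9
      refine ⟨n7, ?_⟩
      rw [hh]; exact h32'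
    · intro hh
      apply n10
      refine ⟨n6, ?_⟩
      rw [← hh]; exact h22'
  have hc5 : ∀ p, (G p).card ≤ 5 := fun p => Finset.card_le_five
  obtain ⟨𝒢, h1, h2, h3⟩ := exists_disjoint_family P G 5 (5 * Fintype.card V)
    (fun p _ => ⟨(p.1, p.1), by simp [hG]⟩) (fun p _ => hc5 p) (by
      intro i
      have hsub : (P.filter fun p => i ∈ G p) ⊆
          ((((P.filter fun p => i = (p.1, p.1)) ∪ (P.filter fun p => i = (p.2, p.2))) ∪
            (P.filter fun p => i = (L1 p.1, L1 p.1))) ∪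
            (P.filter fun p => i = (L2 p.1 p.2, L2 p.1 p.2))) ∪
            (P.filter fun p => i = (L3 p.2, L3 p.2)) := by
        intro p hp
        obtain ⟨hp, hp2⟩ := Finset.mem_filter.1 hp
        simp only [hG, Finset.mem_insert, Finset.mem_singleton] at hp2
        rcases hp2 with h | h | h | h | h
        · exact Finset.mem_union_left _ (Finset.mem_union_left _ (Finset.mem_union_left _
            (Finset.mem_union_left _ (Finset.mem_filter.2 ⟨hp, h⟩))))
        · exact Finset.mem_union_left _ (Finset.mem_union_left _ (Finset.mem_union_left _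
            (Finset.mem_union_right _ (Finset.mem_filter.2 ⟨hp, h⟩))))
        · exact Finset.mem_union_left _ (Finset.mem_union_left _ (Finset.mem_union_right _
            (Finset.mem_filter.2 ⟨hp, h⟩)))
        · exact Finset.mem_union_left _ (Finset.mem_union_right _ (Finset.mem_filter.2 ⟨hp, h⟩))
        · exact Finset.mem_union_right _ (Finset.mem_filter.2 ⟨hp, h⟩)
      have b1 : (P.filter fun p => i = (p.1, p.1)).card ≤ Fintype.card V := by
        apply Finset.card_le_card_of_injOn Prod.snd (fun _ _ => Finset.mem_coe.2 (Finset.mem_univ _))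
        intro p hp p' hp' he
        rw [Finset.mem_coe, Finset.mem_filter] at hp hp'
        have := hp.2.symm.trans hp'.2
        exact Prod.ext (Prod.ext_iff.1 this).1 he
      have b2 : (P.filter fun p => i = (p.2, p.2)).card ≤ Fintype.card V := by
        apply Finset.card_le_card_of_injOn Prod.fst (fun _ _ => Finset.mem_coe.2 (Finset.mem_univ _))
        intro p hp p' hp' he
        rw [Finset.mem_coe, Finset.mem_filter] at hp hp'
        have := hp.2.symm.trans hp'.2
        exact Prod.ext he (Prod.ext_iff.1 this).1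
      have b3 : (P.filter fun p => i = (L1 p.1, L1 p.1)).card ≤ Fintype.card V := by
        apply Finset.card_le_card_of_injOn Prod.snd (fun _ _ => Finset.mem_coe.2 (Finset.mem_univ _))
        intro p hp p' hp' he
        rw [Finset.mem_coe, Finset.mem_filter] at hp hp'
        have h4 : L1 p.1 = L1 p'.1 := (Prod.ext_iff.1 (hp.2.symm.trans hp'.2)).1
        obtain ⟨_, _, _, _, _, _, _, _, _, _, _, _, _, h5, _, _⟩ := hgood p hp.1
        obtain ⟨_, _, _, _, _, _, _, _, _, _, _, _, _, h6, _, _⟩ := hgood p' hp'.1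
        rw [h4, h6] at h5
        exact Prod.ext (Prod.ext_iff.1 h5).1.symm he
      have b4 : (P.filter fun p => i = (L2 p.1 p.2, L2 p.1 p.2)).card ≤ Fintype.card V := by
        apply Finset.card_le_card_of_injOn Prod.fst (fun _ _ => Finset.mem_coe.2 (Finset.mem_univ _))
        intro p hp p' hp' he
        rw [Finset.mem_coe, Finset.mem_filter] at hp hp'
        have h4 : L2 p.1 p.2 = L2 p'.1 p'.2 := (Prod.ext_iff.1 (hp.2.symm.trans hp'.2)).1
        have he' : p.1 = p'.1 := he
        obtain ⟨_, _, _, _, _, _, _, _, _, _, _, _, _, _, h5, _⟩ := hgood p hp.1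
        obtain ⟨_, _, _, _, _, _, _, _, _, _, _, _, _, _, h6, _⟩ := hgood p' hp'.1
        rw [h4, he', h6] at h5
        exact Prod.ext he' (Prod.ext_iff.1 h5).1.symm
      have b5 : (P.filter fun p => i = (L3 p.2, L3 p.2)).card ≤ Fintype.card V := by
        apply Finset.card_le_card_of_injOn Prod.fst (fun _ _ => Finset.mem_coe.2 (Finset.mem_univ _))
        intro p hp p' hp' he
        rw [Finset.mem_coe, Finset.mem_filter] at hp hp'
        have h4 : L3 p.2 = L3 p'.2 := (Prod.ext_iff.1 (hp.2.symm.trans hp'.2)).1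
        have he' : p.1 = p'.1 := he
        obtain ⟨_, _, _, _, _, _, _, _, g5, _, _, _, _, _, _, h5⟩ := hgood p hp.1
        obtain ⟨_, _, _, _, _, _, _, _, g6, _, _, _, _, _, _, h6⟩ := hgood p' hp'.1
        refine Prod.ext he' ?_
        apply inj_col sc (x := L3 p.2) g5 (by rw [h4]; exact g6)
        rw [sc.symm, h5, h4, sc.symm, h6]
      have u1 := Finset.card_union_le (P.filter fun p => i = (p.1, p.1))
        (P.filter fun p => i = (p.2, p.2))
      have u2 := Finset.card_union_le ((P.filter fun p => i = (p.1, p.1)) ∪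
        (P.filter fun p => i = (p.2, p.2))) (P.filter fun p => i = (L1 p.1, L1 p.1))
      have u3 := Finset.card_union_le (((P.filter fun p => i = (p.1, p.1)) ∪
        (P.filter fun p => i = (p.2, p.2))) ∪ (P.filter fun p => i = (L1 p.1, L1 p.1)))
        (P.filter fun p => i = (L2 p.1 p.2, L2 p.1 p.2))
      have u4 := Finset.card_union_le ((((P.filter fun p => i = (p.1, p.1)) ∪
        (P.filter fun p => i = (p.2, p.2))) ∪ (P.filter fun p => i = (L1 p.1, L1 p.1))) ∪
        (P.filter fun p => i = (L2 p.1 p.2, L2 p.1 p.2))) (P.filter fun p => i = (L3 p.2, L3 p.2))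
      have := Finset.card_le_card hsub
      omega)
  refine ⟨𝒢, h1, ?_, ?_, ?_⟩
  · intro g hg
    obtain ⟨p, hp, rfl⟩ := h2 g hg
    obtain ⟨g1, g2, g3, g4, g5, g6, g7, g8, g9, g10, g11, g12, _, g13, g14, g15⟩ := hgood p hp
    exact ⟨p.1, p.2, L1 p.1, L2 p.1 p.2, L3 p.2, g1, g2, g3, g4, g5, g6, g7, g8, g9, g10, g11,
      g12, g13, g14, g15, rfl⟩
  · intro g hg
    obtain ⟨p, hp, rfl⟩ := h2 g hg
    exact hc5 p
  · have h4 : P.card + Bad.card = N * N := by
      rw [hP, Finset.card_sdiff_of_subset (Finset.subset_univ _)]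
      have h5 : Bad.card ≤ (univ : Finset (V × V)).card := Finset.card_le_univ _
      have h6 : (univ : Finset (V × V)).card = N * N := by
        rw [Finset.card_univ, Fintype.card_prod]
      omega
    have h7 : 5 * (5 * Fintype.card V) * 𝒢.card = 25 * N * 𝒢.card := by ring
    rw [h7] at h3
    omega

end Spider
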