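import Pool.Agent.Spider.Exch

namespace Spider
open Finset

variable {V : Type} [Fintype V] [DecidableEq V]

lemma growth_real (sc : SC V) {h : ℕ} {χ : V × V → ZMod (2 * h + 1)} {θ : ℝ}
    (hPR : PR sc h χ θ) (Λ : Finset (V × V)) (lam : ℝ) (hθ : 0 ≤ θ) (hlam : 0 ≤ lam)
    (hloss : ((univ.filter fun p : V × V => p.1 ≠ p.2 ∧ isS (χ (sc.col p.1 p.2)) ∧
      sc.col p.1 p.2 ∉ Λ).card : ℝ) ≤ lam * (Fintype.card V : ℝ) ^ 2)
    (B Kk : Finset V) (hd : Disjoint B Kk) (hK : ∀ a ∈ Kk, isA (χ (a, a))) :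
    al h * B.card * Kk.card ≤ al h * B.card * (cols sc (B ×ˢ Kk) ∩ Λ).card
      + (2 * θ + lam) * (Fintype.card V : ℝ) ^ 2 := by
  classical
  have hal := al_nonneg h
  set N : ℝ := (Fintype.card V : ℝ) with hN
  set Z := cols sc (B ×ˢ Kk) ∩ Λ with hZ
  have hrest : 0 ≤ (2 * θ + lam) * N ^ 2 := by positivity
  by_cases hZN : Z.card ≤ Fintype.card V
  swap
  · have : (Kk.card : ℝ) ≤ Z.card := by
      have := Finset.card_le_univ Kk
      exact_mod_cast (by omega : Kk.card ≤ Z.card)
    have h2 : al h * B.card * Kk.card ≤ al h * B.card * Z.card :=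
      mul_le_mul_of_nonneg_left this (by positivity)
    linarith
  have hpq : ∀ b ∈ B, ∀ p ∈ Kk, p ≠ b := by
    intro b hb p hp he
    exact (Finset.disjoint_left.1 hd) hb (he ▸ hp)
  set C : ℝ := ∑ b ∈ B, ∑ p ∈ Kk, (if isS (χ (sc.col b p)) then (1 : ℝ) else 0) with hC
  -- (1)
  have s1 : al h * B.card * Kk.card - θ * N ^ 2 ≤ C := by
    have e1 : ∑ b ∈ B, ∑ p : V, (if p ≠ b ∧ p ∈ Kk then gS h (χ (sc.col b p)) else 0)
        = C - al h * B.card * Kk.card := by
      have e2 : ∀ b ∈ B, ∑ p : V, (if p ≠ b ∧ p ∈ Kk then gS h (χ (sc.col b p)) else 0)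
          = ∑ p ∈ Kk, (if isS (χ (sc.col b p)) then (1 : ℝ) else 0) - al h * Kk.card := by
        intro b hb
        rw [← Finset.sum_filter]
        have : (univ.filter fun p => p ≠ b ∧ p ∈ Kk) = Kk := by
          ext p
          simp only [Finset.mem_filter, Finset.mem_univ, true_and]
          exact ⟨fun h => h.2, fun h => ⟨hpq b hb p h, h⟩⟩
        rw [this]
        unfold gS
        rw [Finset.sum_sub_distrib]
        simp only [Finset.sum_const, nsmul_eq_mul]
        ring
      rw [Finset.sum_congr rfl e2, Finset.sum_sub_distrib]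
      simp only [Finset.sum_const, nsmul_eq_mul, hC]
      ring
    have := hPR.a B Kk
    rw [e1, abs_le] at this
    linarith [this.1]
  -- (2)
  have s2 : C ≤ (∑ b ∈ B, ∑ p ∈ Kk, (if sc.col b p ∈ Λ then (1 : ℝ) else 0)) + lam * N ^ 2 := by
    have e1 : C ≤ ∑ b ∈ B, ∑ p ∈ Kk, ((if sc.col b p ∈ Λ then (1 : ℝ) else 0)
        + (if b ≠ p ∧ isS (χ (sc.col b p)) ∧ sc.col b p ∉ Λ then (1 : ℝ) else 0)) := by
      refine Finset.sum_le_sum fun b hb => Finset.sum_le_sum fun p hp => ?_
      have hne := (hpq b hb p hp).symm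
      by_cases h1 : isS (χ (sc.col b p)) <;> by_cases h2 : sc.col b p ∈ Λ <;> simp [h1, h2, hne]
    have e3 : ∑ b ∈ B, ∑ p ∈ Kk,
        (if b ≠ p ∧ isS (χ (sc.col b p)) ∧ sc.col b p ∉ Λ then (1 : ℝ) else 0) ≤ lam * N ^ 2 := by
      refine le_trans ?_ hloss
      rw [← Finset.sum_product', ← Finset.sum_filter, Finset.sum_const, nsmul_eq_mul, mul_one]
      have : ((B ×ˢ Kk).filter fun p : V × V => p.1 ≠ p.2 ∧ isS (χ (sc.col p.1 p.2)) ∧
          sc.col p.1 p.2 ∉ Λ) ⊆ (univ.filter fun p : V × V => p.1 ≠ p.2 ∧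
          isS (χ (sc.col p.1 p.2)) ∧ sc.col p.1 p.2 ∉ Λ) :=
        Finset.filter_subset_filter _ (Finset.subset_univ _)
      exact_mod_cast Finset.card_le_card this
    calc C ≤ _ := e1
      _ = (∑ b ∈ B, ∑ p ∈ Kk, (if sc.col b p ∈ Λ then (1 : ℝ) else 0)) + ∑ b ∈ B, ∑ p ∈ Kk,
          (if b ≠ p ∧ isS (χ (sc.col b p)) ∧ sc.col b p ∉ Λ then (1 : ℝ) else 0) := by
          rw [← Finset.sum_add_distrib]
          refine Finset.sum_congr rfl fun b _ => ?_
          rw [Finset.sum_add_distrib]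
      _ ≤ _ := by linarith
  -- (3)
  have s3 : ∑ b ∈ B, ∑ p ∈ Kk, (if sc.col b p ∈ Λ then (1 : ℝ) else 0)
      ≤ ∑ b ∈ B, ∑ p : V, (if p ≠ b ∧ sc.col b p ∈ Z then
        (gA h (χ (p, p)) + al h) else 0) := by
    refine Finset.sum_le_sum fun b hb => ?_
    calc ∑ p ∈ Kk, (if sc.col b p ∈ Λ then (1 : ℝ) else 0)
        ≤ ∑ p ∈ Kk, (if p ≠ b ∧ sc.col b p ∈ Z then (gA h (χ (p, p)) + al h) else 0) := by
          refine Finset.sum_le_sum fun p hp => ?_
          have hne := hpq b hb p hp
          by_cases h1 : sc.col b p ∈ Λ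
          · have h2 : sc.col b p ∈ Z := by
              rw [hZ, Finset.mem_inter, mem_cols]
              exact ⟨⟨(b, p), Finset.mem_product.2 ⟨hb, hp⟩, rfl⟩, h1⟩
            rw [if_pos h1, if_pos ⟨hne, h2⟩]
            unfold gA
            rw [if_pos (hK p hp)]
            linarith
          · rw [if_neg h1]
            split_ifs with h2
            · unfold gA; split_ifs <;> linarith
            · exact le_rfl
      _ ≤ _ := by
          apply Finset.sum_le_sum_of_subset_of_nonneg (Finset.subset_univ _)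
          intro p _ _
          split_ifs with h2
          · unfold gA; split_ifs <;> linarith
          · exact le_rfl
  have s4 : ∑ b ∈ B, ∑ p : V, (if p ≠ b ∧ sc.col b p ∈ Z then
        (gA h (χ (p, p)) + al h) else 0) ≤ θ * N ^ 2 + al h * B.card * Z.card := by
    have e1 : ∑ b ∈ B, ∑ p : V, (if p ≠ b ∧ sc.col b p ∈ Z then (gA h (χ (p, p)) + al h) else 0)
        = (∑ b ∈ B, ∑ p : V, (if p ≠ b ∧ sc.col b p ∈ Z then gA h (χ (p, p)) else 0))
          + ∑ b ∈ B, ∑ p : V, (if p ≠ b ∧ sc.col b p ∈ Z then al h else 0) := by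
      rw [← Finset.sum_add_distrib]
      refine Finset.sum_congr rfl fun b _ => ?_
      rw [← Finset.sum_add_distrib]
      refine Finset.sum_congr rfl fun p _ => ?_
      split_ifs <;> simp
    have e2 : ∑ b ∈ B, ∑ p : V, (if p ≠ b ∧ sc.col b p ∈ Z then al h else 0)
        ≤ al h * B.card * Z.card := by
      calc ∑ b ∈ B, ∑ p : V, (if p ≠ b ∧ sc.col b p ∈ Z then al h else 0)
          ≤ ∑ b ∈ B, al h * Z.card := by
            refine Finset.sum_le_sum fun b _ => ?_
            rw [← Finset.sum_filter, Finset.sum_const, nsmul_eq_mul, mul_comm]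
            apply mul_le_mul_of_nonneg_left _ hal
            have : (univ.filter fun p => p ≠ b ∧ sc.col b p ∈ Z).card ≤ Z.card := by
              apply Finset.card_le_card_of_injOn (fun p => sc.col b p)
              · intro p hp
                simp only [Finset.coe_filter, Finset.mem_univ, true_and,
                  Set.mem_ofPred_eq] at hp
                exact hp.2
              · intro p hp p' hp' he
                simp only [Finset.coe_filter, Finset.mem_univ, true_and,
                  Set.mem_ofPred_eq] at hp hp'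
                by_contra hne
                exact sc.proper b p p' hp.1.symm hp'.1.symm hne he
            exact_mod_cast this
        _ = _ := by rw [Finset.sum_const, nsmul_eq_mul]; ring
    rw [e1]
    have := (abs_le.1 (hPR.b B Z hZN)).2
    linarith
  linarith

end Spider
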