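import Pool.Agent.Spider.Gadgets

namespace Spider
open Finset

lemma PR.mono {V : Type} [Fintype V] [DecidableEq V] {sc : SC V} {h : ℕ}
    {χ : V × V → ZMod (2 * h + 1)} {θ θ' : ℝ} (hp : PR sc h χ θ) (hθ : θ ≤ θ') :
    PR sc h χ θ' where
  a := fun B Z => (hp.a B Z).trans (mul_le_mul_of_nonneg_right hθ (by positivity))
  b := fun B Z hZ => (hp.b B Z hZ).trans (mul_le_mul_of_nonneg_right hθ (by positivity))
  s := hp.s.trans (mul_le_mul_of_nonneg_right hθ (by positivity))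
  t := hp.t.trans (mul_le_mul_of_nonneg_right hθ (by positivity))

lemma ne_zero_of_isS {h : ℕ} {j : ZMod (2 * h + 1)} (hj : isS j) : j ≠ 0 := by
  rintro rfl; exact not_isS_zero hj

lemma ne_zero_of_isA {h : ℕ} {j : ZMod (2 * h + 1)} (hj : isA j) : j ≠ 0 := by
  rintro rfl; exact not_isA_zero hj

theorem start (h : ℕ) (hh : 1 ≤ h) (δ : ℝ) (hδ : 0 < δ) :
    ∃ θ₀ : ℝ, 0 < θ₀ ∧ ∃ N₀ : ℕ, ∀ (V : Type) [Fintype V] [DecidableEq V] (sc : SC V)
      (χ : V × V → ZMod (2 * h + 1)), N₀ ≤ Fintype.card V → PR sc h χ θ₀ →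
      ∀ (Λ : Finset (V × V)) (Rw : Finset V), Rw ⊆ clS χ → (∀ y ∈ Λ, isS (χ y)) →
        (∀ z, (z, z) ∈ Λ → z ∈ Rw) →
        ((univ.filter fun p : V × V => p.1 ≠ p.2 ∧ isS (χ (sc.col p.1 p.2)) ∧
          sc.col p.1 p.2 ∉ Λ).card : ℝ) ≤ θ₀ * (Fintype.card V : ℝ) ^ 2 →
        ∀ k : ℕ, 1 ≤ k → δ * Fintype.card V ≤ k → ∀ j : ℕ, j ≤ Rw.card →
        ∃ S T, PS sc S T ∧ S ⊆ Rw ∧ (∀ p ∈ T, sc.col p.1 p.2 ∈ Λ) ∧ S.card = j ∧
          (unc S T).card ≤ k ∧ occW sc χ S T = 0 := by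
  obtain ⟨θ₀, hθ, N₀, hN⟩ := near_perfect h hh δ hδ
  refine ⟨θ₀, hθ, N₀, ?_⟩
  intro V _ _ sc χ hV hPR Λ Rw hRw hΛ hstar hloss k hk hδk j hj
  obtain ⟨T, hT, hu⟩ := hN V sc χ hV hPR Λ Rw hRw hloss
  have hPS : PS sc Rw T := by
    refine ⟨fun p hp => (hT.mem p hp).1, ?_, hT.i1, hT.i2, hT.i3, ?_⟩
    · intro p hp hmem
      exact Finset.disjoint_left.1 (disjoint_clS_clA χ) (hRw hmem) (hT.mem p hp).2.1
    · intro p hp z hz
      apply hstar
      rw [← hz]; exact (hT.mem p hp).2.2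
  have hu' : (unc Rw T).card ≤ k := by
    have : ((unc Rw T).card : ℝ) ≤ k := le_trans hu hδk
    exact_mod_cast this
  obtain ⟨S', hS', T', hT', h1, h2, h3⟩ := trim sc k hk j (Rw.card - j) Rw T hPS hu' (by omega)
  refine ⟨S', T', h1, hS', fun p hp => (hT.mem p (hT' hp)).2.2, h2, h3, ?_⟩
  unfold occW
  rw [Finset.card_eq_zero, Finset.filter_eq_empty_iff]
  intro y hy
  rw [mem_Occ] at hy
  rcases hy with ⟨z, hz, rfl⟩ | ⟨p, hp, rfl⟩ | ⟨p, hp, rfl⟩
  · have := hRw (hS' hz)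
    apply ne_zero_of_isS
    simpa [clS] using this
  · have := (hT.mem p (hT' hp)).2.1
    apply ne_zero_of_isA
    simpa [clA] using this
  · exact ne_zero_of_isS (hΛ _ (hT.mem p (hT' hp)).2.2)

lemma unc_card_le {V : Type} [DecidableEq V] (S : Finset V) (T : Finset (V × V)) :
    (unc S T).card ≤ S.card := Finset.card_le_card Finset.sdiff_subset

lemma card_clS_ge {V : Type} [Fintype V] [DecidableEq V] {sc : SC V} {h : ℕ}
    {χ : V × V → ZMod (2 * h + 1)} {θ ε : ℝ} (hp : PR sc h χ θ) (hθ : θ ≤ ε / 8)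
    (hal : 1 / 2 - ε / 4 ≤ al h) :
    (1 / 2 - 3 * ε / 8) * Fintype.card V ≤ ((clS χ).card : ℝ) := by
  rw [card_clS]
  have h1 := (abs_le.1 hp.s).1
  have hN : (0 : ℝ) ≤ Fintype.card V := by positivity
  have h2 : (1 / 2 - ε / 4) * (Fintype.card V : ℝ) ≤ al h * Fintype.card V :=
    mul_le_mul_of_nonneg_right hal hN
  have h3 : θ * (Fintype.card V : ℝ) ≤ ε / 8 * Fintype.card V :=
    mul_le_mul_of_nonneg_right hθ hN
  have h4 : (1 / 2 - 3 * ε / 8) * (Fintype.card V : ℝ)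
      = (1 / 2 - ε / 4) * Fintype.card V - ε / 8 * Fintype.card V := by ring
  rw [h4]
  linarith

theorem caseI (h : ℕ) (hh : 1 ≤ h) (ε ρ : ℝ) (hε : 0 < ε) (hal : 1 / 2 - ε / 4 ≤ al h)
    (hρ : 0 < ρ) (hρ1 : ρ ≤ 1) :
    ∃ N₀ : ℕ, ∀ (V : Type) [Fintype V] [DecidableEq V] (sc : SC V), N₀ ≤ Fintype.card V →
      ∀ Ri : Finset V, (∀ x, x ∈ Ri ↔ ρ * Fintype.card V ≤ (Fr sc x).card) →
        2 * ρ * Fintype.card V ≤ Ri.card →
        ∀ t : ℕ, (t : ℝ) ≤ (1 / 2 - ε) * Fintype.card V → Done sc t := by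
  obtain ⟨c', hc', hgood⟩ := exists_good h (ρ ^ 2 / 64) (by positivity)
  obtain ⟨θ₀, hθ₀, N₁, hstart⟩ := start h hh (c' / 100) (by positivity)
  obtain ⟨N₂, hgood⟩ := hgood (min θ₀ (ε / 8)) (by positivity)
  obtain ⟨N₃, hN₃⟩ := exists_nat_ge (100 / c')
  obtain ⟨N₄, hN₄⟩ := exists_nat_ge (4 / ρ)
  refine ⟨N₁ + N₂ + N₃ + N₄ + 1, ?_⟩
  intro V _ _ sc hV Ri hRi hRi2 t ht
  set Nn : ℕ := Fintype.card V with hNn
  set N : ℝ := (Nn : ℝ) with hN
  have hNpos : 0 < N := by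
    rw [hN]; exact_mod_cast (by omega : 0 < Nn)
  have hNc : 100 / c' ≤ N := hN₃.trans (by rw [hN]; exact_mod_cast (by omega : N₃ ≤ Nn))
  have hNρ : 4 / ρ ≤ N := hN₄.trans (by rw [hN]; exact_mod_cast (by omega : N₄ ≤ Nn))
  rw [div_le_iff₀ hc'] at hNc
  rw [div_le_iff₀ hρ] at hNρ
  set M : ℕ := ⌈ρ * N⌉₊ with hM
  have hMge : ρ * N ≤ M := Nat.le_ceil _
  have hRiM : ∀ w ∈ Ri, M ≤ (Fr sc w).card := by
    intro w hw
    exact Nat.ceil_le.2 ((hRi w).1 hw)
  -- families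
  obtain ⟨𝒢u, u1, u2, u3, u4⟩ := fam_unit sc Ri M hRiM
  have hfam : ∀ e : V, ∃ 𝒢 : Finset (Finset (V × V)),
      (𝒢 : Set (Finset (V × V))).PairwiseDisjoint id ∧
      (∀ G ∈ 𝒢, IsG1 sc e G) ∧ (∀ G ∈ 𝒢, G.card ≤ 5) ∧ ρ ^ 2 / 64 * N ≤ 𝒢.card := by
    intro e
    by_cases he : e ∈ Ri
    · obtain ⟨𝒢, g1, g2, g3, g4⟩ := fam_F1 sc e
      refine ⟨𝒢, g1, g2, g3, ?_⟩
      have h1 := (hRi e).1 he
      have h2 : ((Fr sc e).card : ℝ) ≤ 4 * 𝒢.card := by exact_mod_cast g4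
      have h3 : ρ ^ 2 / 64 * N ≤ ρ / 4 * N := by
        apply mul_le_mul_of_nonneg_right _ hNpos.le
        nlinarith
      linarith
    · obtain ⟨𝒢, g1, g2, g3, g4⟩ := fam_F2 sc e Ri (M - 1) (by
        intro w hw
        have h1 := hRiM w hw
        have h2 : 0 < M := Nat.ceil_pos.2 (by positivity)
        omega)
      refine ⟨𝒢, g1, g2, g3, ?_⟩
      have h1 : ((Fr sc e).card : ℝ) < ρ * N := by
        by_contra hcon
        push Not at hcon
        exact he ((hRi e).2 hcon)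
      have h2 : ρ * N / 2 ≤ ((Ri.card - ((Fr sc e).card + 1) : ℕ) : ℝ) := by
        have h3 : (Ri.card : ℝ) - ((Fr sc e).card + 1)
            ≤ ((Ri.card - ((Fr sc e).card + 1) : ℕ) : ℝ) := by
          have h0 : Ri.card ≤ (Ri.card - ((Fr sc e).card + 1)) + ((Fr sc e).card + 1) := by omega
          have h0' : (Ri.card : ℝ) ≤ ((Ri.card - ((Fr sc e).card + 1) : ℕ) : ℝ)
              + ((Fr sc e).card + 1) := by exact_mod_cast h0
          linarith
        linarith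
      have h3 : ρ * N / 2 ≤ ((M - 1 : ℕ) : ℝ) := by
        have h0 : M ≤ (M - 1) + 1 := by omega
        have h0' : (M : ℝ) ≤ ((M - 1 : ℕ) : ℝ) + 1 := by exact_mod_cast h0
        linarith
      have h4 : ((Ri.card - ((Fr sc e).card + 1) : ℕ) : ℝ) * ((M - 1 : ℕ) : ℝ)
          ≤ 16 * N * 𝒢.card := by
        have := g4
        rw [← hNn] at this
        rw [hN]
        exact_mod_cast this
      have h5 : (ρ * N / 2) * (ρ * N / 2) ≤ 16 * N * 𝒢.card :=
        (mul_le_mul h2 h3 (by positivity) (by positivity)).trans h4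
      have h6 : 16 * N * (ρ ^ 2 / 64 * N) ≤ 16 * N * 𝒢.card := by
        calc 16 * N * (ρ ^ 2 / 64 * N) = (ρ * N / 2) * (ρ * N / 2) := by ring
          _ ≤ _ := h5
      exact le_of_mul_le_mul_left h6 (by positivity)
  choose 𝒢e e1 e2 e3 e4 using hfam
  have hu : ρ ^ 2 / 64 * N ≤ 𝒢u.card := by
    have h1 : (Ri.card : ℝ) * M ≤ 9 * N * 𝒢u.card := by
      have := u4
      rw [← hNn] at this
      rw [hN]
      exact_mod_cast this
    have h2 : (2 * ρ * N) * (ρ * N) ≤ 9 * N * 𝒢u.card :=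
      (mul_le_mul hRi2 hMge (by positivity) (by positivity)).trans h1
    have h3 : 9 * N * (ρ ^ 2 / 64 * N) ≤ 9 * N * 𝒢u.card := by
      calc 9 * N * (ρ ^ 2 / 64 * N) = (9 / 64) * (ρ * N) ^ 2 := by ring
        _ ≤ 2 * (ρ * N) ^ 2 := by
            apply mul_le_mul_of_nonneg_right (by norm_num) (by positivity)
        _ = (2 * ρ * N) * (ρ * N) := by ring
        _ ≤ _ := h2
    exact le_of_mul_le_mul_left h3 (by positivity)
  set 𝒢 : Option V → Finset (Finset (V × V)) := fun o => o.elim 𝒢u 𝒢e with h𝒢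
  obtain ⟨χ, hPR, hnum⟩ := hgood V sc (by omega) (Option V) (by
      rw [Fintype.card_option]; rw [← hNn]; nlinarith) 𝒢
    (by rintro (_ | e); exacts [u1, e1 e]) (by rintro (_ | e); exacts [u3, e3 e])
    (by rintro (_ | e); exacts [hu, e4 e])
  set x : ℕ := ⌊c' * N⌋₊ with hx
  have hxle : (x : ℝ) ≤ c' * N := Nat.floor_le (by positivity)
  have hxge : c' * N < x + 1 := Nat.lt_floor_add_one _
  have hF : Fam1 sc χ x := by
    constructor
    · intro e
      refine ⟨𝒢e e, e1 e, e2 e, ?_⟩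
      have := hnum (some e)
      have h2 : (x : ℝ) ≤ (numW (𝒢e e) χ : ℝ) := hxle.trans this
      exact_mod_cast h2
    · refine ⟨𝒢u, u1, u2, ?_⟩
      have := hnum none
      have h2 : (x : ℝ) ≤ (numW 𝒢u χ : ℝ) := hxle.trans this
      exact_mod_cast h2
  set k : ℕ := ⌊c' / 100 * N⌋₊ + 1 with hk
  have hkge : c' / 100 * N ≤ k := by
    rw [hk]; push_cast; exact (Nat.lt_floor_add_one _).le
  have hkle : (k : ℝ) ≤ c' / 100 * N + 1 := by
    rw [hk]; push_cast
    have : (⌊c' / 100 * N⌋₊ : ℝ) ≤ c' / 100 * N := Nat.floor_le (by positivity)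
    linarith
  have hclS := card_clS_ge hPR (min_le_right _ _) hal
  have htS : t ≤ (clS χ).card := by
    have h1 : (1 / 2 - ε) * N ≤ (1 / 2 - 3 * ε / 8) * N := by
      apply mul_le_mul_of_nonneg_right _ hNpos.le
      linarith
    have h2 : (t : ℝ) ≤ (clS χ).card := (ht.trans h1).trans hclS
    exact_mod_cast h2
  obtain ⟨S, T, hPS, hSR, hTΛ, hSc, huS, hocc⟩ := hstart V sc χ (by omega)
    (hPR.mono (min_le_left _ _)) (univ.filter fun y => isS (χ y)) (clS χ)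
    (Finset.Subset.refl _) (by intro y hy; simpa using hy) (by
      intro z hz; simpa [clS] using hz) (by
      have : (univ.filter fun p : V × V => p.1 ≠ p.2 ∧ isS (χ (sc.col p.1 p.2)) ∧
          sc.col p.1 p.2 ∉ (univ.filter fun y => isS (χ y))) = ∅ := by
        rw [Finset.filter_eq_empty_iff]
        intro p _
        simp only [Finset.mem_filter, Finset.mem_univ, true_and]
        tauto
      rw [this]; simp; positivity) k (by omega) hkge (t - k) (by omega)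
  apply asm1 hF hPS t
  · rw [hSc]
    have := unc_card_le S T
    omega
  · rw [hocc, hSc]
    have h1 : 8 * (k : ℝ) < x + 1 := by nlinarith
    have h2 : 8 * k < x + 1 := by exact_mod_cast h1
    omega

lemma sum_Rr {V : Type} [Fintype V] [DecidableEq V] (sc : SC V) :
    ∑ s, (Rr sc s).card = ∑ x, (Ms sc x).card := by
  have h1 := card_filter_prod (fun s x : V => x ∈ Rr sc s)
  have h2 := card_filter_prod (fun x s : V => s ∈ Ms sc x)
  have e1 : ∀ s : V, (univ.filter fun x => x ∈ Rr sc s) = Rr sc s := by intro s; ext; simp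
  have e2 : ∀ x : V, (univ.filter fun s => s ∈ Ms sc x) = Ms sc x := by intro s; ext; simp
  simp only [e1] at h1
  simp only [e2] at h2
  rw [← h1, ← h2]
  apply Finset.card_nbij' Prod.swap Prod.swap
  · intro p hp; simpa [mem_Rr] using hp
  · intro p hp; simpa [mem_Rr] using hp
  · intro p _; rfl
  · intro p _; rfl

/-- Markov's inequality -/
lemma markov {V : Type} [Fintype V] (f : V → ℕ) (a b : ℝ) (ha : 0 < a)
    (hs : (∑ x, (f x : ℝ)) ≤ a * b) : ((univ.filter fun x => a < f x).card : ℝ) ≤ b := by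
  have h1 : a * ((univ.filter fun x => a < f x).card : ℝ) ≤ ∑ x, (f x : ℝ) := by
    calc a * ((univ.filter fun x => a < f x).card : ℝ)
        = ∑ x ∈ univ.filter (fun x => a < f x), a := by
          rw [Finset.sum_const, nsmul_eq_mul]; ring
      _ ≤ ∑ x ∈ univ.filter (fun x => a < f x), (f x : ℝ) := by
          apply Finset.sum_le_sum
          intro x hx
          rw [Finset.mem_filter] at hx
          exact hx.2.le
      _ ≤ _ := Finset.sum_le_sum_of_subset_of_nonneg (Finset.subset_univ _)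
          (fun _ _ _ => by positivity)
  exact le_of_mul_le_mul_left (h1.trans hs) ha

theorem caseII (h : ℕ) (hh : 1 ≤ h) (ε : ℝ) (hε : 0 < ε) (hal : 1 / 2 - ε / 4 ≤ al h) :
    ∃ ρ : ℝ, 0 < ρ ∧ ρ ≤ 1 ∧
    ∃ N₀ : ℕ, ∀ (V : Type) [Fintype V] [DecidableEq V] (sc : SC V), N₀ ≤ Fintype.card V →
      ∀ Ri : Finset V, (∀ x, x ∈ Ri ↔ ρ * Fintype.card V ≤ (Fr sc x).card) →
        (Ri.card : ℝ) ≤ 2 * ρ * Fintype.card V →
        ∀ t : ℕ, 3 ≤ t → (t : ℝ) ≤ (1 / 2 - ε) * Fintype.card V → Done sc t := by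
  obtain ⟨c', hc', hgood⟩ := exists_good h (1 / 50) (by positivity)
  obtain ⟨θ₀, hθ₀, N₁, hstart⟩ := start h hh (c' / 100) (by positivity)
  obtain ⟨N₂, hgood⟩ := hgood (min θ₀ (ε / 8)) (by positivity)
  obtain ⟨N₃, hN₃⟩ := exists_nat_ge (100 / c')
  set r : ℝ := min (min (θ₀ / 3) (ε / 16)) (1 / 28) with hr
  have hr0 : 0 < r := by rw [hr]; positivity
  have hr1 : r ≤ θ₀ / 3 := (min_le_left _ _).trans (min_le_left _ _)
  have hr2 : r ≤ ε / 16 := (min_le_left _ _).trans (min_le_right _ _)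
  have hr3 : r ≤ 1 / 28 := min_le_right _ _
  refine ⟨r ^ 2 / 3, by positivity, by nlinarith, N₁ + N₂ + N₃ + 33, ?_⟩
  intro V _ _ sc hV Ri hRi hRi2 t ht3 ht
  set Nn : ℕ := Fintype.card V with hNn
  set N : ℝ := (Nn : ℝ) with hN
  have hN32 : 32 ≤ N := by
    rw [hN]; exact_mod_cast (by omega : 32 ≤ Nn)
  have hNpos : 0 < N := by linarith
  have hNc : 100 / c' ≤ N := hN₃.trans (by rw [hN]; exact_mod_cast (by omega : N₃ ≤ Nn))
  rw [div_le_iff₀ hc'] at hNc
  -- total number of free cells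
  have hFrN : ∀ x, ((Fr sc x).card : ℝ) ≤ N := by
    intro x; rw [hN]; exact_mod_cast Finset.card_le_univ _
  have hFr : ∑ x, ((Fr sc x).card : ℝ) ≤ (r * N) * (r * N) := by
    have h1 : ∀ x, ((Fr sc x).card : ℝ) ≤ r ^ 2 / 3 * N + (if x ∈ Ri then N else 0) := by
      intro x
      by_cases hx : x ∈ Ri
      · rw [if_pos hx]
        have := hFrN x
        have : 0 ≤ r ^ 2 / 3 * N := by positivity
        linarith
      · rw [if_neg hx, add_zero]
        by_contra hcon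
        push Not at hcon
        exact hx ((hRi x).2 hcon.le)
    calc ∑ x, ((Fr sc x).card : ℝ) ≤ ∑ x, (r ^ 2 / 3 * N + (if x ∈ Ri then N else 0)) :=
          Finset.sum_le_sum fun x _ => h1 x
      _ = N * (r ^ 2 / 3 * N) + Ri.card * N := by
          rw [Finset.sum_add_distrib]
          simp [hN, hNn]
      _ ≤ N * (r ^ 2 / 3 * N) + (2 * (r ^ 2 / 3) * N) * N := by
          have := mul_le_mul_of_nonneg_right hRi2 hNpos.le
          linarith
      _ = (r * N) * (r * N) := by ring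
  have hRr : ∑ x, ((Rr sc x).card : ℝ) ≤ (r * N) * (r * N) := by
    have h1 := sum_Rr sc
    have h2 : ∑ x, (Ms sc x).card ≤ ∑ x, (Fr sc x).card :=
      Finset.sum_le_sum fun x _ => card_Ms_le sc x
    have h3 : ∑ x, (Rr sc x).card ≤ ∑ x, (Fr sc x).card := by omega
    have h4 : ∑ x, ((Rr sc x).card : ℝ) ≤ ∑ x, ((Fr sc x).card : ℝ) := by exact_mod_cast h3
    exact h4.trans hFr
  set Vg : Finset V := univ.filter fun x =>
    ((Fr sc x).card : ℝ) ≤ r * N ∧ ((Rr sc x).card : ℝ) ≤ r * N with hVg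
  have hVgc : ((univ \ Vg).card : ℝ) ≤ 2 * r * N := by
    have h1 := markov (fun x => (Fr sc x).card) (r * N) (r * N) (by positivity) hFr
    have h2 := markov (fun x => (Rr sc x).card) (r * N) (r * N) (by positivity) hRr
    have h3 : univ \ Vg ⊆ (univ.filter fun x => r * N < ((Fr sc x).card : ℝ)) ∪
        (univ.filter fun x => r * N < ((Rr sc x).card : ℝ)) := by
      intro x hx
      rw [Finset.mem_sdiff, hVg, Finset.mem_filter] at hx
      rw [Finset.mem_union, Finset.mem_filter, Finset.mem_filter]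
      by_contra hcon
      push Not at hcon
      exact hx.2 ⟨Finset.mem_univ _, hcon.1 (Finset.mem_univ _), hcon.2 (Finset.mem_univ _)⟩
    have h4 := (Finset.card_le_card h3).trans (Finset.card_union_le _ _)
    have h5 : ((univ \ Vg).card : ℝ) ≤ ((univ.filter fun x => r * N < ((Fr sc x).card : ℝ)).card : ℝ)
        + ((univ.filter fun x => r * N < ((Rr sc x).card : ℝ)).card : ℝ) := by exact_mod_cast h4
    linarith
  set m : ℕ := ⌊r * N⌋₊ with hm
  have hmle : (m : ℝ) ≤ r * N := Nat.floor_le (by positivity)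
  have hFm : ∀ x ∈ Vg, (Fr sc x).card ≤ m := by
    intro x hx
    rw [hVg, Finset.mem_filter] at hx
    exact Nat.le_floor hx.2.1
  have hRm : ∀ x ∈ Vg, (Rr sc x).card ≤ m := by
    intro x hx
    rw [hVg, Finset.mem_filter] at hx
    exact Nat.le_floor hx.2.2
  have hfam : ∀ p : V × V, ∃ 𝒢 : Finset (Finset (V × V)),
      (𝒢 : Set (Finset (V × V))).PairwiseDisjoint id ∧
      (p.1 ∈ Vg → p.2 ∈ Vg → ∀ G ∈ 𝒢, IsG2 sc Vg p.1 p.2 G) ∧ (∀ G ∈ 𝒢, G.card ≤ 5) ∧
      (p.1 ∈ Vg → p.2 ∈ Vg → 1 / 50 * N ≤ 𝒢.card) := by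
    intro p
    by_cases hp : p.1 ∈ Vg ∧ p.2 ∈ Vg
    · obtain ⟨𝒢, g1, g2, g3, g4⟩ := fam_star sc Vg (univ \ Vg).card m le_rfl hFm hRm p.1 p.2
        hp.1 hp.2
      refine ⟨𝒢, g1, fun _ _ => g2, g3, fun _ _ => ?_⟩
      rw [← hNn] at g4
      have g4' : N * N ≤ 25 * N * 𝒢.card + N * (2 * ((univ \ Vg).card : ℝ) + 3 * m + 8) := by
        rw [hN]; exact_mod_cast g4
      have h1 : 2 * ((univ \ Vg).card : ℝ) + 3 * m + 8 ≤ N / 2 := by
        have : r * N ≤ 1 / 28 * N := mul_le_mul_of_nonneg_right hr3 hNpos.le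
        linarith
      have h2 : N * (2 * ((univ \ Vg).card : ℝ) + 3 * m + 8) ≤ N * (N / 2) :=
        mul_le_mul_of_nonneg_left h1 hNpos.le
      have h3 : N * (1 / 50 * N) ≤ N * 𝒢.card := by
        have : N * (1 / 50 * N) = (N * N - N * (N / 2)) / 25 := by ring
        rw [this]
        linarith
      exact le_of_mul_le_mul_left h3 hNpos
    · refine ⟨∅, by simp, fun h1 h2 => absurd ⟨h1, h2⟩ hp, by simp,
        fun h1 h2 => absurd ⟨h1, h2⟩ hp⟩
  choose 𝒢 e1 e2 e3 e4 using hfam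
  obtain ⟨χ, hPR, hnum⟩ := hgood V sc (by omega) {p : V × V // p.1 ∈ Vg ∧ p.2 ∈ Vg} (by
      have h1 : Fintype.card {p : V × V // p.1 ∈ Vg ∧ p.2 ∈ Vg} ≤ Fintype.card (V × V) :=
        Fintype.card_subtype_le _
      rw [Fintype.card_prod, ← hNn] at h1
      rw [← hNn]; nlinarith) (fun p => 𝒢 p.1)
    (fun p => e1 p.1) (fun p => e3 p.1) (fun p => e4 p.1 p.2.1 p.2.2)
  set x : ℕ := ⌊c' * N⌋₊ with hx
  have hxle : (x : ℝ) ≤ c' * N := Nat.floor_le (by positivity)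
  have hxge : c' * N < x + 1 := Nat.lt_floor_add_one _
  have hF : Fam2 sc χ Vg x := by
    intro e he s hs
    refine ⟨𝒢 (e, s), e1 (e, s), e2 (e, s) he hs, ?_⟩
    have := hnum ⟨(e, s), he, hs⟩
    have h2 : (x : ℝ) ≤ (numW (𝒢 (e, s)) χ : ℝ) := hxle.trans this
    exact_mod_cast h2
  set k : ℕ := ⌊c' / 100 * N⌋₊ + 1 with hk
  have hkge : c' / 100 * N ≤ k := by
    rw [hk]; push_cast; exact (Nat.lt_floor_add_one _).le
  have hkle : (k : ℝ) ≤ c' / 100 * N + 1 := by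
    rw [hk]; push_cast
    have : (⌊c' / 100 * N⌋₊ : ℝ) ≤ c' / 100 * N := Nat.floor_le (by positivity)
    linarith
  have hclS := card_clS_ge hPR (min_le_right _ _) hal
  set Rw : Finset V := clS χ ∩ Vg with hRw
  have htS : t ≤ Rw.card := by
    have h0 : (clS χ).card ≤ Rw.card + (univ \ Vg).card := by
      have : clS χ ⊆ Rw ∪ (univ \ Vg) := by
        intro y hy
        rw [Finset.mem_union, Finset.mem_sdiff, hRw, Finset.mem_inter]
        by_cases hyV : y ∈ Vg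
        · exact Or.inl ⟨hy, hyV⟩
        · exact Or.inr ⟨Finset.mem_univ _, hyV⟩
      exact (Finset.card_le_card this).trans (Finset.card_union_le _ _)
    have h0' : ((clS χ).card : ℝ) ≤ Rw.card + (univ \ Vg).card := by exact_mod_cast h0
    have h1 : 2 * r * N ≤ ε / 8 * N := by
      have := mul_le_mul_of_nonneg_right hr2 hNpos.le
      linarith
    have h2 : (1 / 2 - ε) * N ≤ (1 / 2 - 3 * ε / 8) * N - ε / 8 * N := by
      have : (1 / 2 - 3 * ε / 8) * N - ε / 8 * N = (1 / 2 - ε / 2) * N := by ring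
      rw [this]
      apply mul_le_mul_of_nonneg_right _ hNpos.le
      linarith
    have h3 : (t : ℝ) ≤ Rw.card := by linarith
    exact_mod_cast h3
  have hVgne : ∃ v0, v0 ∈ Vg := by
    have : 0 < Rw.card := by omega
    obtain ⟨v0, hv0⟩ := Finset.card_pos.1 this
    exact ⟨v0, (Finset.mem_inter.1 hv0).2⟩
  obtain ⟨v0, hv0⟩ := hVgne
  set Λ : Finset (V × V) := Rw.image fun z => (z, z) with hΛ
  have hmemΛ : ∀ y, y ∈ Λ ↔ ∃ z ∈ Rw, (z, z) = y := by
    intro y; rw [hΛ, Finset.mem_image]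
  have hloss : ((univ.filter fun p : V × V => p.1 ≠ p.2 ∧ isS (χ (sc.col p.1 p.2)) ∧
          sc.col p.1 p.2 ∉ Λ).card : ℝ) ≤ θ₀ * N ^ 2 := by
    have hsub : (univ.filter fun p : V × V => p.1 ≠ p.2 ∧ isS (χ (sc.col p.1 p.2)) ∧
          sc.col p.1 p.2 ∉ Λ) ⊆ (univ.filter fun p : V × V => p.2 ∈ Fr sc p.1) ∪
          ((univ \ Vg).biUnion fun z => univ.filter fun p : V × V =>
            p.1 ≠ p.2 ∧ sc.col p.1 p.2 = (z, z)) := by
      intro p hp
      rw [Finset.mem_filter] at hp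
      obtain ⟨_, h1, h2, h3⟩ := hp
      rw [Finset.mem_union, Finset.mem_filter, mem_Fr, Finset.mem_biUnion]
      by_cases h4 : ∀ z, sc.col p.1 p.2 ≠ (z, z)
      · exact Or.inl ⟨Finset.mem_univ _, h1.symm, h4⟩
      · push Not at h4
        obtain ⟨z, hz⟩ := h4
        refine Or.inr ⟨z, ?_, ?_⟩
        · rw [Finset.mem_sdiff]
          refine ⟨Finset.mem_univ _, fun hzV => h3 ?_⟩
          rw [hmemΛ]
          refine ⟨z, ?_, hz.symm⟩
          rw [hRw, Finset.mem_inter]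
          refine ⟨?_, hzV⟩
          rw [hz] at h2
          simpa [clS] using h2
        · rw [Finset.mem_filter]
          exact ⟨Finset.mem_univ _, h1, hz⟩
    have c1 : ((univ.filter fun p : V × V => p.2 ∈ Fr sc p.1).card : ℝ)
        = ∑ x, ((Fr sc x).card : ℝ) := by
      have h1 := card_filter_prod (fun x y : V => y ∈ Fr sc x)
      have e2 : ∀ x : V, (univ.filter fun s => s ∈ Fr sc x) = Fr sc x := by intro s; ext; simp
      simp only [e2] at h1
      rw [h1]; push_cast; rfl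
    have c2 : ((univ \ Vg).biUnion fun z => univ.filter fun p : V × V =>
            p.1 ≠ p.2 ∧ sc.col p.1 p.2 = (z, z)).card ≤ (univ \ Vg).card * Nn := by
      apply Finset.card_biUnion_le_card_mul
      intro z _
      rw [hNn]
      apply Finset.card_le_card_of_injOn Prod.fst (fun _ _ => Finset.mem_coe.2 (Finset.mem_univ _))
      intro p hp p' hp' he
      rw [Finset.mem_coe, Finset.mem_filter] at hp hp'
      have he' : p.1 = p'.1 := he
      refine Prod.ext he' ?_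
      apply inj_col sc (x := p.1) hp.2.1.symm (by rw [he']; exact hp'.2.1.symm)
      rw [hp.2.2, he', hp'.2.2]
    have c2' : ((((univ \ Vg).biUnion fun z => univ.filter fun p : V × V =>
            p.1 ≠ p.2 ∧ sc.col p.1 p.2 = (z, z)).card : ℕ) : ℝ) ≤ (univ \ Vg).card * N := by
      rw [hN]; exact_mod_cast c2
    have c3 := (Finset.card_le_card hsub).trans (Finset.card_union_le _ _)
    have c3' : ((univ.filter fun p : V × V => p.1 ≠ p.2 ∧ isS (χ (sc.col p.1 p.2)) ∧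
          sc.col p.1 p.2 ∉ Λ).card : ℝ)
        ≤ ((univ.filter fun p : V × V => p.2 ∈ Fr sc p.1).card : ℝ)
          + ((((univ \ Vg).biUnion fun z => univ.filter fun p : V × V =>
            p.1 ≠ p.2 ∧ sc.col p.1 p.2 = (z, z)).card : ℕ) : ℝ) := by exact_mod_cast c3
    have c4 : ((univ \ Vg).card : ℝ) * N ≤ 2 * r * N * N :=
      mul_le_mul_of_nonneg_right hVgc hNpos.le
    have c5 : r * N * (r * N) ≤ r * N * N := by
      have : r * N ≤ N := by nlinarith
      exact mul_le_mul_of_nonneg_left this (by positivity)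
    have c6 : 3 * (r * N * N) ≤ θ₀ * N ^ 2 := by
      have : 3 * (r * N * N) = (3 * r) * N ^ 2 := by ring
      rw [this]
      apply mul_le_mul_of_nonneg_right _ (by positivity)
      linarith
    calc _ ≤ _ := c3'
      _ ≤ (r * N) * (r * N) + 2 * r * N * N := by rw [c1]; linarith
      _ ≤ _ := by linarith
  obtain ⟨S, T, hPS, hSR, hTΛ, hSc, huS, hocc⟩ := hstart V sc χ (by omega)
    (hPR.mono (min_le_left _ _)) Λ Rw Finset.inter_subset_left (by
      intro y hy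
      obtain ⟨z, hz, rfl⟩ := (hmemΛ y).1 hy
      have := (Finset.mem_inter.1 hz).1
      simpa [clS] using this) (by
      intro z hz
      obtain ⟨z', hz', he⟩ := (hmemΛ _).1 hz
      have : z' = z := (Prod.ext_iff.1 he).1
      rw [← this]; exact hz') hloss k (by omega) hkge (t - (2 * k + 3)) (by omega)
  have hPS2 : PS2 sc Vg S T := by
    refine ⟨hPS, fun y hy => (Finset.mem_inter.1 (hSR hy)).2, ?_⟩
    intro p hp
    obtain ⟨z, _, hz⟩ := (hmemΛ _).1 (hTΛ p hp)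
    exact ⟨z, hz.symm⟩
  apply asm2 hF hv0 hPS2 t
  · rw [hSc]
    have := unc_card_le S T
    omega
  · rw [hocc, hSc]
    have h1 : 14 * (k : ℝ) + 18 < x + 1 := by nlinarith
    have h2 : 14 * k + 18 < x + 1 := by exact_mod_cast h1
    omega

theorem exists_h (ε : ℝ) (hε : 0 < ε) : ∃ h : ℕ, 1 ≤ h ∧ 1 / 2 - ε / 4 ≤ al h := by
  obtain ⟨h, hh⟩ := exists_nat_ge (1 / ε)
  refine ⟨h + 1, by omega, ?_⟩
  unfold al
  push_cast
  rw [le_div_iff₀ (by positivity)]
  rw [div_le_iff₀ hε] at hh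
  have : (0 : ℝ) ≤ h := by positivity
  nlinarith

theorem main (ε : ℝ) (hε : 0 < ε) :
    ∃ N₀ : ℕ, ∀ (V : Type) [Fintype V] [DecidableEq V] (sc : SC V), N₀ ≤ Fintype.card V →
      ∀ t : ℕ, 3 ≤ t → (t : ℝ) ≤ (1 / 2 - ε) * Fintype.card V → Done sc t := by
  classical
  obtain ⟨h, hh, hal⟩ := exists_h ε hε
  obtain ⟨ρ, hρ, hρ1, N₁, hN₁⟩ := caseII h hh ε hε hal
  obtain ⟨N₂, hN₂⟩ := caseI h hh ε ρ hε hal hρ hρ1
  refine ⟨N₁ + N₂, ?_⟩
  intro V _ _ sc hV t ht3 ht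
  set Ri : Finset V := univ.filter fun x => ρ * Fintype.card V ≤ (Fr sc x).card with hRi
  have hmem : ∀ x, x ∈ Ri ↔ ρ * Fintype.card V ≤ (Fr sc x).card := by
    intro x; rw [hRi, Finset.mem_filter]; simp
  rcases le_total (2 * ρ * Fintype.card V) (Ri.card : ℝ) with hc | hc
  · exact hN₂ V sc (by omega) Ri hmem hc t ht
  · exact hN₁ V sc (by omega) Ri hmem hc t ht3 ht

end Spider
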