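import Pool.Agent.Spider.Growth

namespace Spider
open Finset

variable {V : Type} [Fintype V] [DecidableEq V]

/-- vertices of class S -/
def clS {h : ℕ} (χ : V × V → ZMod (2 * h + 1)) : Finset V := univ.filter fun z => isS (χ (z, z))
/-- vertices of class A -/
def clA {h : ℕ} (χ : V × V → ZMod (2 * h + 1)) : Finset V := univ.filter fun z => isA (χ (z, z))

lemma card_clS {h : ℕ} (χ : V × V → ZMod (2 * h + 1)) :
    ((clS χ).card : ℝ) = ∑ z : V, gS h (χ (z, z)) + al h * Fintype.card V := by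
  unfold gS clS
  rw [Finset.sum_sub_distrib]
  simp [Finset.sum_boole]
  ring

lemma card_clA {h : ℕ} (χ : V × V → ZMod (2 * h + 1)) :
    ((clA χ).card : ℝ) = ∑ z : V, gA h (χ (z, z)) + al h * Fintype.card V := by
  unfold gA clA
  rw [Finset.sum_sub_distrib]
  simp [Finset.sum_boole]
  ring

lemma disjoint_clS_clA {h : ℕ} (χ : V × V → ZMod (2 * h + 1)) : Disjoint (clS χ) (clA χ) := by
  rw [Finset.disjoint_left]
  intro a ha hb
  simp only [clS, clA, Finset.mem_filter, Finset.mem_univ, true_and] at ha hb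
  exact not_isS_of_isA hb ha

omit [DecidableEq V] in
lemma exists_max_VM (sc : SC V) (Rw A : Finset V) (Λ : Finset (V × V)) :
    ∃ T, VM sc Rw A Λ T ∧ ∀ T', VM sc Rw A Λ T' → T'.card ≤ T.card := by
  classical
  set F : Finset (Finset (V × V)) := univ.filter fun T => VM sc Rw A Λ T with hF
  have hne : F.Nonempty := by
    refine ⟨∅, ?_⟩
    rw [hF, Finset.mem_filter]
    refine ⟨Finset.mem_univ _, ⟨?_, ?_, ?_, ?_⟩⟩ <;> intro p hp <;> simp at hp
  obtain ⟨T, hT, hmax⟩ := Finset.exists_max_image F Finset.card hne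
  rw [hF, Finset.mem_filter] at hT
  exact ⟨T, hT.2, fun T' hT' => hmax T' (by rw [hF, Finset.mem_filter]; exact ⟨Finset.mem_univ _, hT'⟩)⟩

theorem near_perfect (h : ℕ) (hh : 1 ≤ h) (δ : ℝ) (hδ : 0 < δ) :
    ∃ θ₀ : ℝ, 0 < θ₀ ∧ ∃ N₀ : ℕ, ∀ (V : Type) [Fintype V] [DecidableEq V] (sc : SC V)
      (χ : V × V → ZMod (2 * h + 1)), N₀ ≤ Fintype.card V → PR sc h χ θ₀ →
      ∀ (Λ : Finset (V × V)) (Rw : Finset V), Rw ⊆ clS χ →
        ((univ.filter fun p : V × V => p.1 ≠ p.2 ∧ isS (χ (sc.col p.1 p.2)) ∧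
          sc.col p.1 p.2 ∉ Λ).card : ℝ) ≤ θ₀ * (Fintype.card V : ℝ) ^ 2 →
        ∃ T, VM sc Rw (clA χ) Λ T ∧
          ((Rw \ T.image Prod.fst).card : ℝ) ≤ δ * Fintype.card V := by
  set α := al h with hα
  have hα0 : 0 < α := by
    rw [hα]; unfold al
    have : (1:ℝ) ≤ h := by exact_mod_cast hh
    positivity
  set q : ℕ := ⌈4 / δ⌉₊ with hq
  have hq4 : 4 / δ ≤ q := Nat.le_ceil _
  have hqδ : 4 ≤ q * δ := by
    rwa [div_le_iff₀ hδ] at hq4
  have hq1 : (0 : ℝ) < q := by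
    by_contra hcon
    push Not at hcon
    have : (q : ℝ) * δ ≤ 0 := mul_nonpos_of_nonpos_of_nonneg hcon hδ.le
    linarith
  set β0 : ℝ := δ / (2 * q) with hβ0
  have hβ0pos : 0 < β0 := by positivity
  set θ₀ : ℝ := min (δ / 8) (α * β0 * δ / 24) with hθ₀
  have hθpos : 0 < θ₀ := by rw [hθ₀]; positivity
  have hθ1 : θ₀ ≤ δ / 8 := min_le_left _ _
  have hθ2 : θ₀ ≤ α * β0 * δ / 24 := min_le_right _ _
  obtain ⟨N₁, hN₁⟩ := exists_nat_ge (2 * q / δ)
  obtain ⟨N₂, hN₂⟩ := exists_nat_ge (4 / δ)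
  refine ⟨θ₀, hθpos, N₁ + N₂ + 1, ?_⟩
  intro V _ _ sc χ hV hPR Λ Rw hRw hloss
  set Nn : ℕ := Fintype.card V with hNn
  set N : ℝ := (Nn : ℝ) with hN
  have hNpos : 0 < N := by
    rw [hN]; exact_mod_cast (by omega : 0 < Nn)
  have hNq : 2 * q / δ ≤ N := hN₁.trans (by rw [hN]; exact_mod_cast (by omega : N₁ ≤ Nn))
  have hN4 : 4 / δ ≤ N := hN₂.trans (by rw [hN]; exact_mod_cast (by omega : N₂ ≤ Nn))
  rw [div_le_iff₀ hδ] at hNq hN4
  obtain ⟨T, hT, hmax⟩ := exists_max_VM sc Rw (clA χ) Λ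
  refine ⟨T, hT, ?_⟩
  by_contra hcon
  push Not at hcon
  set β : ℕ := ⌊δ * N / q⌋₊ with hβ
  have hβle : (β : ℝ) ≤ δ * N / q := Nat.floor_le (by positivity)
  have hβge : β0 * N ≤ β := by
    have h1 := Nat.lt_floor_add_one (δ * N / q)
    rw [← hβ] at h1
    have h2 : 1 ≤ δ * N / (2 * q) := by
      rw [le_div_iff₀ (by positivity)]; linarith
    have h3 : δ * N / q = 2 * (δ * N / (2 * q)) := by field_simp
    have h4 : β0 * N = δ * N / (2 * q) := by rw [hβ0]; ring
    rw [h4]; linarith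
  set η : ℕ := ⌈3 * θ₀ * N / (α * β0)⌉₊ with hη
  have hηle : (η : ℝ) ≤ δ * N / 8 + 1 := by
    have h1 := Nat.ceil_lt_add_one (show 0 ≤ 3 * θ₀ * N / (α * β0) by positivity)
    rw [← hη] at h1
    have h2 : 3 * θ₀ * N / (α * β0) ≤ δ * N / 8 := by
      rw [div_le_iff₀ (by positivity)]
      have : 3 * θ₀ * N ≤ 3 * (α * β0 * δ / 24) * N := by
        apply mul_le_mul_of_nonneg_right _ hNpos.le
        linarith
      linarith
    linarith
  have hηge : 3 * θ₀ * N / (α * β0) ≤ η := Nat.le_ceil _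
  -- growth
  have growth : ∀ B ⊆ Rw, ∀ Kk ⊆ clA χ, β ≤ B.card →
      Kk.card ≤ (cols sc (B ×ˢ Kk) ∩ Λ).card + η := by
    intro B hB Kk hKk hβB
    have hd : Disjoint B Kk :=
      Finset.disjoint_of_subset_left (hB.trans hRw)
        (Finset.disjoint_of_subset_right hKk (disjoint_clS_clA χ))
    have hg := growth_real sc hPR Λ θ₀ hθpos.le hθpos.le hloss B Kk hd (by
      intro a ha
      have := hKk ha
      simpa [clA] using this)
    have hBge : β0 * N ≤ B.card := hβge.trans (by exact_mod_cast hβB)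
    have hBpos : (0 : ℝ) < B.card := lt_of_lt_of_le (by positivity) hBge
    have h1 : α * B.card * (Kk.card : ℝ) ≤ α * B.card * ((cols sc (B ×ˢ Kk) ∩ Λ).card
        + 3 * θ₀ * N / (α * β0)) := by
      have h2 : 3 * θ₀ * N ^ 2 ≤ α * B.card * (3 * θ₀ * N / (α * β0)) := by
        have h3 : α * B.card * (3 * θ₀ * N / (α * β0)) = (3 * θ₀ * N / β0) * B.card := by
          field_simp
        rw [h3]
        calc 3 * θ₀ * N ^ 2 = (3 * θ₀ * N / β0) * (β0 * N) := by field_simp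
          _ ≤ _ := mul_le_mul_of_nonneg_left hBge (by positivity)
      have h4 : (2 * θ₀ + θ₀) * N ^ 2 = 3 * θ₀ * N ^ 2 := by ring
      calc α * B.card * (Kk.card : ℝ) ≤ _ := hg
        _ ≤ α * B.card * ((cols sc (B ×ˢ Kk) ∩ Λ).card : ℝ)
            + α * B.card * (3 * θ₀ * N / (α * β0)) := by
            rw [h4]
            gcongr
        _ = _ := by ring
    have h5 := le_of_mul_le_mul_left h1 (by positivity)
    have h6 : (Kk.card : ℝ) ≤ (cols sc (B ×ˢ Kk) ∩ Λ).card + η := by linarith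
    exact_mod_cast h6
  have hqβ : q * β ≤ (Rw \ T.image Prod.fst).card := by
    have h1 : (q : ℝ) * β ≤ δ * N := by
      calc (q : ℝ) * β ≤ q * (δ * N / q) := mul_le_mul_of_nonneg_left hβle hq1.le
        _ = δ * N := by field_simp
    have h2 : ((q * β : ℕ) : ℝ) ≤ ((Rw \ T.image Prod.fst).card : ℝ) := by
      push_cast; linarith
    exact_mod_cast h2
  have hex := exchange sc Rw (clA χ) Λ T hT hmax β η q growth hqβ
  have hexR : ((q : ℝ) + 1) * ((clA χ \ T.image Prod.snd).card : ℝ)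
      ≤ (clA χ).card + q * η := by exact_mod_cast hex
  -- sizes
  have hTfst : (T.image Prod.fst).card = T.card :=
    Finset.card_image_of_injOn fun p hp p' hp' he => hT.i1 p hp p' hp' he
  have hTsnd : (T.image Prod.snd).card = T.card :=
    Finset.card_image_of_injOn fun p hp p' hp' he => hT.i2 p hp p' hp' he
  have hsub1 : T.image Prod.fst ⊆ Rw := by
    intro x hx
    obtain ⟨p, hp, rfl⟩ := Finset.mem_image.1 hx
    exact (hT.mem p hp).1
  have hsub2 : T.image Prod.snd ⊆ clA χ := by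
    intro x hx
    obtain ⟨p, hp, rfl⟩ := Finset.mem_image.1 hx
    exact (hT.mem p hp).2.1
  have c1 : (Rw \ T.image Prod.fst).card + T.card = Rw.card := by
    rw [Finset.card_sdiff_of_subset hsub1, hTfst]
    have := Finset.card_le_card hsub1
    rw [hTfst] at this
    omega
  have c2 : (clA χ \ T.image Prod.snd).card + T.card = (clA χ).card := by
    rw [Finset.card_sdiff_of_subset hsub2, hTsnd]
    have := Finset.card_le_card hsub2
    rw [hTsnd] at this
    omega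
  have c1R : ((Rw \ T.image Prod.fst).card : ℝ) + T.card = Rw.card := by exact_mod_cast c1
  have c2R : ((clA χ \ T.image Prod.snd).card : ℝ) + T.card = (clA χ).card := by
    exact_mod_cast c2
  have hRwle : (Rw.card : ℝ) ≤ (clS χ).card := by exact_mod_cast Finset.card_le_card hRw
  have hS := card_clS χ
  have hA := card_clA χ
  have hs := (abs_le.1 hPR.s).2
  have ht := (abs_le.1 hPR.t).1
  have hAN : ((clA χ).card : ℝ) ≤ N := by
    rw [hN]; exact_mod_cast Finset.card_le_univ _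
  have hA0 : 3 / 4 * δ * N ≤ ((clA χ \ T.image Prod.snd).card : ℝ) := by
    have h7 : θ₀ * N ≤ δ / 8 * N := mul_le_mul_of_nonneg_right hθ1 hNpos.le
    have h8 : 3 / 4 * δ * N = δ * N - 2 * (δ / 8 * N) := by ring
    rw [h8]
    rw [hS] at hRwle
    rw [hA] at c2R
    linarith
  have f1 : ((q : ℝ) + 1) * (3 / 4 * δ * N) ≤ N + q * (δ * N / 8 + 1) := by
    calc ((q : ℝ) + 1) * (3 / 4 * δ * N)
        ≤ ((q : ℝ) + 1) * ((clA χ \ T.image Prod.snd).card : ℝ) :=
          mul_le_mul_of_nonneg_left hA0 (by positivity)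
      _ ≤ (clA χ).card + q * η := hexR
      _ ≤ N + q * (δ * N / 8 + 1) := by
          have := mul_le_mul_of_nonneg_left hηle hq1.le
          linarith
  have f2 : 4 * N ≤ q * δ * N := mul_le_mul_of_nonneg_right hqδ hNpos.le
  have f3 : (q : ℝ) * 4 ≤ q * (N * δ) := mul_le_mul_of_nonneg_left hN4 hq1.le
  have hY : 0 < δ * N := mul_pos hδ hNpos
  have hX : 0 ≤ q * δ * N := by positivity
  have e1 : ((q : ℝ) + 1) * (3 / 4 * δ * N) = 3 / 4 * (q * δ * N) + 3 / 4 * (δ * N) := by ring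
  have e2 : N + q * (δ * N / 8 + 1) = N + 1 / 8 * (q * δ * N) + q := by ring
  have e3 : (q : ℝ) * (N * δ) = q * δ * N := by ring
  rw [e1, e2] at f1
  rw [e3] at f3
  linarith

end Spider
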