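import Pool.Agent.Spider.Fourth

namespace Spider
open Finset

/-- Normalised proper colouring of the pairs of `V` together with star colours `(z,z)`. -/
structure SC (V : Type) where
  col : V → V → V × V
  symm : ∀ x y, col x y = col y x
  proper : ∀ x y z, x ≠ y → x ≠ z → y ≠ z → col x y ≠ col x z
  star_ne : ∀ x y, x ≠ y → col x y ≠ (x, x)

variable {V : Type} [Fintype V] [DecidableEq V]

/-- class S -/
def isS {h : ℕ} (j : ZMod (2 * h + 1)) : Prop := 1 ≤ j.val ∧ j.val ≤ h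
/-- class A -/
def isA {h : ℕ} (j : ZMod (2 * h + 1)) : Prop := h + 1 ≤ j.val

instance {h : ℕ} (j : ZMod (2 * h + 1)) : Decidable (isS j) := by unfold isS; infer_instance
instance {h : ℕ} (j : ZMod (2 * h + 1)) : Decidable (isA j) := by unfold isA; infer_instance

lemma not_isS_of_isA {h : ℕ} {j : ZMod (2 * h + 1)} (hj : isA j) : ¬ isS j := by
  unfold isA at hj; unfold isS; omega

lemma not_isS_zero {h : ℕ} : ¬ isS (0 : ZMod (2 * h + 1)) := by
  unfold isS; simp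

lemma not_isA_zero {h : ℕ} : ¬ isA (0 : ZMod (2 * h + 1)) := by
  unfold isA; simp

noncomputable def al (h : ℕ) : ℝ := (h : ℝ) / (2 * h + 1)

noncomputable def gS (h : ℕ) (j : ZMod (2 * h + 1)) : ℝ := (if isS j then 1 else 0) - al h
noncomputable def gA (h : ℕ) (j : ZMod (2 * h + 1)) : ℝ := (if isA j then 1 else 0) - al h

lemma al_nonneg (h : ℕ) : 0 ≤ al h := by unfold al; positivity
lemma al_le_one (h : ℕ) : al h ≤ 1 := by
  unfold al
  rw [div_le_one (by positivity)]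
  have : (0:ℝ) ≤ h := by positivity
  linarith

lemma card_isS (h : ℕ) : (univ.filter (fun j : ZMod (2 * h + 1) => isS j)).card = h := by
  have : (univ.filter (fun j : ZMod (2 * h + 1) => isS j)).card = (Finset.Icc 1 h).card := by
    apply Finset.card_nbij' (fun j : ZMod (2 * h + 1) => (j.val : ℕ)) (fun n : ℕ => (n : ZMod (2 * h + 1)))
    · intro j hj
      simp only [Finset.coe_filter, Finset.mem_univ, true_and, Set.mem_ofPred_eq] at hj
      simpa [isS] using hj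
    · intro n hn
      simp only [Finset.coe_Icc, Set.mem_Icc] at hn
      simp only [Finset.coe_filter, Finset.mem_univ, true_and, Set.mem_ofPred_eq]
      show 1 ≤ ((n : ZMod (2 * h + 1))).val ∧ ((n : ZMod (2 * h + 1))).val ≤ h
      rw [ZMod.val_natCast, Nat.mod_eq_of_lt (by omega)]
      exact hn
    · intro j _
      simp
    · intro n hn
      simp only [Finset.coe_Icc, Set.mem_Icc] at hn
      simp only
      rw [ZMod.val_natCast, Nat.mod_eq_of_lt (by omega)]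
  rw [this]; simp

lemma card_isA (h : ℕ) : (univ.filter (fun j : ZMod (2 * h + 1) => isA j)).card = h := by
  have : (univ.filter (fun j : ZMod (2 * h + 1) => isA j)).card
      = (Finset.Icc (h + 1) (2 * h)).card := by
    apply Finset.card_nbij' (fun j : ZMod (2 * h + 1) => (j.val : ℕ)) (fun n : ℕ => (n : ZMod (2 * h + 1)))
    · intro j hj
      simp only [Finset.coe_filter, Finset.mem_univ, true_and, Set.mem_ofPred_eq] at hj
      simp only [Finset.coe_Icc, Set.mem_Icc]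
      unfold isA at hj
      have := ZMod.val_lt j
      omega
    · intro n hn
      simp only [Finset.coe_Icc, Set.mem_Icc] at hn
      simp only [Finset.coe_filter, Finset.mem_univ, true_and, Set.mem_ofPred_eq]
      show h + 1 ≤ ((n : ZMod (2 * h + 1))).val
      rw [ZMod.val_natCast, Nat.mod_eq_of_lt (by omega)]
      exact hn.1
    · intro j _
      simp
    · intro n hn
      simp only [Finset.coe_Icc, Set.mem_Icc] at hn
      simp only
      rw [ZMod.val_natCast, Nat.mod_eq_of_lt (by omega)]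
  rw [this]; simp; omega

lemma sum_gS (h : ℕ) : ∑ j, gS h j = 0 := by
  unfold gS
  rw [Finset.sum_sub_distrib]
  simp only [Finset.sum_boole, card_isS, Finset.sum_const, Finset.card_univ, ZMod.card,
    nsmul_eq_mul]
  unfold al
  push_cast
  field_simp
  ring

lemma sum_gA (h : ℕ) : ∑ j, gA h j = 0 := by
  unfold gA
  rw [Finset.sum_sub_distrib]
  simp only [Finset.sum_boole, card_isA, Finset.sum_const, Finset.card_univ, ZMod.card,
    nsmul_eq_mul]
  unfold al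
  push_cast
  field_simp
  ring

lemma abs_gS (h : ℕ) (j) : |gS h j| ≤ 1 := by
  have h1 := al_nonneg h
  have h2 := al_le_one h
  unfold gS
  rw [abs_le]
  split_ifs <;> constructor <;> linarith

lemma abs_gA (h : ℕ) (j) : |gA h j| ≤ 1 := by
  have h1 := al_nonneg h
  have h2 := al_le_one h
  unfold gA
  rw [abs_le]
  split_ifs <;> constructor <;> linarith

lemma conf1 (sc : SC V) : Conf (fun _ p => p) (fun b p => sc.col b p) where
  h1 := fun _ _ _ _ _ h => h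
  h2 := by
    intro b p p' hp hp' h
    by_contra hne
    exact sc.proper b p p' hp.symm hp'.symm hne h
  h3 := by
    intro b b' p p' hb hp hp' h h2
    have h : p = p' := h
    subst h
    rw [sc.symm b p, sc.symm b' p] at h2
    exact sc.proper p b b' hp hp' hb h2

lemma conf2 (sc : SC V) : Conf (fun b p => sc.col b p) (fun _ p => ((p, p) : V × V)) where
  h1 := by
    intro b p p' hp hp' h
    by_contra hne
    exact sc.proper b p p' hp.symm hp'.symm hne h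
  h2 := by
    intro b p p' _ _ h
    exact (Prod.ext_iff.1 h).1
  h3 := by
    intro b b' p p' hb hp hp' h h2
    have : p = p' := (Prod.ext_iff.1 h2).1
    subst this
    have h : sc.col b p = sc.col b' p := h
    rw [sc.symm b p, sc.symm b' p] at h
    exact sc.proper p b b' hp hp' hb h

/-- pseudorandomness of the classes -/
structure PR (sc : SC V) (h : ℕ) (χ : V × V → ZMod (2 * h + 1)) (θ : ℝ) : Prop where
  a : ∀ B Z : Finset V, |∑ b ∈ B, ∑ p : V, if p ≠ b ∧ p ∈ Z then gS h (χ (sc.col b p)) else 0|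
      ≤ θ * (Fintype.card V : ℝ) ^ 2
  b : ∀ (B : Finset V) (Z : Finset (V × V)), Z.card ≤ Fintype.card V →
      |∑ b ∈ B, ∑ p : V, if p ≠ b ∧ sc.col b p ∈ Z then gA h (χ (p, p)) else 0|
      ≤ θ * (Fintype.card V : ℝ) ^ 2
  s : |∑ z : V, gS h (χ (z, z))| ≤ θ * Fintype.card V
  t : |∑ z : V, gA h (χ (z, z))| ≤ θ * Fintype.card V

lemma abs_le_of_pow4 {s T : ℝ} (hT : 0 ≤ T) (h : s ^ 4 ≤ T ^ 4) : |s| ≤ T := by
  have h1 : |s| ^ 4 ≤ T ^ 4 := by
    have : |s| ^ 4 = s ^ 4 := by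
      have : |s| ^ 4 = (|s| ^ 2) ^ 2 := by ring
      rw [this, sq_abs]; ring
    rw [this]; exact h
  exact le_of_pow_le_pow_left₀ (by norm_num) hT h1

lemma exists_N_exp (a : ℝ) (ha : 0 < a) : ∃ N₀ : ℕ, ∀ N : ℕ, N₀ ≤ N →
    ((N : ℝ) + 1) ^ 2 * Real.exp (-(a * N)) ≤ 1 / 5 := by
  have h1 : Filter.Tendsto (fun x : ℝ => x ^ 2 * Real.exp (-x)) Filter.atTop (nhds 0) :=
    Real.tendsto_pow_mul_exp_neg_atTop_nhds_zero 2
  have h2 : Filter.Tendsto (fun N : ℕ => a * ((N : ℝ) + 1)) Filter.atTop Filter.atTop := by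
    apply Filter.Tendsto.const_mul_atTop ha
    exact Filter.tendsto_atTop_add_const_right _ _ tendsto_natCast_atTop_atTop
  have h3 := h1.comp h2
  have h4 : ∀ᶠ N : ℕ in Filter.atTop,
      ((fun x : ℝ => x ^ 2 * Real.exp (-x)) ∘ fun N : ℕ => a * ((N : ℝ) + 1)) N
        < a ^ 2 * Real.exp (-a) / 5 := by
    apply h3.eventually_lt_const
    positivity
  rw [Filter.eventually_atTop] at h4
  obtain ⟨N₀, hN₀⟩ := h4
  refine ⟨N₀, fun N hN => ?_⟩
  have := hN₀ N hN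
  simp only [Function.comp] at this
  have e : Real.exp (-(a * ((N : ℝ) + 1))) = Real.exp (-(a * N)) * Real.exp (-a) := by
    rw [← Real.exp_add]; congr 1; ring
  rw [e] at this
  have ha2 : 0 < a ^ 2 * Real.exp (-a) := by positivity
  have : a ^ 2 * Real.exp (-a) * (((N : ℝ) + 1) ^ 2 * Real.exp (-(a * N)))
      < a ^ 2 * Real.exp (-a) * (1 / 5) := by
    calc _ = (a * ((N : ℝ) + 1)) ^ 2 * (Real.exp (-(a * N)) * Real.exp (-a)) := by ring
      _ < _ := this
      _ = _ := by ring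
  exact (lt_of_mul_lt_mul_left this ha2.le).le

theorem exists_good (h : ℕ) (c : ℝ) (hc : 0 < c) :
    ∃ c' : ℝ, 0 < c' ∧ ∀ θ : ℝ, 0 < θ → ∃ N₀ : ℕ,
    ∀ (V : Type) [Fintype V] [DecidableEq V] (sc : SC V), N₀ ≤ Fintype.card V →
    ∀ (P : Type) [Fintype P], Fintype.card P ≤ (Fintype.card V + 1) ^ 2 →
    ∀ 𝒢 : P → Finset (Finset (V × V)),
      (∀ p, (𝒢 p : Set (Finset (V × V))).PairwiseDisjoint id) →
      (∀ p, ∀ G ∈ 𝒢 p, G.card ≤ 5) →
      (∀ p, c * Fintype.card V ≤ (𝒢 p).card) →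
    ∃ χ : V × V → ZMod (2 * h + 1), PR sc h χ θ ∧ ∀ p, c' * Fintype.card V ≤ numW (𝒢 p) χ := by
  set K : ℝ := ((2 * h + 1 : ℕ) : ℝ) with hK
  have hK1 : 1 ≤ K := by rw [hK]; push_cast; have : (0:ℝ) ≤ h := by positivity
                         linarith
  set q : ℝ := 1 / (2 * K ^ 5) with hq
  have hq0 : 0 < q := by rw [hq]; positivity
  have hq1 : q ≤ 1 := by
    rw [hq, div_le_one (by positivity)]
    have : 1 ≤ K ^ 5 := one_le_pow₀ hK1
    linarith
  refine ⟨q * c / 4, by positivity, fun θ hθ => ?_⟩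
  obtain ⟨N₁, hN₁⟩ := exists_N_exp (q * c / 2) (by positivity)
  obtain ⟨N₂, hN₂⟩ := exists_nat_ge (20 / θ ^ 4)
  obtain ⟨N₃, hN₃⟩ := exists_nat_ge (10 / θ ^ 2)
  obtain ⟨N₄, hN₄⟩ := exists_nat_ge (4 / (q * c))
  refine ⟨N₁ + N₂ + N₃ + N₄ + 1, ?_⟩
  intro V _ _ sc hV P _ hP 𝒢 hdis hcard hlarge
  set N : ℕ := Fintype.card V with hN
  have hNpos : (0 : ℝ) < N := by
    have : 0 < N := by omega
    exact_mod_cast this
  have hexp := hN₁ N (by omega)
  have hN20 : 20 ≤ θ ^ 4 * N := by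
    have : (N₂ : ℝ) ≤ N := by exact_mod_cast (by omega : N₂ ≤ N)
    have h2 : 20 / θ ^ 4 ≤ N := hN₂.trans this
    rw [div_le_iff₀ (by positivity)] at h2
    linarith
  have hN10 : 10 ≤ θ ^ 2 * N := by
    have : (N₃ : ℝ) ≤ N := by exact_mod_cast (by omega : N₃ ≤ N)
    have h2 : 10 / θ ^ 2 ≤ N := hN₃.trans this
    rw [div_le_iff₀ (by positivity)] at h2
    linarith
  have hN4 : 4 ≤ q * c * N := by
    have : (N₄ : ℝ) ≤ N := by exact_mod_cast (by omega : N₄ ≤ N)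
    have h2 : 4 / (q * c) ≤ N := hN₄.trans this
    rw [div_le_iff₀ (by positivity)] at h2
    linarith
  set x : ℕ := ⌊q * c * N / 2⌋₊ with hx
  have hxle : (x : ℝ) ≤ q * c * N / 2 := Nat.floor_le (by positivity)
  have hxge : q * c / 4 * N ≤ x := by
    have := Nat.lt_floor_add_one (q * c * N / 2)
    rw [← hx] at this
    linarith
  set Mc : ℝ := (Fintype.card (V × V → ZMod (2 * h + 1)) : ℝ) with hMc
  have hMc0 : 0 < Mc := by
    rw [hMc]
    exact_mod_cast Fintype.card_pos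
  set Q1 : (V × V → ZMod (2 * h + 1)) → ℝ :=
    fun χ => Qf (fun _ p => p) (fun b p => sc.col b p) (gS h) χ with hQ1
  set Q2 : (V × V → ZMod (2 * h + 1)) → ℝ :=
    fun χ => Qf (fun b p => sc.col b p) (fun _ p => ((p, p) : V × V)) (gA h) χ with hQ2
  set D1 : (V × V → ZMod (2 * h + 1)) → ℝ := fun χ => (∑ z : V, gS h (χ (z, z))) ^ 2 with hD1
  set D2 : (V × V → ZMod (2 * h + 1)) → ℝ := fun χ => (∑ z : V, gA h (χ (z, z))) ^ 2 with hD2
  set E : (V × V → ZMod (2 * h + 1)) → ℝ :=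
    fun χ => ∑ p : P, 2 ^ x * ((1 : ℝ) / 2) ^ numW (𝒢 p) χ with hE
  have s1 : ∑ χ, Q1 χ ≤ 3 * (N : ℝ) ^ 3 * Mc := sum_Qf (conf1 sc) _ (sum_gS h) (abs_gS h)
  have s2 : ∑ χ, Q2 χ ≤ 3 * (N : ℝ) ^ 3 * Mc := sum_Qf (conf2 sc) _ (sum_gA h) (abs_gA h)
  have hdiag : Function.Injective (fun z : V => ((z, z) : V × V)) := by
    intro a b hab; exact (Prod.ext_iff.1 hab).1
  have s3 : ∑ χ, D1 χ ≤ (N : ℝ) * Mc :=
    second_moment (gS h) (sum_gS h) (abs_gS h) (fun z : V => ((z, z) : V × V)) hdiag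
  have s4 : ∑ χ, D2 χ ≤ (N : ℝ) * Mc :=
    second_moment (gA h) (sum_gA h) (abs_gA h) (fun z : V => ((z, z) : V × V)) hdiag
  have s5 : ∑ χ, E χ ≤ 1 / 5 * Mc := by
    simp only [hE]
    rw [Finset.sum_comm]
    have e1 : ∀ p : P, ∑ χ : V × V → ZMod (2 * h + 1), 2 ^ x * ((1 : ℝ) / 2) ^ numW (𝒢 p) χ
        ≤ Real.exp (-(q * c / 2 * N)) * Mc := by
      intro p
      rw [← Finset.mul_sum]
      have e2 := exp_moment (K := 2 * h + 1) (𝒢 p) (hdis p) (hcard p)
      have e3 : (2 : ℝ) ^ x ≤ Real.exp (q * c * N / 2) := by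
        calc (2 : ℝ) ^ x ≤ (Real.exp 1) ^ x := by
              apply pow_le_pow_left₀ (by norm_num)
              have := Real.add_one_le_exp (1 : ℝ)
              linarith
          _ = Real.exp x := by rw [← Real.exp_nat_mul, mul_one]
          _ ≤ _ := Real.exp_le_exp.2 hxle
      have e4 : (1 - 1 / (2 * (((2 * h + 1 : ℕ)) : ℝ) ^ 5)) ^ (𝒢 p).card
          ≤ Real.exp (-(q * c * N)) := by
        have : (1 : ℝ) - 1 / (2 * (((2 * h + 1 : ℕ)) : ℝ) ^ 5) = 1 - q := rfl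
        rw [this]
        calc (1 - q) ^ (𝒢 p).card ≤ (Real.exp (-q)) ^ (𝒢 p).card := by
              apply pow_le_pow_left₀ (by linarith)
              have := Real.add_one_le_exp (-q)
              linarith
          _ = Real.exp (((𝒢 p).card : ℝ) * (-q)) := by rw [← Real.exp_nat_mul]
          _ ≤ Real.exp (-(q * c * N)) := by
              apply Real.exp_le_exp.2
              have := hlarge p
              nlinarith
      calc (2 : ℝ) ^ x * ∑ χ : V × V → ZMod (2 * h + 1), ((1 : ℝ) / 2) ^ numW (𝒢 p) χ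
          ≤ Real.exp (q * c * N / 2) * (Real.exp (-(q * c * N)) * Mc) := by
            apply mul_le_mul e3 (e2.trans (mul_le_mul_of_nonneg_right e4 hMc0.le))
            · exact Finset.sum_nonneg fun _ _ => by positivity
            · positivity
        _ = Real.exp (-(q * c / 2 * N)) * Mc := by
            rw [← mul_assoc, ← Real.exp_add]
            congr 2
            ring
    calc ∑ p : P, ∑ χ : V × V → ZMod (2 * h + 1), 2 ^ x * ((1 : ℝ) / 2) ^ numW (𝒢 p) χ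
        ≤ ∑ p : P, Real.exp (-(q * c / 2 * N)) * Mc := Finset.sum_le_sum fun p _ => e1 p
      _ = (Fintype.card P : ℝ) * (Real.exp (-(q * c / 2 * N)) * Mc) := by simp
      _ ≤ ((N : ℝ) + 1) ^ 2 * (Real.exp (-(q * c / 2 * N)) * Mc) := by
          apply mul_le_mul_of_nonneg_right _ (by positivity)
          exact_mod_cast hP
      _ = (((N : ℝ) + 1) ^ 2 * Real.exp (-(q * c / 2 * N))) * Mc := by ring
      _ ≤ 1 / 5 * Mc := mul_le_mul_of_nonneg_right hexp hMc0.le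
  set Φ : (V × V → ZMod (2 * h + 1)) → ℝ := fun χ =>
    (1 / (20 * (N : ℝ) ^ 3)) * Q1 χ + (1 / (20 * (N : ℝ) ^ 3)) * Q2 χ
      + (1 / (10 * (N : ℝ))) * D1 χ + (1 / (10 * (N : ℝ))) * D2 χ + E χ with hΦ
  have hsum : ∑ χ, Φ χ < ∑ χ : V × V → ZMod (2 * h + 1), (1 : ℝ) := by
    simp only [hΦ]
    rw [Finset.sum_add_distrib, Finset.sum_add_distrib, Finset.sum_add_distrib,
      Finset.sum_add_distrib, ← Finset.mul_sum, ← Finset.mul_sum, ← Finset.mul_sum,
      ← Finset.mul_sum]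
    have t1 : (1 / (20 * (N : ℝ) ^ 3)) * ∑ χ, Q1 χ ≤ 3 / 20 * Mc := by
      calc (1 / (20 * (N : ℝ) ^ 3)) * ∑ χ, Q1 χ
          ≤ (1 / (20 * (N : ℝ) ^ 3)) * (3 * (N : ℝ) ^ 3 * Mc) :=
            mul_le_mul_of_nonneg_left s1 (by positivity)
        _ = _ := by field_simp
    have t2 : (1 / (20 * (N : ℝ) ^ 3)) * ∑ χ, Q2 χ ≤ 3 / 20 * Mc := by
      calc (1 / (20 * (N : ℝ) ^ 3)) * ∑ χ, Q2 χ
          ≤ (1 / (20 * (N : ℝ) ^ 3)) * (3 * (N : ℝ) ^ 3 * Mc) :=
            mul_le_mul_of_nonneg_left s2 (by positivity)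
        _ = _ := by field_simp
    have t3 : (1 / (10 * (N : ℝ))) * ∑ χ, D1 χ ≤ 1 / 10 * Mc := by
      calc (1 / (10 * (N : ℝ))) * ∑ χ, D1 χ ≤ (1 / (10 * (N : ℝ))) * ((N : ℝ) * Mc) :=
            mul_le_mul_of_nonneg_left s3 (by positivity)
        _ = _ := by field_simp
    have t4 : (1 / (10 * (N : ℝ))) * ∑ χ, D2 χ ≤ 1 / 10 * Mc := by
      calc (1 / (10 * (N : ℝ))) * ∑ χ, D2 χ ≤ (1 / (10 * (N : ℝ))) * ((N : ℝ) * Mc) :=
            mul_le_mul_of_nonneg_left s4 (by positivity)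
        _ = _ := by field_simp
    have t6 : ∑ χ : V × V → ZMod (2 * h + 1), (1 : ℝ) = Mc := by simp [hMc]
    rw [t6]
    linarith
  obtain ⟨χ, _, hχ⟩ := Finset.exists_lt_of_sum_lt hsum
  have p1 : 0 ≤ Q1 χ := Finset.sum_nonneg fun _ _ => Finset.sum_nonneg fun _ _ => sq_nonneg _
  have p2 : 0 ≤ Q2 χ := Finset.sum_nonneg fun _ _ => Finset.sum_nonneg fun _ _ => sq_nonneg _
  have p3 : 0 ≤ D1 χ := sq_nonneg _
  have p4 : 0 ≤ D2 χ := sq_nonneg _
  have p5 : ∀ p : P, 0 ≤ 2 ^ x * ((1 : ℝ) / 2) ^ numW (𝒢 p) χ := fun p => by positivity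
  have p5' : 0 ≤ E χ := Finset.sum_nonneg fun p _ => p5 p
  have r1 : 0 ≤ (1 / (20 * (N : ℝ) ^ 3)) * Q1 χ := by positivity
  have r2 : 0 ≤ (1 / (20 * (N : ℝ) ^ 3)) * Q2 χ := by positivity
  have r3 : 0 ≤ (1 / (10 * (N : ℝ))) * D1 χ := by positivity
  have r4 : 0 ≤ (1 / (10 * (N : ℝ))) * D2 χ := by positivity
  simp only [hΦ] at hχ
  have q1 : Q1 χ ≤ 20 * (N : ℝ) ^ 3 := by
    have : (1 / (20 * (N : ℝ) ^ 3)) * Q1 χ ≤ 1 := by linarith
    rw [one_div, inv_mul_le_iff₀ (by positivity)] at this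
    linarith
  have q2 : Q2 χ ≤ 20 * (N : ℝ) ^ 3 := by
    have : (1 / (20 * (N : ℝ) ^ 3)) * Q2 χ ≤ 1 := by linarith
    rw [one_div, inv_mul_le_iff₀ (by positivity)] at this
    linarith
  have q3 : D1 χ ≤ 10 * (N : ℝ) := by
    have : (1 / (10 * (N : ℝ))) * D1 χ ≤ 1 := by linarith
    rw [one_div, inv_mul_le_iff₀ (by positivity)] at this
    linarith
  have q4 : D2 χ ≤ 10 * (N : ℝ) := by
    have : (1 / (10 * (N : ℝ))) * D2 χ ≤ 1 := by linarith
    rw [one_div, inv_mul_le_iff₀ (by positivity)] at this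
    linarith
  have fourth : ∀ (s : ℝ) (B Z : ℕ) (Q : ℝ), B ≤ N → Z ≤ N → Q ≤ 20 * (N : ℝ) ^ 3 → 0 ≤ Q →
      s ^ 4 ≤ ((B : ℝ) * Z) ^ 2 * Q → |s| ≤ θ * (N : ℝ) ^ 2 := by
    intro s B Z Q hB hZ hQ hQ0 hs
    apply abs_le_of_pow4 (by positivity)
    have hB' : (B : ℝ) ≤ N := by exact_mod_cast hB
    have hZ' : (Z : ℝ) ≤ N := by exact_mod_cast hZ
    calc s ^ 4 ≤ ((B : ℝ) * Z) ^ 2 * Q := hs
      _ ≤ ((N : ℝ) * N) ^ 2 * (20 * (N : ℝ) ^ 3) := by
          apply mul_le_mul _ hQ hQ0 (by positivity)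
          apply pow_le_pow_left₀ (by positivity)
          exact mul_le_mul hB' hZ' (by positivity) (by positivity)
      _ = 20 * (N : ℝ) ^ 7 := by ring
      _ ≤ (θ ^ 4 * N) * (N : ℝ) ^ 7 := mul_le_mul_of_nonneg_right hN20 (by positivity)
      _ = (θ * (N : ℝ) ^ 2) ^ 4 := by ring
  refine ⟨χ, ⟨?_, ?_, ?_, ?_⟩, ?_⟩
  · intro B Z
    exact fourth _ B.card Z.card (Q1 χ) (Finset.card_le_univ _) (Finset.card_le_univ _) q1 p1
      (bilinear (fun _ p => p) (fun b p => sc.col b p) (gS h) χ B Z)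
  · intro B Z hZ
    exact fourth _ B.card Z.card (Q2 χ) (Finset.card_le_univ _) hZ q2 p2
      (bilinear (fun b p => sc.col b p) (fun _ p => ((p, p) : V × V)) (gA h) χ B Z)
  · apply abs_le_of_sq_le_sq _ (by positivity)
    calc (∑ z : V, gS h (χ (z, z))) ^ 2 ≤ 10 * (N : ℝ) := q3
      _ ≤ (θ ^ 2 * N) * N := mul_le_mul_of_nonneg_right hN10 hNpos.le
      _ = _ := by ring
  · apply abs_le_of_sq_le_sq _ (by positivity)
    calc (∑ z : V, gA h (χ (z, z))) ^ 2 ≤ 10 * (N : ℝ) := q4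
      _ ≤ (θ ^ 2 * N) * N := mul_le_mul_of_nonneg_right hN10 hNpos.le
      _ = _ := by ring
  · intro p
    have h1 : 2 ^ x * ((1 : ℝ) / 2) ^ numW (𝒢 p) χ ≤ E χ :=
      Finset.single_le_sum (f := fun p => 2 ^ x * ((1 : ℝ) / 2) ^ numW (𝒢 p) χ)
        (fun p _ => p5 p) (Finset.mem_univ p)
    have h2 : 2 ^ x * ((1 : ℝ) / 2) ^ numW (𝒢 p) χ < 1 := by linarith
    have h3 : x ≤ numW (𝒢 p) χ := by
      by_contra hlt
      push Not at hlt
      have : (1 : ℝ) ≤ 2 ^ x * ((1 : ℝ) / 2) ^ numW (𝒢 p) χ := by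
        rw [one_div, inv_pow, ← div_eq_mul_inv, le_div_iff₀ (by positivity), one_mul]
        exact pow_le_pow_right₀ (by norm_num) hlt.le
      linarith
    exact hxge.trans (by exact_mod_cast h3)

end Spider
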