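import Pool.Agent.Spider.Defs

namespace Spider

lemma injOn_spider {n t : ℕ} {C : Type} {c : Sym2 (Fin n) → C} (hc : ProperColouring c)
    {v : Fin n} {a b : Fin t → Fin n}
    (h1 : ∀ x, x ≠ v → x ∉ Set.range b → ∀ i, c s(v, x) ≠ c s(a i, b i))
    (h2 : ∀ i j, c s(a i, b i) = c s(a j, b j) → i = j) :
    Set.InjOn c (spiderEdges v a b) := by
  rintro e1 (⟨x, hx, hxb, rfl⟩ | ⟨i, rfl⟩) e2 (⟨y, hy, hyb, rfl⟩ | ⟨j, rfl⟩) hcc
  · by_contra hne
    apply hc v x y hx.symm hy.symm _ hcc
    rintro rfl; exact hne rfl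
  · exact absurd hcc (h1 x hx hxb j)
  · exact absurd hcc.symm (h1 y hy hyb i)
  · rw [h2 i j hcc]

/-- uniqueness of partner -/
lemma pc_inj {n : ℕ} {C : Type} {c : Sym2 (Fin n) → C} (hc : ProperColouring c) {x y z : Fin n}
    (hy : y ≠ x) (hz : z ≠ x) (h : c s(x, y) = c s(x, z)) : y = z := by
  by_contra hne
  exact hc x y z hy.symm hz.symm hne h

theorem good_one_of_odd {n : ℕ} (hn : 3 ≤ n) (ho : Odd n) : Good n 1 := by
  intro C c hc
  set x0 : Fin n := ⟨0, by omega⟩ with hx0
  set y0 : Fin n := ⟨1, by omega⟩ with hy0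
  have hxy : x0 ≠ y0 := by rw [hx0, hy0]; intro h; simp at h
  obtain ⟨v, hv⟩ : ∃ v : Fin n, ∀ x, x ≠ v → c s(v, x) ≠ c s(x0, y0) := by
    by_contra hcon
    push Not at hcon
    choose g hg hg' using hcon
    have hinv : Function.Involutive g := by
      intro v
      apply pc_inj hc (x := g v) (hg (g v)) (hg v).symm
      rw [hg' (g v), ← hg' v, Sym2.eq_swap]
    have h2 := Equiv.Perm.two_dvd_card_support (σ := hinv.toPerm g) (by
      ext x; simp [pow_two, hinv x])
    have h3 : (hinv.toPerm g).support = Finset.univ := by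
      ext x
      simp [Equiv.Perm.mem_support, hg x]
    rw [h3, Finset.card_univ, Fintype.card_fin] at h2
    exact (Nat.not_even_iff_odd.2 ho) (even_iff_two_dvd.2 h2)
  have hvx : v ≠ x0 := by
    rintro rfl
    exact hv y0 hxy.symm rfl
  have hvy : v ≠ y0 := by
    rintro rfl
    exact hv x0 hxy (by rw [Sym2.eq_swap])
  refine ⟨v, fun _ => x0, fun _ => y0, ?_, fun _ => hvx.symm, fun _ => hvy.symm, ?_⟩
  · rintro (i | i) (j | j) hij
    · rw [Subsingleton.elim i j]
    · exact absurd hij hxy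
    · exact absurd hij.symm hxy
    · rw [Subsingleton.elim i j]
  · apply injOn_spider hc
    · intro x hx _ _; exact hv x hx
    · intro i j _; exact Subsingleton.elim i j

/-- colouring with `n-1` colours for even `n` -/
def evenF (n : ℕ) (x y : Fin n) : ZMod (n - 1) :=
  if x.val = n - 1 then 2 * (y.val : ZMod (n - 1))
  else if y.val = n - 1 then 2 * (x.val : ZMod (n - 1)) else (x.val : ZMod (n - 1)) + y.val

lemma evenF_symm (n : ℕ) (x y : Fin n) : evenF n x y = evenF n y x := by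
  unfold evenF
  split_ifs with h1 h2 h2
  · rw [h1, h2]
  · rfl
  · rfl
  · ring

lemma evenF_proper {n : ℕ} (hn : 3 ≤ n) (he : Even n) (x y z : Fin n) (hxy : x ≠ y)
    (hxz : x ≠ z) (hyz : y ≠ z) : evenF n x y ≠ evenF n x z := by
  have hcast : ∀ a b : Fin n, a.val ≠ n - 1 → b.val ≠ n - 1 →
      ((a.val : ℕ) : ZMod (n - 1)) = (b.val : ZMod (n - 1)) → a = b := by
    intro a b ha hb hab
    rw [ZMod.natCast_eq_natCast_iff] at hab
    have h1 := Nat.ModEq.eq_of_lt_of_lt hab (by have := a.isLt; omega) (by have := b.isLt; omega)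
    exact Fin.ext h1
  have h2u : ∀ a b : ZMod (n - 1), 2 * a = 2 * b → a = b := by
    intro a b hab
    obtain ⟨m, hm⟩ := he
    have : ((2 : ℕ) : ZMod (n - 1)) * (m : ZMod (n - 1)) = 1 := by
      have e : 2 * m = (n - 1) + 1 := by omega
      rw [← Nat.cast_mul, e]
      push_cast
      simp
    have this' : (m : ZMod (n - 1)) * 2 = 1 := by
      rw [mul_comm]; exact_mod_cast this
    calc a = (m : ZMod (n - 1)) * 2 * a := by rw [this', one_mul]
      _ = m * (2 * a) := by ring
      _ = m * (2 * b) := by rw [hab]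
      _ = (m : ZMod (n - 1)) * 2 * b := by ring
      _ = b := by rw [this', one_mul]
  intro h
  unfold evenF at h
  split_ifs at h with h1 h2 h3 h3
  · have hy : y.val ≠ n - 1 := fun hy => hxy (Fin.ext (by omega))
    have hz : z.val ≠ n - 1 := fun hy => hxz (Fin.ext (by omega))
    exact hyz (hcast y z hy hz (h2u _ _ h))
  · exact hyz (Fin.ext (by omega))
  · have : (x.val : ZMod (n - 1)) = z.val := by
      have : (x.val : ZMod (n - 1)) + x.val = x.val + z.val := by rw [← h]; ring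
      exact add_left_cancel this
    exact hxz (hcast x z h1 h3 this)
  · have : (x.val : ZMod (n - 1)) = y.val := by
      have : (x.val : ZMod (n - 1)) + x.val = x.val + y.val := by rw [h]; ring
      exact add_left_cancel this
    exact hxy (hcast x y h1 h2 this)
  · exact hyz (hcast y z h2 h3 (add_left_cancel h))

theorem not_good_one_of_even {n : ℕ} (hn : 3 ≤ n) (he : Even n) : ¬ Good n 1 := by
  intro hg
  have : NeZero (n - 1) := ⟨by omega⟩
  set c : Sym2 (Fin n) → ZMod (n - 1) := Sym2.lift ⟨evenF n, evenF_symm n⟩ with hc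
  have hprop : ProperColouring c := by
    intro x y z hxy hxz hyz
    exact evenF_proper hn he x y z hxy hxz hyz
  obtain ⟨v, a, b, hinj, hav, hbv, hI⟩ := hg _ c hprop
  have hab : a 0 ≠ b 0 := by
    intro h
    have := @hinj (Sum.inl 0) (Sum.inr 0) h
    simp at this
  -- all colours at `v`
  have hsurj : ∀ γ : ZMod (n - 1), ∃ x, x ≠ v ∧ c s(v, x) = γ := by
    have h1 : Function.Injective (fun x : {x : Fin n // x ≠ v} => c s(v, x.1)) := by
      intro x y hxy
      exact Subtype.ext (pc_inj hprop x.2 y.2 hxy)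
    have h2 : Fintype.card {x : Fin n // x ≠ v} = Fintype.card (ZMod (n - 1)) := by
      rw [Fintype.card_subtype_compl, Fintype.card_fin, ZMod.card]; simp
    have h3 := (Fintype.bijective_iff_injective_and_card _).2 ⟨h1, h2⟩
    intro γ
    obtain ⟨x, hx⟩ := h3.2 γ
    exact ⟨x.1, x.2, hx⟩
  obtain ⟨x, hx, hcx⟩ := hsurj (c s(a 0, b 0))
  by_cases hxb : x = b 0
  · rw [hxb] at hcx
    have : c s(b 0, v) = c s(b 0, a 0) := by rw [Sym2.eq_swap, hcx, Sym2.eq_swap]
    exact hav 0 (pc_inj hprop (hbv 0).symm hab this).symm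
  · have h1 : s(v, x) ∈ spiderEdges v a b := by
      left
      refine ⟨x, hx, ?_, rfl⟩
      rintro ⟨i, hi⟩
      rw [Subsingleton.elim i 0] at hi
      exact hxb hi.symm
    have h2 : s(a 0, b 0) ∈ spiderEdges v a b := Or.inr ⟨0, rfl⟩
    have h3 := hI h1 h2 hcx
    rw [Sym2.eq_iff] at h3
    rcases h3 with ⟨h3, _⟩ | ⟨h3, _⟩
    · exact hav 0 h3.symm
    · exact hbv 0 h3.symm

theorem good_one_iff {n : ℕ} (hn : 3 ≤ n) : Good n 1 ↔ Odd n := by
  constructor
  · intro h
    by_contra ho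
    exact not_good_one_of_even hn (Nat.not_odd_iff_even.1 ho) h
  · exact good_one_of_odd hn

/-! ### two legs -/

lemma xcl (a b : ℕ) : a ^^^ (a ^^^ b) = b := by
  rw [← Nat.xor_assoc, Nat.xor_self, Nat.zero_xor]

lemma xor_aux {v a0 b0 a1 b1 : ℕ} (h0 : v ^^^ (a0 ^^^ b0) = b1) (h1 : v ^^^ (a1 ^^^ b1) = b0) :
    a0 = a1 := by
  apply Nat.eq_of_testBit_eq
  intro i
  have e0 := congrArg (fun m => m.testBit i) h0
  have e1 := congrArg (fun m => m.testBit i) h1
  simp only [Nat.testBit_xor] at e0 e1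
  revert e0 e1
  generalize v.testBit i = V
  generalize a0.testBit i = A0
  generalize b0.testBit i = B0
  generalize a1.testBit i = A1
  generalize b1.testBit i = B1
  revert V A0 B0 A1 B1
  decide

theorem not_good_two_of_pow (k : ℕ) : ¬ Good (2 ^ k) 2 := by
  intro hg
  set c : Sym2 (Fin (2 ^ k)) → ℕ := Sym2.lift ⟨fun x y => x.val ^^^ y.val, fun x y =>
    Nat.xor_comm _ _⟩ with hc
  have hcv : ∀ x y : Fin (2 ^ k), c s(x, y) = x.val ^^^ y.val := fun x y => rfl
  have hprop : ProperColouring c := by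
    intro x y z hxy hxz hyz h
    rw [hcv, hcv] at h
    exact hyz (Fin.ext (Nat.xor_right_injective h))
  obtain ⟨v, a, b, hinj, hav, hbv, hI⟩ := hg _ c hprop
  have hab : ∀ i j, a i ≠ b j := by
    intro i j h
    have := @hinj (Sum.inl i) (Sum.inr j) h
    simp at this
  have key : ∀ i : Fin 2, ∃ j, j ≠ i ∧ v.val ^^^ ((a i).val ^^^ (b i).val) = (b j).val := by
    intro i
    have hlt : v.val ^^^ ((a i).val ^^^ (b i).val) < 2 ^ k :=
      Nat.xor_lt_two_pow v.isLt (Nat.xor_lt_two_pow (a i).isLt (b i).isLt)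
    set x : Fin (2 ^ k) := ⟨_, hlt⟩ with hx
    have hxv : x ≠ v := by
      intro h
      have h1 : v.val ^^^ ((a i).val ^^^ (b i).val) = v.val := congrArg Fin.val h
      have h2 : (a i).val ^^^ (b i).val = 0 := by
        have h3 : v.val ^^^ (v.val ^^^ ((a i).val ^^^ (b i).val)) = v.val ^^^ v.val := by rw [h1]
        rwa [xcl, Nat.xor_self] at h3
      have h4 := Nat.xor_eq_zero_iff.1 h2
      exact hab i i (Fin.ext h4)
    have hcx : c s(v, x) = c s(a i, b i) := by
      rw [hcv, hcv, hx]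
      exact xcl _ _
    by_cases hxb : x ∈ Set.range b
    · obtain ⟨j, hj⟩ := hxb
      refine ⟨j, ?_, ?_⟩
      · rintro rfl
        rw [← hj] at hcx
        have : c s(b j, v) = c s(b j, a j) := by rw [Sym2.eq_swap, hcx, Sym2.eq_swap]
        exact hav j (pc_inj hprop (hbv j).symm (hab j j) this).symm
      · rw [hj]
    · exfalso
      have h1 : s(v, x) ∈ spiderEdges v a b := Or.inl ⟨x, hxv, hxb, rfl⟩
      have h2 : s(a i, b i) ∈ spiderEdges v a b := Or.inr ⟨i, rfl⟩
      have h3 := hI h1 h2 hcx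
      rw [Sym2.eq_iff] at h3
      rcases h3 with ⟨h3, _⟩ | ⟨h3, _⟩
      · exact hav i h3.symm
      · exact hbv i h3.symm
  obtain ⟨j0, hj0, e0⟩ := key 0
  obtain ⟨j1, hj1, e1⟩ := key 1
  have hj0' : j0 = 1 := by omega
  have hj1' : j1 = 0 := by omega
  subst hj0' hj1'
  have := xor_aux e0 e1
  have h5 : a 0 = a 1 := Fin.ext this
  have := @hinj (Sum.inl 0) (Sum.inl 1) h5
  simp at this

end Spider
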