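import Pool.Agent.Spider.Near

namespace Spider
open Finset

variable {V : Type} [Fintype V] [DecidableEq V]

/-- partial structures: `S` = set of end vertices, `T` = legs chosen so far -/
structure PS (sc : SC V) (S : Finset V) (T : Finset (V × V)) : Prop where
  row : ∀ p ∈ T, p.1 ∈ S
  lab : ∀ p ∈ T, p.2 ∉ S
  i1 : ∀ p ∈ T, ∀ p' ∈ T, p.1 = p'.1 → p = p'
  i2 : ∀ p ∈ T, ∀ p' ∈ T, p.2 = p'.2 → p = p'
  i3 : ∀ p ∈ T, ∀ p' ∈ T, sc.col p.1 p.2 = sc.col p'.1 p'.2 → p = p'
  star : ∀ p ∈ T, ∀ z, sc.col p.1 p.2 = (z, z) → z ∈ S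

/-- uncovered rows -/
def unc (S : Finset V) (T : Finset (V × V)) : Finset V := S \ T.image Prod.fst

omit [Fintype V] in
lemma mem_unc {S : Finset V} {T : Finset (V × V)} {x : V} :
    x ∈ unc S T ↔ x ∈ S ∧ ∀ p ∈ T, p.1 ≠ x := by
  unfold unc
  rw [Finset.mem_sdiff, Finset.mem_image]
  push Not
  rfl

/-- occupied elements -/
def Occ (sc : SC V) (S : Finset V) (T : Finset (V × V)) : Finset (V × V) :=
  (S.image fun x => (x, x)) ∪ (T.image fun p => (p.2, p.2)) ∪ cols sc T

omit [Fintype V] in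
lemma mem_Occ {sc : SC V} {S : Finset V} {T : Finset (V × V)} {y : V × V} :
    y ∈ Occ sc S T ↔ (∃ x ∈ S, (x, x) = y) ∨ (∃ p ∈ T, (p.2, p.2) = y) ∨
      (∃ p ∈ T, sc.col p.1 p.2 = y) := by
  unfold Occ
  rw [Finset.mem_union, Finset.mem_union, Finset.mem_image, Finset.mem_image, mem_cols, or_assoc]

/-- number of occupied elements in class W -/
def occW {h : ℕ} (sc : SC V) (χ : V × V → ZMod (2 * h + 1)) (S : Finset V)
    (T : Finset (V × V)) : ℕ :=
  ((Occ sc S T).filter fun i => χ i = 0).card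

omit [Fintype V] in
lemma PS.add_row {sc : SC V} {S : Finset V} {T : Finset (V × V)} (h : PS sc S T) {w : V}
    (h2 : ∀ p ∈ T, p.2 ≠ w) : PS sc (insert w S) T where
  row := fun p hp => Finset.mem_insert_of_mem (h.row p hp)
  lab := by
    intro p hp hmem
    rcases Finset.mem_insert.1 hmem with he | he
    · exact h2 p hp he
    · exact h.lab p hp he
  i1 := h.i1
  i2 := h.i2
  i3 := h.i3
  star := fun p hp z hz => Finset.mem_insert_of_mem (h.star p hp z hz)

omit [Fintype V] in
lemma PS.cover {sc : SC V} {S : Finset V} {T : Finset (V × V)} (h : PS sc S T) {e l : V}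
    (he : e ∈ S) (he' : ∀ p ∈ T, p.1 ≠ e) (hl : l ∉ S) (hl' : ∀ p ∈ T, p.2 ≠ l)
    (hc : ∀ p ∈ T, sc.col p.1 p.2 ≠ sc.col e l) (hs : ∀ z, sc.col e l = (z, z) → z ∈ S) :
    PS sc S (insert (e, l) T) where
  row := by
    intro p hp
    rcases Finset.mem_insert.1 hp with rfl | hp
    · exact he
    · exact h.row p hp
  lab := by
    intro p hp
    rcases Finset.mem_insert.1 hp with rfl | hp
    · exact hl
    · exact h.lab p hp
  i1 := by
    intro p hp p' hp' hh
    rcases Finset.mem_insert.1 hp with rfl | hp <;> rcases Finset.mem_insert.1 hp' with rfl | hp'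
    · rfl
    · exact absurd hh.symm (he' p' hp')
    · exact absurd hh (he' p hp)
    · exact h.i1 p hp p' hp' hh
  i2 := by
    intro p hp p' hp' hh
    rcases Finset.mem_insert.1 hp with rfl | hp <;> rcases Finset.mem_insert.1 hp' with rfl | hp'
    · rfl
    · exact absurd hh.symm (hl' p' hp')
    · exact absurd hh (hl' p hp)
    · exact h.i2 p hp p' hp' hh
  i3 := by
    intro p hp p' hp' hh
    rcases Finset.mem_insert.1 hp with rfl | hp <;> rcases Finset.mem_insert.1 hp' with rfl | hp'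
    · rfl
    · exact absurd hh.symm (hc p' hp')
    · exact absurd hh (hc p hp)
    · exact h.i3 p hp p' hp' hh
  star := by
    intro p hp z hz
    rcases Finset.mem_insert.1 hp with rfl | hp
    · exact hs z hz
    · exact h.star p hp z hz

omit [Fintype V] in
lemma unc_add_row {S : Finset V} {T : Finset (V × V)} {w : V} (h1 : ∀ p ∈ T, p.1 ∈ S)
    (hw : w ∉ S) : unc (insert w S) T = insert w (unc S T) := by
  ext x
  rw [mem_unc, Finset.mem_insert, Finset.mem_insert, mem_unc]
  constructor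
  · rintro ⟨hx | hx, h⟩
    · exact Or.inl hx
    · exact Or.inr ⟨hx, h⟩
  · rintro (hx | hx)
    · subst hx
      exact ⟨Or.inl rfl, fun p hp he => hw (he ▸ h1 p hp)⟩
    · exact ⟨Or.inr hx.1, hx.2⟩

omit [Fintype V] in
lemma unc_cover {S : Finset V} {T : Finset (V × V)} {e l : V} :
    unc S (insert (e, l) T) = (unc S T).erase e := by
  ext x
  rw [mem_unc, Finset.mem_erase, mem_unc]
  constructor
  · rintro ⟨hx, h⟩
    exact ⟨fun he => h (e, l) (Finset.mem_insert_self _ _) he.symm, hx,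
      fun p hp => h p (Finset.mem_insert_of_mem hp)⟩
  · rintro ⟨hne, hx, h⟩
    refine ⟨hx, ?_⟩
    intro p hp
    rcases Finset.mem_insert.1 hp with rfl | hp
    · exact fun he => hne he.symm
    · exact h p hp

omit [Fintype V] in
lemma occW_add_row {h : ℕ} (sc : SC V) (χ : V × V → ZMod (2 * h + 1)) (S : Finset V)
    (T : Finset (V × V)) (w : V) : occW sc χ (insert w S) T ≤ occW sc χ S T + 1 := by
  unfold occW
  have : (Occ sc (insert w S) T).filter (fun i => χ i = 0)
      ⊆ insert (w, w) ((Occ sc S T).filter fun i => χ i = 0) := by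
    intro y hy
    rw [Finset.mem_filter, mem_Occ] at hy
    rw [Finset.mem_insert, Finset.mem_filter, mem_Occ]
    rcases hy with ⟨⟨x, hx, he⟩ | h2 | h3, h0⟩
    · rcases Finset.mem_insert.1 hx with rfl | hx
      · exact Or.inl he.symm
      · exact Or.inr ⟨Or.inl ⟨x, hx, he⟩, h0⟩
    · exact Or.inr ⟨Or.inr (Or.inl h2), h0⟩
    · exact Or.inr ⟨Or.inr (Or.inr h3), h0⟩
  exact (Finset.card_le_card this).trans (Finset.card_insert_le _ _)

omit [Fintype V] in
lemma occW_cover {h : ℕ} (sc : SC V) (χ : V × V → ZMod (2 * h + 1)) (S : Finset V)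
    (T : Finset (V × V)) (e l : V) : occW sc χ S (insert (e, l) T) ≤ occW sc χ S T + 2 := by
  unfold occW
  have : (Occ sc S (insert (e, l) T)).filter (fun i => χ i = 0)
      ⊆ insert (l, l) (insert (sc.col e l) ((Occ sc S T).filter fun i => χ i = 0)) := by
    intro y hy
    rw [Finset.mem_filter, mem_Occ] at hy
    rw [Finset.mem_insert, Finset.mem_insert, Finset.mem_filter, mem_Occ]
    rcases hy with ⟨h1 | ⟨p, hp, he⟩ | ⟨p, hp, he⟩, h0⟩
    · exact Or.inr (Or.inr ⟨Or.inl h1, h0⟩)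
    · rcases Finset.mem_insert.1 hp with rfl | hp
      · exact Or.inl he.symm
      · exact Or.inr (Or.inr ⟨Or.inr (Or.inl ⟨p, hp, he⟩), h0⟩)
    · rcases Finset.mem_insert.1 hp with rfl | hp
      · exact Or.inr (Or.inl he.symm)
      · exact Or.inr (Or.inr ⟨Or.inr (Or.inr ⟨p, hp, he⟩), h0⟩)
  refine (Finset.card_le_card this).trans ((Finset.card_insert_le _ _).trans ?_)
  have := Finset.card_insert_le (sc.col e l) ((Occ sc S T).filter fun i => χ i = 0)
  omega

/-- a fresh gadget in class `W` -/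
lemma exists_fresh {h : ℕ} (χ : V × V → ZMod (2 * h + 1)) (𝒢 : Finset (Finset (V × V)))
    (hdis : (𝒢 : Set (Finset (V × V))).PairwiseDisjoint id) (O : Finset (V × V))
    (hO : (O.filter fun i => χ i = 0).card < numW 𝒢 χ) :
    ∃ G ∈ 𝒢, (∀ i ∈ G, χ i = 0) ∧ ∀ i ∈ G, i ∉ O := by
  classical
  by_contra hcon
  push Not at hcon
  have h1 : ∀ G ∈ 𝒢.filter (fun G => ∀ i ∈ G, χ i = 0), ∃ i, i ∈ G ∧ i ∈ O ∧ χ i = 0 := by
    intro G hG
    rw [Finset.mem_filter] at hG
    obtain ⟨i, hi, hiO⟩ := hcon G hG.1 hG.2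
    exact ⟨i, hi, hiO, hG.2 i hi⟩
  have hpos : 0 < (𝒢.filter (fun G => ∀ i ∈ G, χ i = 0)).card := by
    unfold numW at hO; omega
  obtain ⟨G0, hG0⟩ := Finset.card_pos.1 hpos
  obtain ⟨i0, _⟩ := h1 G0 hG0
  haveI : Nonempty (V × V) := ⟨i0⟩
  choose! f hf using h1
  have : (𝒢.filter (fun G => ∀ i ∈ G, χ i = 0)).card ≤ (O.filter fun i => χ i = 0).card := by
    apply Finset.card_le_card_of_injOn f
    · intro G hG
      have := hf G hG
      rw [Finset.mem_coe, Finset.mem_filter]
      exact ⟨this.2.1, this.2.2⟩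
    · intro G hG G' hG' he
      by_contra hne
      have hd := hdis (show G ∈ (𝒢 : Set (Finset (V × V))) from
        (Finset.mem_filter.1 (Finset.mem_coe.1 hG)).1)
        (show G' ∈ (𝒢 : Set (Finset (V × V))) from
        (Finset.mem_filter.1 (Finset.mem_coe.1 hG')).1) hne
      have h2 := (hf G hG).1
      have h3 := (hf G' hG').1
      rw [← he] at h3
      exact (Finset.disjoint_left.1 hd) h2 h3
  unfold numW at hO
  omega

omit [Fintype V] in
/-- trimming -/
theorem trim (sc : SC V) (k : ℕ) (hk : 1 ≤ k) (j : ℕ) : ∀ (m : ℕ) (S : Finset V)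
    (T : Finset (V × V)), PS sc S T → (unc S T).card ≤ k → S.card = j + m →
    ∃ S' ⊆ S, ∃ T' ⊆ T, PS sc S' T' ∧ S'.card = j ∧ (unc S' T').card ≤ k := by
  intro m
  induction m with
  | zero =>
    intro S T hPS hu hc
    exact ⟨S, Finset.Subset.refl _, T, Finset.Subset.refl _, hPS, by simpa using hc, hu⟩
  | succ m ih =>
    intro S T hPS hu hc
    -- choose the vertex to delete
    obtain ⟨b, hbS, hb⟩ : ∃ b ∈ S, ((unc S T).erase b).card + 1 ≤ k := by
      by_cases hne : (unc S T).Nonempty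
      · obtain ⟨b, hb⟩ := hne
        refine ⟨b, (mem_unc.1 hb).1, ?_⟩
        rw [Finset.card_erase_of_mem hb]
        have : 0 < (unc S T).card := Finset.card_pos.2 ⟨b, hb⟩
        omega
      · rw [Finset.not_nonempty_iff_eq_empty] at hne
        have hSne : S.Nonempty := by
          rw [← Finset.card_pos]; omega
        obtain ⟨b, hb⟩ := hSne
        refine ⟨b, hb, ?_⟩
        rw [hne]
        simpa using hk
    set T1 := T.filter fun p => p.1 ≠ b ∧ sc.col p.1 p.2 ≠ (b, b) with hT1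
    have hT1T : T1 ⊆ T := Finset.filter_subset _ _
    have hPS1 : PS sc (S.erase b) T1 := by
      refine ⟨?_, ?_, ?_, ?_, ?_, ?_⟩
      · intro p hp
        rw [hT1, Finset.mem_filter] at hp
        exact Finset.mem_erase.2 ⟨hp.2.1, hPS.row p hp.1⟩
      · intro p hp hmem
        exact hPS.lab p (hT1T hp) (Finset.mem_of_mem_erase hmem)
      · exact fun p hp p' hp' => hPS.i1 p (hT1T hp) p' (hT1T hp')
      · exact fun p hp p' hp' => hPS.i2 p (hT1T hp) p' (hT1T hp')
      · exact fun p hp p' hp' => hPS.i3 p (hT1T hp) p' (hT1T hp')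
      · intro p hp z hz
        rw [hT1, Finset.mem_filter] at hp
        refine Finset.mem_erase.2 ⟨?_, hPS.star p hp.1 z hz⟩
        rintro rfl
        exact hp.2.2 hz
    have hsub : unc (S.erase b) T1 ⊆ (unc S T).erase b ∪
        (T.filter fun p => sc.col p.1 p.2 = (b, b)).image Prod.fst := by
      intro x hx
      rw [mem_unc, Finset.mem_erase] at hx
      rw [Finset.mem_union, Finset.mem_erase, mem_unc, Finset.mem_image]
      by_cases h1 : ∀ p ∈ T, p.1 ≠ x
      · exact Or.inl ⟨hx.1.1, hx.1.2, h1⟩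
      · push Not at h1
        obtain ⟨p, hp, hpx⟩ := h1
        right
        refine ⟨p, ?_, hpx⟩
        rw [Finset.mem_filter]
        refine ⟨hp, ?_⟩
        by_contra hcol
        apply hx.2 p _ hpx
        rw [hT1, Finset.mem_filter]
        exact ⟨hp, by rw [hpx]; exact hx.1.1, hcol⟩
    have hone : ((T.filter fun p => sc.col p.1 p.2 = (b, b)).image Prod.fst).card ≤ 1 := by
      refine Finset.card_image_le.trans ?_
      rw [Finset.card_le_one]
      intro p hp p' hp'
      rw [Finset.mem_filter] at hp hp'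
      exact hPS.i3 p hp.1 p' hp'.1 (by rw [hp.2, hp'.2])
    have hu1 : (unc (S.erase b) T1).card ≤ k := by
      have := (Finset.card_le_card hsub).trans (Finset.card_union_le _ _)
      omega
    obtain ⟨S', hS', T', hT', h1, h2, h3⟩ := ih (S.erase b) T1 hPS1 hu1 (by
      rw [Finset.card_erase_of_mem hbS]; omega)
    exact ⟨S', hS'.trans (Finset.erase_subset _ _), T', hT'.trans hT1T, h1, h2, h3⟩

end Spider
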