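import Pool.Agent.Spider.Main
import Pool.Agent.Spider.Defs

namespace Spider

section trans
variable {n : ℕ} {C : Type} (c : Sym2 (Fin n) → C) (v : Fin n)

/-- normal form of colours -/
noncomputable def norm (x0 : {x : Fin n // x ≠ v}) (γ : C) :
    {x : Fin n // x ≠ v} × {x : Fin n // x ≠ v} :=
  open Classical in
  if h : ∃ z : {x : Fin n // x ≠ v}, c s(v, z.1) = γ then (h.choose, h.choose)
  else if h' : ∃ p : {x : Fin n // x ≠ v} × {x : Fin n // x ≠ v},
      p.1 ≠ p.2 ∧ c s(p.1.1, p.2.1) = γ then h'.choose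
  else (x0, x0)

lemma norm_star (hc : ProperColouring c) (x0 z : {x : Fin n // x ≠ v}) :
    norm c v x0 (c s(v, z.1)) = (z, z) := by
  have h : ∃ z' : {x : Fin n // x ≠ v}, c s(v, z'.1) = c s(v, z.1) := ⟨z, rfl⟩
  unfold norm
  rw [dif_pos h]
  have h2 := h.choose_spec
  have h3 : h.choose = z := by
    by_contra hne
    exact hc v h.choose.1 z.1 h.choose.2.symm z.2.symm (fun he => hne (Subtype.ext he)) h2
  rw [h3]

lemma norm_diag (x0 z : {x : Fin n // x ≠ v}) (p : {x : Fin n // x ≠ v} × {x : Fin n // x ≠ v})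
    (hp : p.1 ≠ p.2) (h : norm c v x0 (c s(p.1.1, p.2.1)) = (z, z)) :
    c s(p.1.1, p.2.1) = c s(v, z.1) := by
  unfold norm at h
  split_ifs at h with h1 h2
  · have h3 := h1.choose_spec
    have h4 : h1.choose = z := (Prod.ext_iff.1 h).1
    rw [h4] at h3
    exact h3.symm
  · have h3 := h2.choose_spec
    rw [h] at h3
    exact absurd rfl h3.1
  · exact absurd ⟨p, hp, rfl⟩ h2

lemma norm_off (x0 : {x : Fin n // x ≠ v}) (p : {x : Fin n // x ≠ v} × {x : Fin n // x ≠ v})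
    (hp : p.1 ≠ p.2) (h : ¬ ∃ z : {x : Fin n // x ≠ v}, c s(v, z.1) = c s(p.1.1, p.2.1)) :
    (norm c v x0 (c s(p.1.1, p.2.1))).1 ≠ (norm c v x0 (c s(p.1.1, p.2.1))).2 ∧
      c s((norm c v x0 (c s(p.1.1, p.2.1))).1.1, (norm c v x0 (c s(p.1.1, p.2.1))).2.1)
        = c s(p.1.1, p.2.1) := by
  have h' : ∃ q : {x : Fin n // x ≠ v} × {x : Fin n // x ≠ v},
      q.1 ≠ q.2 ∧ c s(q.1.1, q.2.1) = c s(p.1.1, p.2.1) := ⟨p, hp, rfl⟩
  unfold norm
  rw [dif_neg h, dif_pos h']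
  exact h'.choose_spec

lemma norm_on (x0 : {x : Fin n // x ≠ v}) (γ : C)
    (h : ∃ z : {x : Fin n // x ≠ v}, c s(v, z.1) = γ) :
    ∃ z : {x : Fin n // x ≠ v}, norm c v x0 γ = (z, z) ∧ c s(v, z.1) = γ := by
  refine ⟨h.choose, ?_, h.choose_spec⟩
  unfold norm
  rw [dif_pos h]

lemma norm_inj (x0 : {x : Fin n // x ≠ v}) (p q : {x : Fin n // x ≠ v} × {x : Fin n // x ≠ v})
    (hp : p.1 ≠ p.2) (hq : q.1 ≠ q.2)
    (h : norm c v x0 (c s(p.1.1, p.2.1)) = norm c v x0 (c s(q.1.1, q.2.1))) :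
    c s(p.1.1, p.2.1) = c s(q.1.1, q.2.1) := by
  by_cases h1 : ∃ z : {x : Fin n // x ≠ v}, c s(v, z.1) = c s(p.1.1, p.2.1) <;>
    by_cases h2 : ∃ z : {x : Fin n // x ≠ v}, c s(v, z.1) = c s(q.1.1, q.2.1)
  · obtain ⟨z, hz, hz'⟩ := norm_on c v x0 _ h1
    obtain ⟨w, hw, hw'⟩ := norm_on c v x0 _ h2
    rw [hz, hw] at h
    have : z = w := (Prod.ext_iff.1 h).1
    rw [← hz', ← hw', this]
  · obtain ⟨z, hz, hz'⟩ := norm_on c v x0 _ h1
    have := norm_off c v x0 q hq h2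
    rw [← h, hz] at this
    exact absurd rfl this.1
  · obtain ⟨z, hz, hz'⟩ := norm_on c v x0 _ h2
    have := norm_off c v x0 p hp h1
    rw [h, hz] at this
    exact absurd rfl this.1
  · have e1 := (norm_off c v x0 p hp h1).2
    have e2 := (norm_off c v x0 q hq h2).2
    rw [← e1, h, e2]

/-- the normalised colouring -/
noncomputable def toSC (hc : ProperColouring c) (x0 : {x : Fin n // x ≠ v}) :
    SC {x : Fin n // x ≠ v} where
  col x y := norm c v x0 (c s(x.1, y.1))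
  symm x y := by rw [Sym2.eq_swap]
  proper x y z hxy hxz hyz := by
    intro he
    have := norm_inj c v x0 (x, y) (x, z) hxy hxz he
    exact hc x.1 y.1 z.1 (fun h => hxy (Subtype.ext h)) (fun h => hxz (Subtype.ext h))
      (fun h => hyz (Subtype.ext h)) this
  star_ne x y hxy := by
    intro he
    have h1 := norm_diag c v x0 x (x, y) hxy he
    have h1 : c s(x.1, y.1) = c s(v, x.1) := h1
    have h2 : c s(x.1, y.1) = c s(x.1, v) := by rw [h1, Sym2.eq_swap]
    exact hc x.1 y.1 v (fun h => hxy (Subtype.ext h)) x.2 y.2 h2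

theorem good_of_done {t : ℕ} (hc : ProperColouring c) (x0 : {x : Fin n // x ≠ v})
    (h : Done (toSC c v hc x0) t) :
    ∃ (a b : Fin t → Fin n), Function.Injective (Sum.elim a b) ∧
      (∀ i, a i ≠ v) ∧ (∀ i, b i ≠ v) ∧ Set.InjOn c (spiderEdges v a b) := by
  classical
  obtain ⟨S, T, hPS, hS, hu⟩ := h
  have hcov : ∀ x ∈ S, ∃ p ∈ T, p.1 = x := by
    intro x hx
    by_contra hcon
    push Not at hcon
    have : x ∈ unc S T := mem_unc.2 ⟨hx, hcon⟩
    rw [hu] at this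
    exact absurd this (Finset.notMem_empty _)
  choose! f hf1 hf2 using hcov
  set e : Fin t ≃ S := (Fintype.equivFinOfCardEq (by rw [Fintype.card_coe, hS])).symm with he
  set b' : Fin t → {x : Fin n // x ≠ v} := fun i => (e i).1 with hb'
  set a' : Fin t → {x : Fin n // x ≠ v} := fun i => (f (e i).1).2 with ha'
  have hb'S : ∀ i, b' i ∈ S := fun i => (e i).2
  have hfT : ∀ i, f (b' i) ∈ T := fun i => hf1 _ (hb'S i)
  have hfb : ∀ i, (f (b' i)).1 = b' i := fun i => hf2 _ (hb'S i)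
  have hbinj : Function.Injective b' := fun i j hij => e.injective (Subtype.ext hij)
  have hainj : Function.Injective a' := by
    intro i j hij
    apply hbinj
    have := hPS.i2 _ (hfT i) _ (hfT j) hij
    rw [← hfb i, this, hfb j]
  have hab : ∀ i j, a' i ≠ b' j := by
    intro i j hij
    apply hPS.lab _ (hfT i)
    have : (f (b' i)).2 = b' j := hij
    rw [this]; exact hb'S j
  have hcolr : ∀ i, (toSC c v hc x0).col (f (b' i)).1 (f (b' i)).2
      = norm c v x0 (c s((b' i).1, (a' i).1)) := by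
    intro i
    rw [hfb i]; rfl
  have hab' : ∀ i, b' i ≠ a' i := fun i h => hab i i h.symm
  have hSrange : ∀ z, z ∈ S → ∃ i, b' i = z := by
    intro z hz
    exact ⟨e.symm ⟨z, hz⟩, by simp [hb']⟩
  refine ⟨fun i => (a' i).1, fun i => (b' i).1, ?_, fun i => (a' i).2, fun i => (b' i).2, ?_⟩
  · rintro (i | i) (j | j) hij
    · simp only [Sum.elim_inl] at hij
      rw [hainj (Subtype.ext hij)]
    · simp only [Sum.elim_inl, Sum.elim_inr] at hij
      exact absurd (Subtype.ext hij) (hab i j)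
    · simp only [Sum.elim_inl, Sum.elim_inr] at hij
      exact absurd (Subtype.ext hij.symm) (hab j i)
    · simp only [Sum.elim_inr] at hij
      rw [hbinj (Subtype.ext hij)]
  · have key : ∀ (x : Fin n) (i : Fin t), x ≠ v → x ∉ Set.range (fun i => (b' i).1) →
        c s(v, x) ≠ c s((a' i).1, (b' i).1) := by
      intro x i hx hxb hcc
      have h1 := norm_star c v hc x0 ⟨x, hx⟩
      have h2 : c s(v, x) = c s((b' i).1, (a' i).1) := by rw [hcc, Sym2.eq_swap]
      rw [h2, ← hcolr i] at h1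
      have h3 := hPS.star _ (hfT i) _ h1
      obtain ⟨j, hj⟩ := hSrange _ h3
      exact hxb ⟨j, by simp [hj]⟩
    rintro e1 (⟨x, hx, hxb, rfl⟩ | ⟨i, rfl⟩) e2 (⟨y, hy, hyb, rfl⟩ | ⟨j, rfl⟩) hcc
    · by_contra hne
      apply hc v x y hx.symm hy.symm _ hcc
      rintro rfl; exact hne rfl
    · exact absurd hcc (key x j hx hxb)
    · exact absurd hcc.symm (key y i hy hyb)
    · have h1 : (toSC c v hc x0).col (f (b' i)).1 (f (b' i)).2
          = (toSC c v hc x0).col (f (b' j)).1 (f (b' j)).2 := by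
        rw [hcolr i, hcolr j, Sym2.eq_swap, hcc, Sym2.eq_swap]
      have h2 := hPS.i3 _ (hfT i) _ (hfT j) h1
      have h3 : b' i = b' j := by rw [← hfb i, h2, hfb j]
      rw [hbinj h3]

end trans

theorem good_mid (ε : ℝ) (hε : 0 < ε) : ∃ n₀ : ℕ, ∀ n t : ℕ, n₀ ≤ n → 3 ≤ t →
    (t : ℝ) ≤ (1 / 2 - ε) * n → Good n t := by
  obtain ⟨N₀, hN⟩ := main (ε / 2) (by positivity)
  obtain ⟨N₁, hN₁⟩ := exists_nat_ge (1 / ε)
  refine ⟨N₀ + N₁ + 3, ?_⟩
  intro n t hn ht3 ht C c hc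
  set v : Fin n := ⟨0, by omega⟩ with hv
  have hx0 : (⟨1, by omega⟩ : Fin n) ≠ v := by
    rw [hv]; intro h; simp at h
  have hcard : Fintype.card {x : Fin n // x ≠ v} = n - 1 := by
    rw [Fintype.card_subtype_compl, Fintype.card_fin]; simp
  obtain ⟨a, b, h⟩ := good_of_done c v hc ⟨_, hx0⟩ (hN {x : Fin n // x ≠ v}
    (toSC c v hc ⟨_, hx0⟩) (by rw [hcard]; omega) t ht3 (by
      rw [hcard, Nat.cast_sub (by omega)]
      push_cast
      have h1 : (N₁ : ℝ) ≤ n := by exact_mod_cast (by omega : N₁ ≤ n)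
      have h2 : 1 / ε ≤ (n : ℝ) := hN₁.trans h1
      rw [div_le_iff₀ hε] at h2
      nlinarith))
  exact ⟨v, a, b, h⟩

end Spider
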