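import Pool.Agent.Spider.Small

namespace Spider

/-- existence of a rainbow spanning `t`-spider -/
def HasSp {n : ℕ} {C : Type} (c : Sym2 (Fin n) → C) (t : ℕ) : Prop :=
  ∃ (v : Fin n) (a b : Fin t → Fin n), Function.Injective (Sum.elim a b) ∧
      (∀ i, a i ≠ v) ∧ (∀ i, b i ≠ v) ∧ Set.InjOn c (spiderEdges v a b)

lemma two_spider {n : ℕ} {C : Type} {c : Sym2 (Fin n) → C} (hc : ProperColouring c)
    {v a0 b0 a1 b1 : Fin n} (d1 : a0 ≠ v) (d2 : b0 ≠ v) (d3 : a1 ≠ v) (d4 : b1 ≠ v)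
    (d5 : a0 ≠ b0) (d6 : a0 ≠ a1) (d7 : a0 ≠ b1) (d8 : b0 ≠ a1) (d9 : b0 ≠ b1) (d10 : a1 ≠ b1)
    (h0 : ∀ x, x ≠ v → x ≠ b0 → x ≠ b1 → c s(v, x) ≠ c s(a0, b0))
    (h1 : ∀ x, x ≠ v → x ≠ b0 → x ≠ b1 → c s(v, x) ≠ c s(a1, b1))
    (h01 : c s(a0, b0) ≠ c s(a1, b1)) : HasSp c 2 := by
  refine ⟨v, ![a0, a1], ![b0, b1], ?_, ?_, ?_, ?_⟩
  · rintro (i | i) (j | j) hij <;> fin_cases i <;> fin_cases j <;>
      simp at hij ⊢ <;>
      first
      | exact d6 hij
      | exact d6 hij.symm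
      | exact d5 hij
      | exact d5 hij.symm
      | exact d7 hij
      | exact d7 hij.symm
      | exact d8 hij
      | exact d8 hij.symm
      | exact d9 hij
      | exact d9 hij.symm
      | exact d10 hij
      | exact d10 hij.symm
  · intro i; fin_cases i
    · exact d1
    · exact d3
  · intro i; fin_cases i
    · exact d2
    · exact d4
  · apply injOn_spider hc
    · intro x hx hxb i
      have e0 : x ≠ b0 := fun h => hxb ⟨0, h.symm⟩
      have e1 : x ≠ b1 := fun h => hxb ⟨1, h.symm⟩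
      fin_cases i
      · exact h0 x hx e0 e1
      · exact h1 x hx e0 e1
    · intro i j hij
      fin_cases i <;> fin_cases j
      · rfl
      · exact absurd hij h01
      · exact absurd hij.symm h01
      · rfl

/-- vertices touched by a colour -/
noncomputable def Ut {n : ℕ} {C : Type} (c : Sym2 (Fin n) → C) (δ : C) : Finset (Fin n) :=
  open Classical in Finset.univ.filter fun w => ∃ w', w' ≠ w ∧ c s(w, w') = δ

lemma mem_Ut {n : ℕ} {C : Type} {c : Sym2 (Fin n) → C} {δ : C} {w : Fin n} :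
    w ∈ Ut c δ ↔ ∃ w', w' ≠ w ∧ c s(w, w') = δ := by
  classical
  unfold Ut; simp

lemma not_mem_Ut {n : ℕ} {C : Type} {c : Sym2 (Fin n) → C} {δ : C} {w : Fin n}
    (h : w ∉ Ut c δ) : ∀ x, x ≠ w → c s(w, x) ≠ δ := by
  intro x hx he
  exact h (mem_Ut.2 ⟨x, hx, he⟩)

/-- claim 1 -/
lemma claim1 {n : ℕ} {C : Type} {c : Sym2 (Fin n) → C} (hc : ProperColouring c)
    (hno : ¬ HasSp c 2) {v x y : Fin n} (hvx : v ≠ x) (hvy : v ≠ y) (hxy : x ≠ y)
    (hfree : v ∉ Ut c (c s(x, y))) :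
    ∃ z, Ut c (c s(v, y)) ⊆ {v, y, x, z} := by
  classical
  -- partner of x in colour c(v y)
  by_cases hex : x ∈ Ut c (c s(v, y))
  · obtain ⟨z, hz, hz'⟩ := mem_Ut.1 hex
    refine ⟨z, ?_⟩
    intro p hp
    by_contra hcon
    simp only [Finset.mem_insert, Finset.mem_singleton, not_or] at hcon
    obtain ⟨q, hq, hq'⟩ := mem_Ut.1 hp
    have q1 : q ≠ v := by
      rintro rfl
      have : c s(q, p) = c s(q, y) := by rw [Sym2.eq_swap, hq']
      exact hcon.2.1 (pc_inj hc hq.symm hvy.symm this)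
    have q2 : q ≠ y := by
      rintro rfl
      have : c s(q, p) = c s(q, v) := by
        rw [Sym2.eq_swap, hq', Sym2.eq_swap]
      exact hcon.1 (pc_inj hc hq.symm hvy this)
    have q3 : q ≠ x := by
      rintro rfl
      have : c s(q, p) = c s(q, z) := by
        rw [Sym2.eq_swap, hq', hz']
      exact hcon.2.2.2 (pc_inj hc hq.symm hz this)
    apply hno
    apply two_spider hc (v := v) (a0 := x) (b0 := y) (a1 := p) (b1 := q) hvx.symm hvy.symm
      hcon.1 q1 hxy (Ne.symm hcon.2.2.1) q3.symm (Ne.symm hcon.2.1) q2.symm hq.symm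
    · intro w hw _ _
      exact not_mem_Ut hfree w hw
    · intro w hw hwy _ he
      rw [hq'] at he
      exact hwy (pc_inj hc hw hvy.symm he)
    · intro he
      rw [hq'] at he
      have : c s(y, x) = c s(y, v) := by rw [Sym2.eq_swap, he, Sym2.eq_swap]
      exact hvx (pc_inj hc hxy hvy this).symm
  · refine ⟨v, ?_⟩
    intro p hp
    by_contra hcon
    simp only [Finset.mem_insert, Finset.mem_singleton, not_or] at hcon
    obtain ⟨q, hq, hq'⟩ := mem_Ut.1 hp
    have q1 : q ≠ v := by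
      rintro rfl
      have : c s(q, p) = c s(q, y) := by rw [Sym2.eq_swap, hq']
      exact hcon.2.1 (pc_inj hc hq.symm hvy.symm this)
    have q2 : q ≠ y := by
      rintro rfl
      have : c s(q, p) = c s(q, v) := by
        rw [Sym2.eq_swap, hq', Sym2.eq_swap]
      exact hcon.1 (pc_inj hc hq.symm hvy this)
    have q3 : q ≠ x := by
      rintro rfl
      exact hex (mem_Ut.2 ⟨p, hq.symm, by rw [Sym2.eq_swap, hq']⟩)
    apply hno
    apply two_spider hc (v := v) (a0 := x) (b0 := y) (a1 := p) (b1 := q) hvx.symm hvy.symm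
      hcon.1 q1 hxy (Ne.symm hcon.2.2.1) q3.symm (Ne.symm hcon.2.1) q2.symm hq.symm
    · intro w hw _ _
      exact not_mem_Ut hfree w hw
    · intro w hw hwy _ he
      rw [hq'] at he
      exact hwy (pc_inj hc hw hvy.symm he)
    · intro he
      rw [hq'] at he
      have : c s(y, x) = c s(y, v) := by rw [Sym2.eq_swap, he, Sym2.eq_swap]
      exact hvx (pc_inj hc hxy hvy this).symm

lemma exists_out {n : ℕ} (s : Finset (Fin n)) (h : s.card < n) : ∃ x, x ∉ s := by
  by_contra hcon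
  push Not at hcon
  have : s = Finset.univ := Finset.eq_univ_iff_forall.2 hcon
  rw [this, Finset.card_univ, Fintype.card_fin] at h
  omega

theorem caseA {n : ℕ} (hn : 7 ≤ n) {C : Type} {c : Sym2 (Fin n) → C} (hc : ProperColouring c)
    {v x y : Fin n} (hvx : v ≠ x) (hvy : v ≠ y) (hxy : x ≠ y)
    (hfree : v ∉ Ut c (c s(x, y))) : HasSp c 2 := by
  classical
  by_contra hno
  obtain ⟨z, hz⟩ := claim1 hc hno hvx hvy hxy hfree
  have hvU : v ∈ Ut c (c s(v, y)) := mem_Ut.2 ⟨y, hvy.symm, rfl⟩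
  have hyU : y ∈ Ut c (c s(v, y)) := mem_Ut.2 ⟨v, hvy, by rw [Sym2.eq_swap]⟩
  -- u
  obtain ⟨u, hu⟩ := exists_out (Ut c (c s(v, y))) (by
    have := (Finset.card_le_card hz).trans Finset.card_le_four
    omega)
  have huv : u ≠ v := fun h => hu (h ▸ hvU)
  have huy : u ≠ y := fun h => hu (h ▸ hyU)
  -- colour of u v is small
  obtain ⟨z1, hz1⟩ := claim1 hc hno (v := u) (x := y) (y := v) huy huv hvy.symm (by
    rw [Sym2.eq_swap]; exact hu)
  -- u'
  obtain ⟨u', hu'⟩ := exists_out (Ut c (c s(v, y)) ∪ Ut c (c s(u, v))) (by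
    have h1 : Ut c (c s(v, y)) ∪ Ut c (c s(u, v)) ⊆ {v, y, x, z} ∪ {u, z1} := by
      intro w hw
      rcases Finset.mem_union.1 hw with h | h
      · exact Finset.mem_union_left _ (hz h)
      · have := hz1 h
        simp only [Finset.mem_insert, Finset.mem_singleton, Finset.mem_union] at this ⊢
        tauto
    have h2 := (Finset.card_le_card h1).trans (Finset.card_union_le _ _)
    have h3 : ({v, y, x, z} : Finset (Fin n)).card ≤ 4 := Finset.card_le_four
    have h4 : ({u, z1} : Finset (Fin n)).card ≤ 2 := Finset.card_le_two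
    omega)
  rw [Finset.mem_union, not_or] at hu'
  have huU : u ∈ Ut c (c s(u, v)) := mem_Ut.2 ⟨v, huv.symm, rfl⟩
  have hu'v : u' ≠ v := fun h => hu'.1 (h ▸ hvU)
  have hu'y : u' ≠ y := fun h => hu'.1 (h ▸ hyU)
  have hu'u : u' ≠ u := fun h => hu'.2 (h ▸ huU)
  obtain ⟨z2, hz2⟩ := claim1 hc hno (v := u') (x := v) (y := y) hu'v hu'y hvy hu'.1
  have hne : c s(u, v) ≠ c s(u', y) := by
    intro he
    apply hu'.2
    rw [he]
    exact mem_Ut.2 ⟨y, hu'y.symm, rfl⟩
  -- w
  obtain ⟨w, hw⟩ := exists_out (Ut c (c s(u, v)) ∪ Ut c (c s(u', y))) (by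
    have h1 : Ut c (c s(u, v)) ∪ Ut c (c s(u', y)) ⊆ {u, v, y, z1} ∪ {u', z2} := by
      intro w hw
      rcases Finset.mem_union.1 hw with h | h
      · exact Finset.mem_union_left _ (hz1 h)
      · have := hz2 h
        simp only [Finset.mem_insert, Finset.mem_singleton, Finset.mem_union] at this ⊢
        tauto
    have h2 := (Finset.card_le_card h1).trans (Finset.card_union_le _ _)
    have h3 : ({u, v, y, z1} : Finset (Fin n)).card ≤ 4 := Finset.card_le_four
    have h4 : ({u', z2} : Finset (Fin n)).card ≤ 2 := Finset.card_le_two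
    omega)
  rw [Finset.mem_union, not_or] at hw
  have hw1 : w ≠ u := fun h => hw.1 (h ▸ huU)
  have hw2 : w ≠ v := fun h => hw.1 (by
    rw [h]; exact mem_Ut.2 ⟨u, huv, by rw [Sym2.eq_swap]⟩)
  have hw3 : w ≠ u' := fun h => hw.2 (by rw [h]; exact mem_Ut.2 ⟨y, hu'y.symm, rfl⟩)
  have hw4 : w ≠ y := fun h => hw.2 (by
    rw [h]; exact mem_Ut.2 ⟨u', hu'y, by rw [Sym2.eq_swap]⟩)
  apply hno
  apply two_spider hc (v := w) (a0 := u) (b0 := v) (a1 := u') (b1 := y) hw1.symm hw2.symm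
    hw3.symm hw4.symm huv hu'u.symm huy hu'v.symm hvy hu'y
  · intro q hq _ _
    exact not_mem_Ut hw.1 q hq
  · intro q hq _ _
    exact not_mem_Ut hw.2 q hq
  · exact hne

theorem caseB {n : ℕ} (hn : 1 ≤ n) {C : Type} {c : Sym2 (Fin n) → C} (hc : ProperColouring c)
    (hall : ∀ x y : Fin n, x ≠ y → ∀ v, v ∈ Ut c (c s(x, y))) (hno : ¬ HasSp c 2) :
    ∃ k, n = 2 ^ k := by
  classical
  set v0 : Fin n := ⟨0, by omega⟩ with hv0
  have hex : ∀ u : Fin n, u ≠ v0 → ∀ x, ∃ y, y ≠ x ∧ c s(x, y) = c s(v0, u) := by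
    intro u hu x
    exact mem_Ut.1 (hall v0 u hu.symm x)
  choose f hf1 hf2 using hex
  have hinv : ∀ u (hu : u ≠ v0), Function.Involutive (f u hu) := by
    intro u hu x
    apply pc_inj hc (x := f u hu x) (hf1 u hu _) (hf1 u hu x).symm
    rw [hf2 u hu (f u hu x), ← hf2 u hu x, Sym2.eq_swap]
  set σ : Fin n → Equiv.Perm (Fin n) := fun u =>
    if hu : u ≠ v0 then (hinv u hu).toPerm (f u hu) else 1 with hσ
  have hσv : σ v0 = 1 := by simp [hσ]
  have hσu : ∀ u (hu : u ≠ v0) x, σ u x = f u hu x := by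
    intro u hu x
    simp only [hσ]
    rw [dif_pos hu]; rfl
  have hσ0 : ∀ u, σ u v0 = u := by
    intro u
    by_cases hu : u = v0
    · rw [hu, hσv]; rfl
    · rw [hσu u hu]
      exact pc_inj hc (x := v0) (hf1 u hu v0) hu (hf2 u hu v0)
  have hσσ : ∀ u, σ u * σ u = 1 := by
    intro u
    by_cases hu : u = v0
    · rw [hu, hσv]; rfl
    · ext x
      rw [Equiv.Perm.mul_apply, hσu u hu, hσu u hu, hinv u hu x]; rfl
  -- commutation
  have hcomm' : ∀ u w (hu : u ≠ v0) (hw : w ≠ v0), u ≠ w → ∀ x,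
      f u hu (f w hw x) = f w hw (f u hu x) := by
    intro u w hu hw huw x
    by_contra hne
    apply hno
    have hcol : c s(v0, u) ≠ c s(v0, w) := fun h => huw (pc_inj hc hu hw h)
    set b0 := f u hu x with hb0
    set b1 := f w hw x with hb1
    set a0 := f w hw b0 with ha0
    set a1 := f u hu b1 with ha1
    have i0 : f u hu b0 = x := hinv u hu x
    have i1 : f w hw b1 = x := hinv w hw x
    have hb01 : b0 ≠ b1 := by
      intro h
      apply hcol
      rw [← hf2 u hu x, ← hf2 w hw x, ← hb0, ← hb1, h]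
    have d1 : a0 ≠ x := by
      intro h
      apply hb01
      have : f w hw a0 = f w hw x := by rw [h]
      rw [ha0, hinv w hw b0] at this
      exact this
    have d3 : a1 ≠ x := by
      intro h
      apply hb01
      have : f u hu a1 = f u hu x := by rw [h]
      rw [ha1, hinv u hu b1] at this
      exact this.symm
    have d7 : a0 ≠ b1 := by
      intro h
      have : f w hw a0 = f w hw b1 := by rw [h]
      rw [ha0, hinv w hw b0, i1] at this
      exact hf1 u hu x this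
    have d8 : b0 ≠ a1 := by
      intro h
      have : f u hu b0 = f u hu a1 := by rw [h]
      rw [ha1, hinv u hu b1, i0] at this
      exact hf1 w hw x this.symm
    apply two_spider hc (v := x) (a0 := a0) (b0 := b0) (a1 := a1) (b1 := b1) d1
      (hf1 u hu x) d3 (hf1 w hw x) (hf1 w hw b0) (Ne.symm hne) d7 d8 hb01 (hf1 u hu b1)
    · intro z hz hz0 hz1 he
      have e : c s(a0, b0) = c s(v0, w) := by rw [Sym2.eq_swap]; exact hf2 w hw b0
      rw [e, ← hf2 w hw x] at he
      exact hz1 (pc_inj hc hz (hf1 w hw x) he)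
    · intro z hz hz0 hz1 he
      have e : c s(a1, b1) = c s(v0, u) := by rw [Sym2.eq_swap]; exact hf2 u hu b1
      rw [e, ← hf2 u hu x] at he
      exact hz0 (pc_inj hc hz (hf1 u hu x) he)
    · intro he
      have e : c s(a0, b0) = c s(v0, w) := by rw [Sym2.eq_swap]; exact hf2 w hw b0
      have e' : c s(a1, b1) = c s(v0, u) := by rw [Sym2.eq_swap]; exact hf2 u hu b1
      rw [e, e'] at he
      exact hcol he.symm
  have hcomm : ∀ u w, σ u * σ w = σ w * σ u := by
    intro u w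
    by_cases hu : u = v0
    · rw [hu, hσv]; simp
    by_cases hw : w = v0
    · rw [hw, hσv]; simp
    by_cases huw : u = w
    · rw [huw]
    · ext x
      rw [Equiv.Perm.mul_apply, Equiv.Perm.mul_apply, hσu u hu, hσu w hw, hσu w hw, hσu u hu,
        hcomm' u w hu hw huw x]
  -- the centraliser
  set H : Subgroup (Equiv.Perm (Fin n)) := Subgroup.centralizer (Set.range σ) with hH
  have hmem : ∀ g, g ∈ H ↔ ∀ u, σ u * g = g * σ u := by
    intro g
    rw [hH, Subgroup.mem_centralizer_iff]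
    simp
  have hσH : ∀ u, σ u ∈ H := fun u => (hmem _).2 fun w => hcomm w u
  have hdet : ∀ g ∈ H, ∀ g' ∈ H, g v0 = g' v0 → g = g' := by
    intro g hg g' hg' h
    ext x
    have h1 : x = σ x v0 := (hσ0 x).symm
    have e1 : g x = σ x (g v0) := by
      conv_lhs => rw [h1]
      rw [← Equiv.Perm.mul_apply, ← (hmem g).1 hg x, Equiv.Perm.mul_apply]
    have e2 : g' x = σ x (g' v0) := by
      conv_lhs => rw [h1]
      rw [← Equiv.Perm.mul_apply, ← (hmem g').1 hg' x, Equiv.Perm.mul_apply]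
    rw [e1, e2, h]
  have hcard : Nat.card H = n := by
    have e : H ≃ Fin n := by
      refine Equiv.ofBijective (fun g => g.1 v0) ⟨?_, ?_⟩
      · intro g g' h
        exact Subtype.ext (hdet g.1 g.2 g'.1 g'.2 h)
      · intro x
        exact ⟨⟨σ x, hσH x⟩, hσ0 x⟩
    rw [Nat.card_congr e]; simp
  have hp : IsPGroup 2 H := by
    intro g
    refine ⟨1, ?_⟩
    have h1 : g.1 = σ (g.1 v0) := hdet _ g.2 _ (hσH _) (hσ0 _).symm
    apply Subtype.ext
    show g.1 ^ (2 ^ 1) = 1
    rw [h1, pow_one, pow_two, hσσ]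
  have : Fact (Nat.Prime 2) := ⟨Nat.prime_two⟩
  obtain ⟨k, hk⟩ := IsPGroup.iff_card.1 hp
  exact ⟨k, by rw [← hcard, hk]⟩

theorem good_two_iff {n : ℕ} (hn : 7 ≤ n) : Good n 2 ↔ ¬ ∃ k, n = 2 ^ k := by
  constructor
  · rintro h ⟨k, rfl⟩
    exact not_good_two_of_pow k h
  · intro h C c hc
    by_contra hno
    have hno : ¬ HasSp c 2 := hno
    by_cases hall : ∀ x y : Fin n, x ≠ y → ∀ v, v ∈ Ut c (c s(x, y))
    · exact h (caseB (by omega) hc hall hno)
    · push Not at hall
      obtain ⟨x, y, hxy, v, hv⟩ := hall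
      have hvx : v ≠ x := by
        rintro rfl; exact hv (mem_Ut.2 ⟨y, hxy.symm, rfl⟩)
      have hvy : v ≠ y := by
        rintro rfl; exact hv (mem_Ut.2 ⟨x, hxy, by rw [Sym2.eq_swap]⟩)
      exact hno (caseA hn hc hvx hvy hxy hv)

theorem good_zero {n : ℕ} (hn : 1 ≤ n) : Good n 0 := by
  intro C c hc
  refine ⟨⟨0, by omega⟩, Fin.elim0, Fin.elim0, ?_, fun i => i.elim0, fun i => i.elim0, ?_⟩
  · rintro (i | i) _ _ <;> exact i.elim0
  · exact injOn_spider hc (fun _ _ _ i => i.elim0) (fun i => i.elim0)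

end Spider
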